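import Pool.Agent.H43L.Fs

/-!
# The words with one twist
-/

set_option autoImplicit false

namespace Pool.Agent.H43L

open Finset Filter Topology
open Pool.Agent.X90.DM (trunc R li)

/-- words without twist -/
def Un (u : List (ℕ × ℂ)) : Prop := ∀ x ∈ u, 1 ≤ x.1 ∧ x.2 = 1

/-- words with one twist, at the first letter -/
def Clw (ω : ℂ) (w : List (ℕ × ℂ)) : Prop := ∃ a u, w = (a, ω) :: u ∧ 1 ≤ a ∧ Un u

/-- words with one twist -/
def One (ω : ℂ) (w : List (ℕ × ℂ)) : Prop := ∃ p a u, w = p ++ (a, ω) :: u ∧ 1 ≤ a ∧ Un (p ++ u)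

/-- the family -/
def CFm (ω : ℂ) (W k : ℕ) : Set (List (ℕ × ℂ)) :=
  {w | One ω w ∧ (w.map Prod.fst).sum = k ∧
    ((Clw ω w ∧ ∃ x ∈ w, k ≤ x.1 + W) ∨ ∃ x u, w = x :: u ∧ k ≤ x.1 + W)}

/-- the space of the values of weight `n` -/
noncomputable def Cs (ω : ℂ) (n : ℕ) : Submodule ℚ ℂ :=
  Submodule.span ℚ (li '' {w | Clw ω w ∧ (w.map Prod.fst).sum = n})

/-- the character -/
noncomputable def χC (ω : ℂ) : Chr ℕ where
  toFun k := ω ^ k
  zero := pow_zero _
  add _ _ := pow_add _ _ _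

lemma wtC {G : Type} [AddCommMonoid G] (χ : Chr G) (u : Wd G) : ((mp χ u).map Prod.fst).sum = wt u := by
  rw [mp, List.map_map, wt]
  rfl

section cl
variable (ω : ℂ)

lemma dg_LK0 {u : Wd ℕ} (h : LK {0} u) : dg u = 0 := by
  induction u with
  | nil => rfl
  | cons x u ih =>
    rw [dg_cons, ih fun a ha => h a (List.mem_cons_of_mem _ ha)]
    have := mem_singleton.1 (h x List.mem_cons_self)
    omega

lemma LK0_dg {u : Wd ℕ} (h : dg u = 0) : LK {0} u := by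
  induction u with
  | nil => exact fun a ha => absurd ha List.not_mem_nil
  | cons x u ih =>
    rw [dg_cons] at h
    intro a ha
    rw [mem_singleton]
    rcases List.mem_cons.1 ha with rfl | ha
    · omega
    · exact mem_singleton.1 (ih (by omega) a ha)

lemma LK1_dg {u : Wd ℕ} (h : dg u ≤ 1) : LK {0, 1} u := by
  induction u with
  | nil => exact fun a ha => absurd ha List.not_mem_nil
  | cons x u ih =>
    rw [dg_cons] at h
    intro a ha
    rcases List.mem_cons.1 ha with rfl | ha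
    · rw [mem_insert, mem_singleton]
      omega
    · exact ih (by omega) a ha

lemma lift0 {u : List (ℕ × ℂ)} (h : Un u) : ∃ u' : Wd ℕ, mp (χC ω) u' = u ∧ PW u' ∧ LK {0} u' := by
  induction u with
  | nil => exact ⟨[], rfl, fun a ha => absurd ha List.not_mem_nil, fun a ha => absurd ha List.not_mem_nil⟩
  | cons x u ih =>
    obtain ⟨u', h1, h2, h3⟩ := ih fun y hy => h y (List.mem_cons_of_mem _ hy)
    obtain ⟨h4, h5⟩ := h x List.mem_cons_self
    refine ⟨(x.1, 0) :: u', ?_, PW.cons h4 h2, fun a ha => ?_⟩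
    · rw [mp_cons, h1]
      have h6 : (χC ω).toFun 0 = 1 := (χC ω).zero
      simp only [h6]
      rw [← h5]
    · rcases List.mem_cons.1 ha with rfl | ha
      · exact mem_singleton_self _
      · exact h3 a ha

lemma un_mp {u' : Wd ℕ} (h : PW u') (h0 : LK {0} u') : Un (mp (χC ω) u') := by
  intro x hx
  obtain ⟨y, hy, rfl⟩ := List.mem_map.1 hx
  refine ⟨h y hy, ?_⟩
  have := mem_singleton.1 (h0 y hy)
  show ω ^ y.2 = 1
  rw [this, pow_zero]

lemma dg_one {w : Wd ℕ} (h : dg w = 1) : ∃ p a u, w = p ++ (a, 1) :: u ∧ LK {0} p ∧ LK {0} u := by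
  induction w with
  | nil => exact absurd h (by rw [dg_nil]; omega)
  | cons x w ih =>
    obtain ⟨a, k⟩ := x
    rw [dg_cons] at h
    simp only at h
    by_cases hk : k = 0
    · subst hk
      obtain ⟨p, b, u, h1, h2, h3⟩ := ih (by omega)
      refine ⟨(a, 0) :: p, b, u, ?_, ?_, h3⟩
      · rw [h1, List.cons_append]
      · intro c hc
        rcases List.mem_cons.1 hc with rfl | hc
        · exact mem_singleton_self _
        · exact h2 c hc
    · have hk1 : k = 1 := by omega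
      subst hk1
      exact ⟨[], a, w, rfl, fun c hc => absurd hc List.not_mem_nil, LK0_dg (by omega)⟩

lemma one_iff (v : List (ℕ × ℂ)) : One ω v ↔ ∃ w : Wd ℕ, mp (χC ω) w = v ∧ PW w ∧ dg w = 1 := by
  have h1 : (χC ω).toFun 1 = ω := pow_one _
  constructor
  · rintro ⟨p, a, u, rfl, ha, hu⟩
    obtain ⟨p', g1, g2, g3⟩ := lift0 ω (u := p) fun x hx => hu x (List.mem_append_left _ hx)
    obtain ⟨u', g4, g5, g6⟩ := lift0 ω (u := u) fun x hx => hu x (List.mem_append_right _ hx)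
    refine ⟨p' ++ (a, 1) :: u', ?_, ?_, ?_⟩
    · rw [mp_append, mp_cons, g1, g4]
      simp only [h1]
    · intro c hc
      rcases List.mem_append.1 hc with hc | hc
      · exact g2 c hc
      · rcases List.mem_cons.1 hc with rfl | hc
        · exact ha
        · exact g5 c hc
    · rw [dg_append, dg_cons, dg_LK0 g3, dg_LK0 g6]
      rfl
  · rintro ⟨w, rfl, h2, h3⟩
    obtain ⟨p, a, u, rfl, g1, g2⟩ := dg_one h3
    refine ⟨mp (χC ω) p, a, mp (χC ω) u, ?_, h2 (a, 1) (by simp), ?_⟩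
    · rw [mp_append, mp_cons]
      simp only [h1]
    · intro x hx
      rcases List.mem_append.1 hx with hx | hx
      · exact un_mp ω (fun c hc => h2 c (List.mem_append_left _ hc)) g1 x hx
      · exact un_mp ω (fun c hc => h2 c (List.mem_append_right _ (List.mem_cons_of_mem _ hc))) g2 x hx

lemma Clw.one {v : List (ℕ × ℂ)} (h : Clw ω v) : One ω v := by
  obtain ⟨a, u, rfl, h1, h2⟩ := h
  exact ⟨[], a, u, rfl, h1, h2⟩

/-- Clausen words of weight `m + 1` -/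
noncomputable def CW (m : ℕ) : Finset (Wd ℕ) :=
  (XF ({0} : Finset ℕ) m).image fun x => (x.2.1 + 1, 1) :: x.2.2

lemma mem_CW (m : ℕ) (p : Wd ℕ) : p ∈ CW m ↔ ∃ a u, p = (a, 1) :: u ∧ 1 ≤ a ∧ PW u ∧ LK {0} u ∧ a + wt u = m + 1 := by
  rw [CW, mem_image]
  constructor
  · rintro ⟨x, hx, rfl⟩
    obtain ⟨h1, h2, h3, h4⟩ := (mem_XF _ _ _).1 hx
    rw [wx] at h1
    exact ⟨_, _, rfl, by omega, h2, h4, by omega⟩
  · rintro ⟨a, u, rfl, h1, h2, h3, h4⟩
    refine ⟨(0, a - 1, u), (mem_XF _ _ _).2 ⟨?_, h2, mem_singleton_self _, h3⟩, ?_⟩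
    · rw [wx]
      simp only
      omega
    · simp only
      rw [Nat.sub_add_cancel h1]

lemma card_CW (m : ℕ) : (CW m).card = 2 ^ m := by
  rw [CW, card_image_of_injOn, card_XF, card_singleton, one_mul]
  rintro ⟨k, b, u⟩ hx ⟨k', b', u'⟩ hx' h
  have h1 := mem_singleton.1 ((mem_XF _ _ _).1 (mem_coe.1 hx)).2.2.1
  have h2 := mem_singleton.1 ((mem_XF _ _ _).1 (mem_coe.1 hx')).2.2.1
  simp only [List.cons.injEq, Prod.mk.injEq, Nat.add_right_cancel_iff, and_true] at h h1 h2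
  obtain ⟨rfl, rfl⟩ := h
  rw [h1, h2]

/-- the functions of degree one -/
noncomputable def XD (W : ℕ) : Finset (Xx ℕ) := (XF ({0, 1} : Finset ℕ) W).filter fun x => dx x = 1

lemma mem_XD (W : ℕ) (x : Xx ℕ) : x ∈ XD W ↔ wx x = W ∧ PX x ∧ dx x = 1 := by
  rw [XD, mem_filter, mem_XF]
  constructor
  · rintro ⟨⟨h1, h2, -⟩, h3⟩
    exact ⟨h1, h2, h3⟩
  · rintro ⟨h1, h2, h3⟩
    refine ⟨⟨h1, h2, ?_, ?_⟩, h3⟩
    · rw [dx] at h3
      rw [mem_insert, mem_singleton]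
      omega
    · rw [dx] at h3
      exact LK1_dg (by omega)

lemma mem_X0 (n : ℕ) (x : Xx ℕ) : x ∈ XF ({0} : Finset ℕ) n ↔ wx x = n ∧ PX x ∧ dx x = 0 := by
  rw [mem_XF]
  constructor
  · rintro ⟨h1, h2, h3, h4⟩
    refine ⟨h1, h2, ?_⟩
    rw [dx, dg_LK0 h4, mem_singleton.1 h3]
  · rintro ⟨h1, h2, h3⟩
    rw [dx] at h3
    exact ⟨h1, h2, by rw [mem_singleton]; omega, LK0_dg (by omega)⟩

/-- the index set -/
noncomputable def IC (W : ℕ) : Finset (Px ℕ) :=
  (XD W).image (fun x => (([] : Wd ℕ), x)) ∪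
    (range W).biUnion fun m => CW m ×ˢ XF ({0} : Finset ℕ) (W - 1 - m)

lemma mem_IC (W : ℕ) (i : Px ℕ) : i ∈ IC W ↔ wt i.1 + wx i.2 = W ∧ PX i.2 ∧
    ((i.1 = [] ∧ dx i.2 = 1) ∨
      (∃ a u, i.1 = (a, 1) :: u ∧ 1 ≤ a ∧ PW u ∧ LK {0} u) ∧ dx i.2 = 0) := by
  rw [IC, mem_union, mem_image, mem_biUnion]
  constructor
  · rintro (⟨x, hx, rfl⟩ | ⟨m, hm, hi⟩)
    · obtain ⟨h1, h2, h3⟩ := (mem_XD W x).1 hx
      refine ⟨?_, h2, Or.inl ⟨rfl, h3⟩⟩
      rw [wt_nil, zero_add]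
      exact h1
    · rw [mem_product, mem_CW, mem_X0] at hi
      rw [mem_range] at hm
      obtain ⟨⟨a, u, h1, h2, h3, h4, h5⟩, h6, h7, h8⟩ := hi
      refine ⟨?_, h7, Or.inr ⟨⟨a, u, h1, h2, h3, h4⟩, h8⟩⟩
      rw [h1, wt_cons]
      simp only
      omega
  · rintro ⟨h1, h2, h3⟩
    rcases h3 with ⟨h3, h4⟩ | ⟨⟨a, u, h3, h4, h5, h6⟩, h7⟩
    · left
      rw [h3, wt_nil, zero_add] at h1
      exact ⟨i.2, (mem_XD W _).2 ⟨h1, h2, h4⟩, Prod.ext h3.symm rfl⟩
    · right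
      rw [h3, wt_cons] at h1
      simp only at h1
      refine ⟨a + wt u - 1, mem_range.2 (by omega), ?_⟩
      rw [mem_product, mem_CW, mem_X0]
      exact ⟨⟨a, u, h3, h4, h5, h6, by omega⟩, by omega, h2, h7⟩

lemma card_IC (W : ℕ) : (IC W).card = (XD W).card + ∑ m ∈ range W, 2 ^ (W - 1 - m) * 2 ^ m := by
  rw [IC, card_union_of_disjoint, card_image_of_injective, card_biUnion]
  · congr 1
    refine sum_congr rfl fun m _ => ?_
    rw [card_product, card_CW, card_XF, card_singleton, one_mul, mul_comm]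
  · intro n _ m _ hne
    rw [Function.onFun, Finset.disjoint_left]
    intro i hi hi'
    rw [mem_product, mem_CW] at hi hi'
    obtain ⟨⟨a, u, h1, -, -, -, h2⟩, -⟩ := hi
    obtain ⟨⟨a', u', h3, -, -, -, h4⟩, -⟩ := hi'
    rw [h1, List.cons.injEq, Prod.mk.injEq] at h3
    obtain ⟨⟨rfl, -⟩, rfl⟩ := h3
    omega
  · intro x y h
    exact congrArg Prod.snd h
  · rw [Finset.disjoint_left]
    intro i hi hi'
    obtain ⟨x, -, rfl⟩ := mem_image.1 hi
    obtain ⟨m, -, h1⟩ := mem_biUnion.1 hi'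
    rw [mem_product, mem_CW] at h1
    obtain ⟨⟨a, u, h2, -⟩, -⟩ := h1
    exact List.cons_ne_nil _ _ h2.symm

lemma dg_pre {q r p : Wd ℕ} (h : q ++ r = p) : dg q + dg r = dg p := by rw [← h, dg_append]

lemma fam_C (W : ℕ) : Fam {0, 1} W (IC W) := by
  have hPW : ∀ i ∈ IC W, PW i.1 := by
    intro i hi
    obtain ⟨h1, h2, h3⟩ := (mem_IC W i).1 hi
    rcases h3 with ⟨h3, -⟩ | ⟨⟨a, u, h3, h4, h5, -⟩, -⟩
    · rw [h3]
      exact fun a ha => absurd ha List.not_mem_nil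
    · rw [h3]
      exact PW.cons h4 h5
  have hdg : ∀ i ∈ IC W, dg i.1 + dx i.2 = 1 := by
    intro i hi
    obtain ⟨h1, h2, h3⟩ := (mem_IC W i).1 hi
    rcases h3 with ⟨h3, h4⟩ | ⟨⟨a, u, h3, -, -, h5⟩, h6⟩
    · rw [h3, dg_nil, h4]
    · rw [h3, dg_cons, dg_LK0 h5, h6]
  refine ⟨⟨fun i hi => ⟨hPW i hi, ((mem_IC W i).1 hi).2.1⟩, ?_⟩, fun i hi => ((mem_IC W i).1 hi).1, ?_, ?_, ?_⟩
  · rintro i hi j ⟨r, hr0, hr⟩ hw hd hx
    obtain ⟨h1, h2, h3⟩ := (mem_IC W i).1 hi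
    have h4 := hdg i hi
    rw [mem_IC]
    refine ⟨by omega, hx, ?_⟩
    rcases h3 with ⟨h3, -⟩ | ⟨⟨a, u, h3, h5, h6, h7⟩, h8⟩
    · rw [h3] at hr
      exact absurd (List.append_eq_nil_iff.1 hr).2 hr0
    · cases hj : j.1 with
      | nil =>
        left
        rw [hj, dg_nil] at hd
        exact ⟨rfl, by omega⟩
      | cons y q =>
        right
        rw [hj, h3, List.cons_append, List.cons.injEq] at hr
        obtain ⟨rfl, hr⟩ := hr
        have h9 : LK {0} q := fun c hc => h7 c (by rw [← hr]; exact List.mem_append_left _ hc)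
        refine ⟨⟨a, q, rfl, h5, fun c hc => h6 c (by rw [← hr]; exact List.mem_append_left _ hc), h9⟩, ?_⟩
        rw [hj, dg_cons, dg_LK0 h9] at hd
        simp only at hd
        omega
  · intro i hi
    exact LK1_dg (by have := hdg i hi; omega)
  · intro i hi
    have := hdg i hi
    rw [dx] at this
    rw [mem_insert, mem_singleton]
    omega
  · intro i hi
    refine LK1_dg ?_
    have := hdg i hi
    rw [dx] at this
    omega

variable {ω}

lemma injC (h1 : ω ≠ 1) : Set.InjOn (χC ω).toFun (({0, 1} : Finset ℕ) : Set ℕ) := by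
  intro a ha b hb h
  rw [mem_coe, mem_insert, mem_singleton] at ha hb
  have h' : ω ^ a = ω ^ b := h
  rcases ha with rfl | rfl <;> rcases hb with rfl | rfl
  · rfl
  · rw [pow_zero, pow_one] at h'
    exact absurd h'.symm h1
  · rw [pow_zero, pow_one] at h'
    exact absurd h' h1
  · rfl

lemma adm_C (n : ℕ) (hn : 1 ≤ n) (hω : ω ^ n = 1) (h1 : ω ≠ 1) (W : ℕ) : ∀ i ∈ IC W, Am (mp (χC ω) i.1) := by
  intro i hi
  have hχ : ∀ k, ‖(χC ω).toFun k‖ = 1 := by
    intro k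
    show ‖ω ^ k‖ = 1
    rw [norm_pow, Complex.norm_eq_one_of_pow_eq_one hω (by omega), one_pow]
  obtain ⟨h2, h3, h4⟩ := (mem_IC W i).1 hi
  rcases h4 with ⟨h4, -⟩ | ⟨⟨a, u, h4, h5, h6, h7⟩, -⟩
  · rw [h4]
    trivial
  · have h8 := pn_mp (χC ω) hχ (PW.cons (x := (a, 1)) h5 h6)
    rw [h4]
    refine ⟨fun _ => ?_, h8⟩
    show ω ^ 1 ≠ 1
    rwa [pow_one]

lemma fam_iff_C (W s : ℕ) (hs : 2 ≤ s) (v : List (ℕ × ℂ)) :
    v ∈ CFm ω W (s + W) ↔ ∃ i : ↥(IC W), wd (χC ω) s i.1 = v := by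
  have e1 : (χC ω).toFun 1 = ω := pow_one _
  have e0 : (χC ω).toFun 0 = 1 := pow_zero _
  constructor
  · rintro ⟨h1, h2, h3⟩
    have hB : ∀ x u, v = x :: u → s + W ≤ x.1 + W → ∃ i : ↥(IC W), wd (χC ω) s i.1 = v := by
      intro x u hv hx
      obtain ⟨w, g1, g2, g3⟩ := (one_iff ω v).1 h1
      cases w with
      | nil => exact absurd g3 (by rw [dg_nil]; omega)
      | cons y u' =>
        have g4 := g1
        rw [hv, mp_cons, List.cons.injEq] at g4
        have g5 : y.1 = x.1 := congrArg Prod.fst g4.1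
        rw [← g1, wtC, wt_cons] at h2
        rw [dg_cons] at g3
        refine ⟨⟨([], (y.2, y.1 - s, u')), (mem_IC W _).2 ⟨?_, g2.tail, Or.inl ⟨rfl, ?_⟩⟩⟩, ?_⟩
        · rw [wx, wt_nil]
          simp only
          omega
        · rw [dx]
          exact g3
        · rw [wd]
          simp only
          rw [mp_nil, List.nil_append, ← g1, mp_cons, show s + (y.1 - s) = y.1 by omega]
    rcases h3 with ⟨⟨a, u, hv, ha, hu⟩, x, hx, hx'⟩ | ⟨x, u, hv, hx⟩
    · rw [hv] at hx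
      rcases List.mem_cons.1 hx with rfl | hx
      · exact hB _ _ hv hx'
      · obtain ⟨u1, u2, rfl⟩ := List.append_of_mem hx
        obtain ⟨u1', g1, g2, g3⟩ := lift0 ω (u := u1) fun y hy => hu y (List.mem_append_left _ hy)
        obtain ⟨u2', g4, g5, g6⟩ := lift0 ω (u := u2) fun y hy =>
          hu y (List.mem_append_right _ (List.mem_cons_of_mem _ hy))
        have g7 : x.2 = 1 := (hu x hx).2
        subst g1 g4
        rw [hv, List.map_cons, List.sum_cons, List.map_append, List.sum_append, List.map_cons, List.sum_cons,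
          wtC, wtC] at h2
        simp only at h2
        refine ⟨⟨((a, 1) :: u1', (0, x.1 - s, u2')), (mem_IC W _).2 ⟨?_, g5, Or.inr
          ⟨⟨a, u1', rfl, ha, g2, g3⟩, ?_⟩⟩⟩, ?_⟩
        · rw [wx, wt_cons]
          simp only
          omega
        · rw [dx, dg_LK0 g6]
        · rw [wd, hv]
          simp only
          rw [mp_cons, List.cons_append, show s + (x.1 - s) = x.1 by omega]
          simp only [e1, e0]
          rw [← g7]
    · exact hB _ _ hv hx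
  · rintro ⟨⟨i, hi⟩, rfl⟩
    have hPW : PW i.1 ∧ PX i.2 := (fam_C W).cl.pos i hi
    obtain ⟨h1, h2, h3⟩ := (mem_IC W i).1 hi
    rw [wx] at h1
    have hw : ((wd (χC ω) s i).map Prod.fst).sum = s + W := by
      rw [wd, List.map_append, List.sum_append, List.map_cons, List.sum_cons, wtC, wtC]
      simp only
      omega
    have hO : One ω (wd (χC ω) s i) := by
      rw [one_iff]
      refine ⟨i.1 ++ (s + i.2.2.1, i.2.1) :: i.2.2.2, ?_, ?_, ?_⟩
      · rw [mp_append, mp_cons]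
        rfl
      · intro c hc
        rcases List.mem_append.1 hc with hc | hc
        · exact hPW.1 c hc
        · rcases List.mem_cons.1 hc with rfl | hc
          · show 1 ≤ s + _
            omega
          · exact hPW.2 c hc
      · rw [dg_append, dg_cons]
        rcases h3 with ⟨h3, h4⟩ | ⟨⟨a, u, h3, h4, h5, h6⟩, h7⟩
        · rw [h3, dg_nil, zero_add]
          exact h4
        · rw [h3, dg_cons, dg_LK0 h6]
          rw [dx] at h7
          simp only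
          omega
    refine ⟨hO, hw, ?_⟩
    rcases h3 with ⟨h3, h4⟩ | ⟨⟨a, u, h3, h4, h5, h6⟩, h7⟩
    · right
      refine ⟨_, _, by rw [wd, h3, mp_nil, List.nil_append], ?_⟩
      show s + W ≤ s + _ + W
      omega
    · left
      rw [dx] at h7
      refine ⟨⟨a, mp (χC ω) u ++ (s + i.2.2.1, (χC ω).toFun i.2.1) :: mp (χC ω) i.2.2.2, ?_, h4, ?_⟩,
        (s + i.2.2.1, (χC ω).toFun i.2.1), ?_, ?_⟩
      · rw [wd, h3, mp_cons, List.cons_append]
        simp only [e1]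
      · intro x hx
        rcases List.mem_append.1 hx with hx | hx
        · exact un_mp ω h5 h6 x hx
        · rcases List.mem_cons.1 hx with rfl | hx
          · refine ⟨?_, ?_⟩
            · show 1 ≤ s + _
              omega
            · have : i.2.1 = 0 := by omega
              simp only [this]
              exact e0
          · exact un_mp ω h2 (LK0_dg (by omega)) x hx
      · rw [wd]
        exact List.mem_append_right _ List.mem_cons_self
      · show s + W ≤ s + _ + W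
        omega

lemma SZ_C (W m : ℕ) (hm : m < W) (x : Xx ℕ) (hx : x ∈ XF ({0} : Finset ℕ) (W - 1 - m)) :
    SZ (IC W) (fun p => li (mp (χC ω) p)) x = Cs ω (m + 1) := by
  have e1 : (χC ω).toFun 1 = ω := pow_one _
  obtain ⟨hx1, hx2, hx3⟩ := (mem_X0 _ _).1 hx
  rw [SZ, Cs]
  congr 1
  ext z
  constructor
  · rintro ⟨p, hp, rfl⟩
    obtain ⟨h1, h2, h3⟩ := (mem_IC W _).1 hp
    simp only at h1 h2 h3
    rcases h3 with ⟨h3, h4⟩ | ⟨⟨a, u, h3, h4, h5, h6⟩, h7⟩
    · omega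
    · refine ⟨mp (χC ω) p, ⟨⟨a, mp (χC ω) u, ?_, h4, un_mp ω h5 h6⟩, ?_⟩, rfl⟩
      · rw [h3, mp_cons]
        simp only [e1]
      · rw [wtC]
        omega
  · rintro ⟨w, ⟨⟨a, u, rfl, h1, h2⟩, h3⟩, rfl⟩
    obtain ⟨u', g1, g2, g3⟩ := lift0 ω h2
    subst g1
    rw [List.map_cons, List.sum_cons, wtC] at h3
    simp only at h3
    refine ⟨(a, 1) :: u', (mem_IC W _).2 ⟨?_, hx2, Or.inr ⟨⟨a, u', rfl, h1, g2, g3⟩, hx3⟩⟩, ?_⟩
    · rw [wt_cons]
      simp only
      omega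
    · simp only
      rw [mp_cons]
      simp only [e1]

lemma SZ_D (W : ℕ) (x : Xx ℕ) (hx : x ∈ XD W) :
    Module.finrank ℚ (SZ (IC W) (fun p => li (mp (χC ω) p)) x) = 1 := by
  obtain ⟨hx1, hx2, hx3⟩ := (mem_XD _ _).1 hx
  have h1 : {p : Wd ℕ | (p, x) ∈ IC W} = {[]} := by
    ext p
    rw [Set.mem_singleton_iff]
    constructor
    · intro hp
      obtain ⟨h1, h2, h3⟩ := (mem_IC W _).1 hp
      simp only at h1 h2 h3
      rcases h3 with ⟨h3, h4⟩ | ⟨⟨a, u, h3, h4, h5, h6⟩, h7⟩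
      · exact h3
      · omega
    · rintro rfl
      exact (mem_IC W _).2 ⟨by rw [wt_nil, zero_add]; exact hx1, hx2, Or.inl ⟨rfl, hx3⟩⟩
  have h2 : li (mp (χC ω) []) = 1 := by
    rw [li]
    refine Tendsto.limUnder_eq ?_
    exact tendsto_const_nhds
  rw [SZ, h1, Set.image_singleton, h2]
  exact finrank_span_singleton one_ne_zero

lemma sum_C (W : ℕ) : ∑ x ∈ XI (IC W), Module.finrank ℚ (SZ (IC W) (fun p => li (mp (χC ω) p)) x) =
    (XD W).card + ∑ m ∈ range W, 2 ^ (W - 1 - m) * Module.finrank ℚ (Cs ω (m + 1)) := by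
  set f : Xx ℕ → ℕ := fun x => Module.finrank ℚ (SZ (IC W) (fun p => li (mp (χC ω) p)) x) with hf
  have hsp : ∑ x ∈ XI (IC W), f x = ∑ x ∈ XI (IC W) with dx x = 1, f x + ∑ x ∈ XI (IC W) with ¬ dx x = 1, f x :=
    (sum_filter_add_sum_filter_not _ _ _).symm
  have hD : (XI (IC W)).filter (fun x => dx x = 1) = XD W := by
    ext x
    rw [mem_filter, mem_XI, mem_XD]
    constructor
    · rintro ⟨⟨i, hi, rfl⟩, h⟩
      obtain ⟨h1, h2, h3⟩ := (mem_IC W i).1 hi
      rcases h3 with ⟨h3, -⟩ | ⟨-, h7⟩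
      · rw [h3, wt_nil, zero_add] at h1
        exact ⟨h1, h2, h⟩
      · omega
    · rintro ⟨h1, h2, h3⟩
      exact ⟨⟨([], x), (mem_IC W _).2 ⟨by rw [wt_nil, zero_add]; exact h1, h2, Or.inl ⟨rfl, h3⟩⟩, rfl⟩, h3⟩
  have h1 : ∑ x ∈ XD W, f x = (XD W).card := by
    rw [sum_congr rfl fun x hx => SZ_D W x hx, sum_const, smul_eq_mul, mul_one]
  have hX : ∀ x ∈ (XI (IC W)).filter (fun x => ¬ dx x = 1), wx x + 1 ≤ W ∧ x ∈ XF ({0} : Finset ℕ) (wx x) := by
    intro x hx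
    rw [mem_filter, mem_XI] at hx
    obtain ⟨⟨i, hi, rfl⟩, h⟩ := hx
    obtain ⟨h1, h2, h3⟩ := (mem_IC W i).1 hi
    rcases h3 with ⟨-, h3⟩ | ⟨⟨a, u, h3, h4, h5, h6⟩, h7⟩
    · exact absurd h3 h
    · rw [h3, wt_cons] at h1
      simp only at h1
      exact ⟨by omega, (mem_X0 _ _).2 ⟨rfl, h2, h7⟩⟩
  rw [hsp, hD, h1]
  congr 1
  rw [← sum_fiberwise_of_maps_to (s := (XI (IC W)).filter (fun x => ¬ dx x = 1)) (t := range W)
    (g := fun x => W - 1 - wx x) (fun x hx => mem_range.2 (by have := (hX x hx).1; omega))]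
  refine sum_congr rfl fun m hm => ?_
  rw [mem_range] at hm
  have h2 : ∀ x ∈ XF ({0} : Finset ℕ) (W - 1 - m), f x = Module.finrank ℚ (Cs ω (m + 1)) :=
    fun x hx => by rw [hf]; simp only; rw [SZ_C W m hm x hx]
  have h3 : ∑ x ∈ (XI (IC W)).filter (fun x => ¬ dx x = 1) with W - 1 - wx x = m, f x =
      ∑ x ∈ XF ({0} : Finset ℕ) (W - 1 - m), f x := by
    refine sum_subset (fun x hx => ?_) fun x hx hx' => ?_
    · rw [mem_filter] at hx
      obtain ⟨h3, h4⟩ := hX x hx.1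
      rwa [show W - 1 - m = wx x by omega]
    · refine SZ_out _ _ fun h3 => hx' ?_
      obtain ⟨g1, g2, g3⟩ := (mem_X0 _ _).1 hx
      rw [mem_filter, mem_filter]
      exact ⟨⟨h3, by omega⟩, by omega⟩
  rw [h3, sum_congr rfl h2, sum_const, card_XF, card_singleton, one_mul, smul_eq_mul]

/-- **the relations between the words with one twist** -/
theorem clausen (n : ℕ) (hn : 1 ≤ n) (hω : ω ^ n = 1) (h1 : ω ≠ 1) (W : ℕ) (ε : ℝ) (hε : 0 < ε) :
    ∃ δ0 : ℝ, 0 < δ0 ∧ ∀ δ : ℝ, 0 < δ → δ ≤ δ0 → ∃ M0 : ℕ, ∀ M : ℕ, M0 ≤ M →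
      (({k : ℕ | k ≤ M ∧ ¬ (Module.finrank ℚ (relF (CFm ω W k) (Real.exp (δ * M))) +
        ∑ m ∈ range W, 2 ^ (W - 1 - m) * Module.finrank ℚ (Cs ω (m + 1)) =
          ∑ m ∈ range W, 2 ^ (W - 1 - m) * 2 ^ m)}.ncard : ℕ) : ℝ) ≤ ε * M := by
  have h := mainF (χC ω) n hn (fun k => by
    show (ω ^ k) ^ n = 1
    rw [← pow_mul, mul_comm, pow_mul, hω, one_pow]) (K := {0, 1})
    (injC h1) (fam_C W) (adm_C n hn hω h1 W) (CFm ω W) (fun s hs v => fam_iff_C W s hs v) ε hε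
  obtain ⟨δ0, hδ0, h2⟩ := h
  refine ⟨δ0, hδ0, fun δ hδ hδ' => ?_⟩
  obtain ⟨M0, hM0⟩ := h2 δ hδ hδ'
  refine ⟨M0, fun M hM => ?_⟩
  have h3 := hM0 M hM
  rw [sum_C, card_IC] at h3
  have h4 : {k : ℕ | k ≤ M ∧ ¬ (Module.finrank ℚ (relF (CFm ω W k) (Real.exp (δ * M))) +
        ∑ m ∈ range W, 2 ^ (W - 1 - m) * Module.finrank ℚ (Cs ω (m + 1)) =
          ∑ m ∈ range W, 2 ^ (W - 1 - m) * 2 ^ m)} =
      {k : ℕ | k ≤ M ∧ ¬ (Module.finrank ℚ (relF (CFm ω W k) (Real.exp (δ * M))) +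
        ((XD W).card + ∑ m ∈ range W, 2 ^ (W - 1 - m) * Module.finrank ℚ (Cs ω (m + 1))) =
          (XD W).card + ∑ m ∈ range W, 2 ^ (W - 1 - m) * 2 ^ m)} := by
    ext k
    refine and_congr_right fun _ => not_congr ?_
    omega
  rw [h4]
  exact h3

end cl

end Pool.Agent.H43L
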