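import Pool.Agent.H43L.Fs

/-!
# The words of level `N`
-/

set_option autoImplicit false

namespace Pool.Agent.H43L

open Finset Filter Topology
open Pool.Agent.X90.DM (trunc R li)

/-- admissible words of level `N` -/
def Adm (N : ℕ) (w : List (ℕ × ℂ)) : Prop := (∀ x ∈ w, 1 ≤ x.1 ∧ x.2 ^ N = 1) ∧ w.head? ≠ some (1, 1)

/-- the words of weight `k` with an entry at least `k - W` -/
def LF (N W k : ℕ) : Set (List (ℕ × ℂ)) :=
  {w | Adm N w ∧ (w.map Prod.fst).sum = k ∧ ∃ x ∈ w, k ≤ x.1 + W}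

/-- the space of the values of weight `n` -/
noncomputable def Zs (N n : ℕ) : Submodule ℚ ℂ :=
  Submodule.span ℚ (li '' {w | Adm N w ∧ (w.map Prod.fst).sum = n})

/-- the number of admissible words -/
def aN (N : ℕ) : ℕ → ℕ
  | 0 => 1
  | 1 => N - 1
  | n + 2 => N ^ 2 * (N + 1) ^ n

lemma wt_mp {G : Type} [AddCommMonoid G] (χ : Chr G) (u : Wd G) : ((mp χ u).map Prod.fst).sum = wt u := by
  rw [mp, List.map_map, wt]
  rfl

section level
variable (N : ℕ) [hN : NeZero N]

lemma zeta_prim : IsPrimitiveRoot (Complex.exp (2 * Real.pi * Complex.I / N)) N :=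
  Complex.isPrimitiveRoot_exp N hN.out

/-- the character -/
noncomputable def χN : Chr (ZMod N) where
  toFun k := Complex.exp (2 * Real.pi * Complex.I / N) ^ k.val
  zero := by rw [ZMod.val_zero, pow_zero]
  add a b := by
    rw [← pow_add, ZMod.val_add]
    exact (pow_eq_pow_mod _ (zeta_prim N).pow_eq_one).symm

lemma χN_pow (k : ZMod N) : (χN N).toFun k ^ N = 1 := by
  show (_ ^ k.val) ^ N = 1
  rw [← pow_mul, mul_comm k.val, pow_mul, (zeta_prim N).pow_eq_one, one_pow]

lemma χN_inj : Function.Injective (χN N).toFun := by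
  intro a b h
  exact ZMod.val_injective N ((zeta_prim N).pow_inj (ZMod.val_lt a) (ZMod.val_lt b) h)

lemma χN_surj {z : ℂ} (hz : z ^ N = 1) : ∃ k, (χN N).toFun k = z := by
  obtain ⟨i, hi, h⟩ := (zeta_prim N).eq_pow_of_pow_eq_one hz
  refine ⟨(i : ZMod N), ?_⟩
  show _ ^ (i : ZMod N).val = z
  rw [ZMod.val_natCast_of_lt hi]
  exact h

lemma lift_N (w : List (ℕ × ℂ)) (h : ∀ x ∈ w, 1 ≤ x.1 ∧ x.2 ^ N = 1) : ∃ w' : Wd (ZMod N), mp (χN N) w' = w ∧ PW w' := by
  induction w with
  | nil => exact ⟨[], rfl, fun a ha => absurd ha List.not_mem_nil⟩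
  | cons x w ih =>
    obtain ⟨w', h1, h2⟩ := ih fun y hy => h y (List.mem_cons_of_mem _ hy)
    obtain ⟨h3, h4⟩ := h x List.mem_cons_self
    obtain ⟨k, hk⟩ := χN_surj N h4
    refine ⟨(x.1, k) :: w', ?_, PW.cons h3 h2⟩
    rw [mp_cons, h1]
    simp only [hk]

lemma mp_N (w' : Wd (ZMod N)) (h : PW w') : ∀ x ∈ mp (χN N) w', 1 ≤ x.1 ∧ x.2 ^ N = 1 := by
  intro x hx
  obtain ⟨y, hy, rfl⟩ := List.mem_map.1 hx
  exact ⟨h y hy, χN_pow N _⟩

lemma head_N (w' : Wd (ZMod N)) : (mp (χN N) w').head? = some (1, 1) ↔ w'.head? = some (1, 0) := by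
  cases w' with
  | nil => simp [mp_nil]
  | cons x u =>
    rw [mp_cons, List.head?_cons, List.head?_cons, Option.some_inj, Option.some_inj, Prod.ext_iff, Prod.ext_iff]
    refine and_congr_right fun _ => ?_
    constructor
    · intro h
      refine χN_inj N ?_
      rw [(χN N).zero]
      exact h
    · intro h
      simp only [h]
      exact (χN N).zero

open Classical in
/-- admissible words of given weight -/
noncomputable def AF (n : ℕ) : Finset (Wd (ZMod N)) := (WF univ n).filter fun w => w.head? ≠ some (1, 0)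

lemma mem_AF (n : ℕ) (w : Wd (ZMod N)) : w ∈ AF N n ↔ wt w = n ∧ PW w ∧ w.head? ≠ some (1, 0) := by
  classical
  rw [AF, mem_filter, mem_WF]
  constructor
  · rintro ⟨⟨h1, h2, -⟩, h3⟩
    exact ⟨h1, h2, h3⟩
  · rintro ⟨h1, h2, h3⟩
    exact ⟨⟨h1, h2, fun a _ => mem_univ _⟩, h3⟩

lemma card_WN (n : ℕ) : (WF (univ : Finset (ZMod N)) (n + 1)).card = N * (N + 1) ^ n := by
  rw [card_WF, card_univ, ZMod.card]

lemma card_AF (n : ℕ) : (AF N n).card = aN N n := by
  classical
  cases n with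
  | zero =>
    have h : AF N 0 = {[]} := by
      ext w
      rw [mem_AF, mem_singleton]
      constructor
      · rintro ⟨h1, h2, -⟩
        rcases w with _ | ⟨y, u⟩
        · rfl
        · have := h2 y List.mem_cons_self
          rw [wt_cons] at h1
          omega
      · rintro rfl
        exact ⟨rfl, fun a ha => absurd ha List.not_mem_nil, by simp⟩
    rw [h, card_singleton, aN]
  | succ n =>
    have h1 : (WF (univ : Finset (ZMod N)) (n + 1)).filter (fun w => ¬ w.head? ≠ some (1, 0)) =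
        (WF (univ : Finset (ZMod N)) n).image fun u => (1, 0) :: u := by
      ext w
      rw [mem_filter, mem_image, mem_WF, not_not]
      constructor
      · rintro ⟨⟨h1, h2, h3⟩, h4⟩
        rcases w with _ | ⟨y, u⟩
        · simp at h4
        · rw [List.head?_cons, Option.some_inj] at h4
          subst h4
          refine ⟨u, (mem_WF _ _ _).2 ⟨?_, fun c hc => h2 c (List.mem_cons_of_mem _ hc),
            fun c hc => h3 c (List.mem_cons_of_mem _ hc)⟩, rfl⟩
          rw [wt_cons] at h1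
          simp only at h1
          omega
      · rintro ⟨u, hu, rfl⟩
        obtain ⟨g1, g2, g3⟩ := (mem_WF _ _ _).1 hu
        refine ⟨⟨?_, PW.cons le_rfl g2, fun a _ => mem_univ _⟩, rfl⟩
        rw [wt_cons]
        simp only
        omega
    have h2 := card_filter_add_card_filter_not (s := WF (univ : Finset (ZMod N)) (n + 1))
      (fun w => w.head? ≠ some (1, 0))
    rw [h1, card_image_of_injective _ (List.cons_injective), card_WN] at h2
    have h3 : (AF N (n + 1)).card = ((WF (univ : Finset (ZMod N)) (n + 1)).filter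
      fun w => w.head? ≠ some (1, 0)).card := rfl
    rw [← h3] at h2
    cases n with
    | zero =>
      have h4 : (WF (univ : Finset (ZMod N)) 0).card = 1 := by rw [WF, card_singleton]
      rw [h4, pow_zero, mul_one] at h2
      rw [aN]
      omega
    | succ n =>
      rw [card_WN] at h2
      rw [aN]
      have h4 : N * (N + 1) ^ (n + 1) = N ^ 2 * (N + 1) ^ n + N * (N + 1) ^ n := by ring
      omega

open Classical in
/-- the index set -/
noncomputable def IN (W : ℕ) : Finset (Px (ZMod N)) :=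
  (range (W + 1)).biUnion fun n => AF N n ×ˢ XF univ (W - n)

lemma mem_IN (W : ℕ) (i : Px (ZMod N)) : i ∈ IN N W ↔
    wt i.1 + wx i.2 = W ∧ PW i.1 ∧ i.1.head? ≠ some (1, 0) ∧ PX i.2 := by
  classical
  rw [IN, mem_biUnion]
  constructor
  · rintro ⟨n, hn, hi⟩
    rw [mem_product, mem_AF, mem_XF] at hi
    rw [mem_range] at hn
    obtain ⟨⟨h1, h2, h3⟩, h4, h5, -⟩ := hi
    exact ⟨by omega, h2, h3, h5⟩
  · rintro ⟨h1, h2, h3, h4⟩
    refine ⟨wt i.1, mem_range.2 (by omega), ?_⟩
    rw [mem_product, mem_AF, mem_XF]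
    exact ⟨⟨rfl, h2, h3⟩, by omega, h4, mem_univ _, fun a _ => mem_univ _⟩

lemma card_IN (W : ℕ) : (IN N W).card = ∑ n ∈ range (W + 1), N * (N + 1) ^ (W - n) * aN N n := by
  classical
  rw [IN, card_biUnion]
  · refine sum_congr rfl fun n _ => ?_
    rw [card_product, card_AF, card_XF, card_univ, ZMod.card, mul_comm]
  · intro n _ m _ hne
    rw [Function.onFun, Finset.disjoint_left]
    intro i hi hi'
    rw [mem_product, mem_AF] at hi hi'
    exact hne (hi.1.1.symm.trans hi'.1.1)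

lemma fam_N (W : ℕ) : Fam univ W (IN N W) where
  cl := {
    pos := fun i hi => by
      obtain ⟨-, h2, -, h4⟩ := (mem_IN N W i).1 hi
      exact ⟨h2, h4⟩
    cl := by
      rintro i hi j ⟨r, -, hr⟩ hw - hx
      obtain ⟨h1, h2, h3, h4⟩ := (mem_IN N W i).1 hi
      rw [mem_IN]
      refine ⟨by omega, fun a ha => h2 a (by rw [← hr]; exact List.mem_append_left _ ha), ?_, hx⟩
      intro h
      apply h3
      rw [← hr]
      cases hj : j.1 with
      | nil =>
        rw [hj] at h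
        simp at h
      | cons x u =>
        rw [hj] at h
        rw [List.cons_append]
        exact h }
  le := fun i hi => ((mem_IN N W i).1 hi).1
  front := fun _ _ _ _ => mem_univ _
  mid := fun _ _ => mem_univ _
  back := fun _ _ _ _ => mem_univ _

lemma adm_N (W : ℕ) : ∀ i ∈ IN N W, Am (mp (χN N) i.1) := by
  intro i hi
  obtain ⟨h1, h2, h3, h4⟩ := (mem_IN N W i).1 hi
  have h5 : ∀ x ∈ mp (χN N) i.1, 1 ≤ x.1 ∧ ‖x.2‖ = 1 := fun x hx => by
    obtain ⟨g1, g2⟩ := mp_N N i.1 h2 x hx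
    exact ⟨g1, Complex.norm_eq_one_of_pow_eq_one g2 hN.out⟩
  have h6 : (mp (χN N) i.1).head? ≠ some (1, 1) := fun h => h3 ((head_N N i.1).1 h)
  cases hw : mp (χN N) i.1 with
  | nil => trivial
  | cons x u =>
    rw [hw] at h5 h6
    refine ⟨fun g1 g2 => h6 ?_, h5⟩
    rw [List.head?_cons, Option.some_inj]
    exact Prod.ext g1 g2

lemma fam_iff_N (W s : ℕ) (hs : 2 ≤ s) (v : List (ℕ × ℂ)) :
    v ∈ LF N W (s + W) ↔ ∃ i : ↥(IN N W), wd (χN N) s i.1 = v := by
  constructor
  · rintro ⟨⟨h1, h2⟩, h3, x, hx, h4⟩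
    obtain ⟨p, u, rfl⟩ := List.append_of_mem hx
    obtain ⟨p', g1, g2⟩ := lift_N N p fun y hy => h1 y (List.mem_append_left _ hy)
    obtain ⟨u', g3, g4⟩ := lift_N N u fun y hy => h1 y (List.mem_append_right _ (List.mem_cons_of_mem _ hy))
    obtain ⟨k, hk⟩ := χN_surj N (h1 x hx).2
    subst g1 g3
    rw [List.map_append, List.sum_append, List.map_cons, List.sum_cons, wt_mp, wt_mp] at h3
    refine ⟨⟨(p', (k, x.1 - s, u')), (mem_IN N W _).2 ⟨?_, g2, ?_, g4⟩⟩, ?_⟩
    · rw [wx]
      simp only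
      omega
    · intro h
      apply h2
      have h5 := (head_N N p').2 h
      cases hp : mp (χN N) p' with
      | nil =>
        rw [hp] at h5
        simp at h5
      | cons y q =>
        rw [hp] at h5
        rw [List.cons_append]
        exact h5
    · rw [wd]
      simp only
      rw [hk, show s + (x.1 - s) = x.1 by omega]
  · rintro ⟨⟨i, hi⟩, rfl⟩
    obtain ⟨h1, h2, h3, h4⟩ := (mem_IN N W i).1 hi
    rw [wx] at h1
    refine ⟨⟨fun x hx => ?_, ?_⟩, ?_, (s + i.2.2.1, (χN N).toFun i.2.1), ?_, ?_⟩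
    · rw [wd, List.mem_append, List.mem_cons] at hx
      rcases hx with hx | rfl | hx
      · exact mp_N N _ h2 x hx
      · refine ⟨?_, χN_pow N _⟩
        show 1 ≤ s + _
        omega
      · exact mp_N N _ h4 x hx
    · rw [wd]
      cases hp : i.1 with
      | nil =>
        rw [mp_nil, List.nil_append, List.head?_cons]
        intro h
        rw [Option.some_inj, Prod.mk.injEq] at h
        omega
      | cons y q =>
        rw [hp] at h3
        rw [mp_cons, List.cons_append]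
        intro h
        apply h3
        rw [← head_N, mp_cons]
        exact h
    · rw [wd, List.map_append, List.sum_append, List.map_cons, List.sum_cons, wt_mp, wt_mp]
      simp only
      omega
    · rw [wd]
      exact List.mem_append_right _ List.mem_cons_self
    · show s + W ≤ s + _ + W
      omega

lemma SZ_N (W n : ℕ) (hn : n ≤ W) (x : Xx (ZMod N)) (hx : x ∈ XF univ (W - n)) :
    SZ (IN N W) (fun p => li (mp (χN N) p)) x = Zs N n := by
  obtain ⟨hx1, hx2, -⟩ := (mem_XF _ _ _).1 hx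
  rw [SZ, Zs]
  congr 1
  ext z
  constructor
  · rintro ⟨p, hp, rfl⟩
    obtain ⟨h1, h2, h3, h4⟩ := (mem_IN N W _).1 hp
    simp only at h1 h2 h3
    refine ⟨mp (χN N) p, ⟨⟨mp_N N p h2, fun h => h3 ((head_N N p).1 h)⟩, ?_⟩, rfl⟩
    rw [wt_mp]
    omega
  · rintro ⟨w, ⟨⟨h1, h2⟩, h3⟩, rfl⟩
    obtain ⟨p, hp, hp'⟩ := lift_N N w h1
    subst hp
    rw [wt_mp] at h3
    refine ⟨p, (mem_IN N W _).2 ⟨?_, hp', fun h => h2 ((head_N N p).2 h), hx2⟩, rfl⟩
    simp only
    omega

lemma sum_N (W : ℕ) : ∑ x ∈ XI (IN N W), Module.finrank ℚ (SZ (IN N W) (fun p => li (mp (χN N) p)) x) =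
    ∑ n ∈ range (W + 1), N * (N + 1) ^ (W - n) * Module.finrank ℚ (Zs N n) := by
  classical
  have hX : ∀ x ∈ XI (IN N W), wx x ≤ W ∧ x ∈ XF (univ : Finset (ZMod N)) (wx x) := by
    intro x hx
    obtain ⟨i, hi, rfl⟩ := (mem_XI _).1 hx
    obtain ⟨h1, h2, h3, h4⟩ := (mem_IN N W i).1 hi
    exact ⟨by omega, (mem_XF _ _ _).2 ⟨rfl, h4, mem_univ _, fun _ _ => mem_univ _⟩⟩
  rw [← sum_fiberwise_of_maps_to (s := XI (IN N W)) (t := range (W + 1)) (g := fun x => W - wx x)
    (fun x hx => mem_range.2 (by omega))]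
  refine sum_congr rfl fun n hn => ?_
  rw [mem_range] at hn
  have h1 : ∀ x ∈ XF (univ : Finset (ZMod N)) (W - n),
      Module.finrank ℚ (SZ (IN N W) (fun p => li (mp (χN N) p)) x) = Module.finrank ℚ (Zs N n) :=
    fun x hx => by rw [SZ_N N W n (by omega) x hx]
  have h2 : ∑ x ∈ XI (IN N W) with W - wx x = n, Module.finrank ℚ (SZ (IN N W) (fun p => li (mp (χN N) p)) x) =
      ∑ x ∈ XF (univ : Finset (ZMod N)) (W - n),
        Module.finrank ℚ (SZ (IN N W) (fun p => li (mp (χN N) p)) x) := by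
    refine sum_subset (fun x hx => ?_) fun x hx hx' => ?_
    · rw [mem_filter] at hx
      obtain ⟨h3, h4⟩ := hX x hx.1
      rwa [show W - n = wx x by omega]
    · refine SZ_out _ _ fun h3 => hx' ?_
      rw [mem_filter]
      have h4 := ((mem_XF _ _ _).1 hx).1
      exact ⟨h3, by omega⟩
  rw [h2, sum_congr rfl h1, sum_const, card_XF, card_univ, ZMod.card, smul_eq_mul]

/-- **the relations of level `N`** -/
theorem level (W : ℕ) (ε : ℝ) (hε : 0 < ε) :
    ∃ δ0 : ℝ, 0 < δ0 ∧ ∀ δ : ℝ, 0 < δ → δ ≤ δ0 → ∃ M0 : ℕ, ∀ M : ℕ, M0 ≤ M →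
      (({k : ℕ | k ≤ M ∧ ¬ (Module.finrank ℚ (relF (LF N W k) (Real.exp (δ * M))) +
        ∑ n ∈ range (W + 1), N * (N + 1) ^ (W - n) * Module.finrank ℚ (Zs N n) =
          ∑ n ∈ range (W + 1), N * (N + 1) ^ (W - n) * aN N n)}.ncard : ℕ) : ℝ) ≤ ε * M := by
  have h := mainF (χN N) N (Nat.one_le_iff_ne_zero.2 hN.out) (χN_pow N) (K := univ)
    (χN_inj N).injOn (fam_N N W) (adm_N N W) (LF N W) (fun s hs v => fam_iff_N N W s hs v) ε hε
  rw [sum_N, card_IN] at h
  exact h

end level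

end Pool.Agent.H43L
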