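import Pool.Agent.H43L.Vl
import Pool.Agent.H43L.Lv
import Pool.Agent.H43L.Cf

/-!
# Finiteness, and the dimensions in weights one and two
-/

set_option autoImplicit false

namespace Pool.Agent.H43L

open Finset Filter Topology
open Pool.Agent.X90.DM (trunc li)

/-! ### finiteness -/

lemma fin_adm (N : ℕ) (hN : 1 ≤ N) (n : ℕ) : {w : List (ℕ × ℂ) | Adm N w ∧ (w.map Prod.fst).sum = n}.Finite := by
  classical
  have : NeZero N := ⟨by omega⟩
  refine ((WF (univ : Finset (ZMod N)) n).finite_toSet.image (mp (χN N))).subset ?_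
  rintro w ⟨⟨h1, -⟩, h2⟩
  obtain ⟨w', rfl, h3⟩ := lift_N N w h1
  rw [wt_mp] at h2
  exact ⟨w', mem_coe.2 ((mem_WF _ _ _).2 ⟨h2, h3, fun _ _ => mem_univ _⟩), rfl⟩

lemma fin_one (ω : ℂ) (n : ℕ) : {w : List (ℕ × ℂ) | One ω w ∧ (w.map Prod.fst).sum = n}.Finite := by
  classical
  refine ((WF ({0, 1} : Finset ℕ) n).finite_toSet.image (mp (χC ω))).subset ?_
  rintro w ⟨h1, h2⟩
  obtain ⟨w', rfl, h3, h4⟩ := (one_iff ω w).1 h1
  rw [wtC] at h2
  exact ⟨w', mem_coe.2 ((mem_WF _ _ _).2 ⟨h2, h3, LK1_dg (by omega)⟩), rfl⟩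

lemma fin_LF (N : ℕ) (hN : 1 ≤ N) (W k : ℕ) : (LF N W k).Finite :=
  (fin_adm N hN k).subset fun _ hw => ⟨hw.1, hw.2.1⟩

lemma fin_CFm (ω : ℂ) (W k : ℕ) : (CFm ω W k).Finite :=
  (fin_one ω k).subset fun _ hw => ⟨hw.1, hw.2.1⟩

lemma fin_rel {F : Set (List (ℕ × ℂ))} (hF : F.Finite) (H : ℝ) : Module.Finite ℚ (relF F H) := by
  have h1 : relF F H ≤ Finsupp.supported ℚ ℚ F := by
    rw [relF, Submodule.span_le]
    rintro c ⟨hc, -⟩
    rw [SetLike.mem_coe, Finsupp.mem_supported]
    exact fun w hw => hc w hw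
  have : Finite F := hF
  have : Module.Finite ℚ (Finsupp.supported ℚ ℚ F) :=
    Module.Finite.equiv (Finsupp.supportedEquivFinsupp F).symm
  exact Module.Finite.of_injective (Submodule.inclusion h1) (Submodule.inclusion_injective h1)

lemma fin_Zs (N : ℕ) (hN : 1 ≤ N) (n : ℕ) : Module.Finite ℚ (Zs N n) :=
  Module.Finite.span_of_finite ℚ ((fin_adm N hN n).image _)

lemma fin_Cs (ω : ℂ) (n : ℕ) : Module.Finite ℚ (Cs ω n) :=
  Module.Finite.span_of_finite ℚ (((fin_one ω n).subset fun _ hw => ⟨Clw.one ω hw.1, hw.2⟩).image _)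

/-- the number of admissible words -/
lemma ncard_adm (N : ℕ) (hN : 1 ≤ N) (n : ℕ) :
    {w : List (ℕ × ℂ) | Adm N w ∧ (w.map Prod.fst).sum = n}.ncard = aN N n := by
  have : NeZero N := ⟨by omega⟩
  have h1 : {w : List (ℕ × ℂ) | Adm N w ∧ (w.map Prod.fst).sum = n} = mp (χN N) '' (AF N n : Set (Wd (ZMod N))) := by
    ext w
    constructor
    · rintro ⟨⟨h1, h2⟩, h3⟩
      obtain ⟨w', rfl, h4⟩ := lift_N N w h1
      rw [wt_mp] at h3
      exact ⟨w', mem_coe.2 ((mem_AF N n w').2 ⟨h3, h4, fun h => h2 ((head_N N w').2 h)⟩), rfl⟩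
    · rintro ⟨w', hw, rfl⟩
      obtain ⟨h1, h2, h3⟩ := (mem_AF N n w').1 (mem_coe.1 hw)
      exact ⟨⟨mp_N N w' h2, fun h => h3 ((head_N N w').1 h)⟩, by rw [wt_mp]; exact h1⟩
  have h2 : Function.Injective (mp (χN N)) := fun u v h =>
    mp_inj (χN N) (K := univ) (χN_inj N).injOn u v (fun _ _ => mem_univ _) (fun _ _ => mem_univ _) h
  rw [h1, Set.ncard_image_of_injective _ h2, Set.ncard_coe_finset, card_AF]

/-! ### the words of weight one and two -/

lemma Un.sum_zero {u : List (ℕ × ℂ)} (h : Un u) (h0 : (u.map Prod.fst).sum = 0) : u = [] := by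
  cases u with
  | nil => rfl
  | cons x u =>
    have := (h x List.mem_cons_self).1
    rw [List.map_cons, List.sum_cons] at h0
    omega

lemma Un.sum_one {u : List (ℕ × ℂ)} (h : Un u) (h0 : (u.map Prod.fst).sum = 1) : u = [(1, 1)] := by
  cases u with
  | nil => simp at h0
  | cons x u =>
    have h1 := h x List.mem_cons_self
    rw [List.map_cons, List.sum_cons] at h0
    have h2 : u = [] := Un.sum_zero (fun y hy => h y (List.mem_cons_of_mem _ hy)) (by omega)
    subst h2
    simp only [List.map_nil, List.sum_nil] at h0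
    rw [show x = (1, 1) from Prod.ext (by simp only; omega) h1.2]

lemma un_nil : Un [] := fun _ hx => absurd hx List.not_mem_nil

lemma un_one : Un [(1, 1)] := by
  intro x hx
  rw [List.mem_singleton] at hx
  subst hx
  exact ⟨le_rfl, rfl⟩

lemma words_C1 (ω : ℂ) : {w | Clw ω w ∧ (w.map Prod.fst).sum = 1} = {[(1, ω)]} := by
  ext w
  rw [Set.mem_singleton_iff]
  constructor
  · rintro ⟨⟨a, u, rfl, h1, h2⟩, h3⟩
    rw [List.map_cons, List.sum_cons] at h3
    simp only at h3
    have h4 : u = [] := h2.sum_zero (by omega)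
    subst h4
    simp only [List.map_nil, List.sum_nil] at h3
    rw [show a = 1 by omega]
  · rintro rfl
    exact ⟨⟨1, [], rfl, le_rfl, un_nil⟩, by simp⟩

lemma words_C2 (ω : ℂ) : {w | Clw ω w ∧ (w.map Prod.fst).sum = 2} = {[(2, ω)], [(1, ω), (1, 1)]} := by
  ext w
  rw [Set.mem_insert_iff, Set.mem_singleton_iff]
  constructor
  · rintro ⟨⟨a, u, rfl, h1, h2⟩, h3⟩
    rw [List.map_cons, List.sum_cons] at h3
    simp only at h3
    rcases Nat.lt_or_ge a 2 with h4 | h4
    · right
      have h5 : u = [(1, 1)] := h2.sum_one (by omega)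
      rw [h5, show a = 1 by omega]
    · left
      have h5 : u = [] := h2.sum_zero (by omega)
      subst h5
      simp only [List.map_nil, List.sum_nil] at h3
      rw [show a = 2 by omega]
  · rintro (rfl | rfl)
    · exact ⟨⟨2, [], rfl, by norm_num, un_nil⟩, by simp⟩
    · exact ⟨⟨1, _, rfl, le_rfl, un_one⟩, by simp⟩

lemma finrank_pair {x y : ℂ} (h : ∀ a b : ℚ, (a : ℂ) * x + (b : ℂ) * y = 0 → a = 0 ∧ b = 0) :
    Module.finrank ℚ (Submodule.span ℚ ({x, y} : Set ℂ)) = 2 := by
  have h1 : LinearIndependent ℚ ![x, y] := by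
    rw [LinearIndependent.pair_iff]
    intro a b hab
    refine h a b ?_
    rw [← hab, Rat.smul_def, Rat.smul_def]
  have h2 := finrank_span_eq_card h1
  rw [Matrix.range_cons, Matrix.range_cons, Matrix.range_empty, Set.union_empty, Fintype.card_fin] at h2
  exact h2

lemma dim_C1 : Module.finrank ℚ (Cs om 1) = 1 := by
  rw [Cs, words_C1, Set.image_singleton]
  refine finrank_span_singleton ?_
  rw [li_om_one]
  refine mul_ne_zero ?_ Complex.I_ne_zero
  exact_mod_cast (div_pos Real.pi_pos (by norm_num : (0 : ℝ) < 3)).ne'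

lemma dim_C2 : Module.finrank ℚ (Cs om 2) = 2 := by
  rw [Cs, words_C2, Set.image_pair]
  refine finrank_pair fun a b h => ?_
  have h1 := congrArg Complex.im h
  have h2 : (a : ℂ) = ((a : ℝ) : ℂ) := by push_cast; rfl
  have h3 : (b : ℂ) = ((b : ℝ) : ℂ) := by push_cast; rfl
  rw [li_om_two, h2, h3, Complex.add_im, Complex.im_ofReal_mul, ← Complex.ofReal_mul, Complex.ofReal_im,
    add_zero, Complex.zero_im] at h1
  have h4 : (a : ℝ) = 0 := (mul_eq_zero.1 h1).resolve_right li_om_dilog.ne'
  have h5 : a = 0 := by exact_mod_cast h4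
  subst h5
  refine ⟨rfl, ?_⟩
  rw [Rat.cast_zero, zero_mul, zero_add, li_om_two] at h
  have h6 : ((-(Real.pi ^ 2 / 18) : ℝ) : ℂ) ≠ 0 := by
    have : 0 < Real.pi ^ 2 / 18 := by positivity
    exact_mod_cast (neg_ne_zero.2 this.ne')
  exact_mod_cast (mul_eq_zero.1 h).resolve_right h6

lemma sq_one_cases {z : ℂ} (h : z ^ 2 = 1) : z = 1 ∨ z = -1 := by
  rcases mul_eq_zero.1 (show (z - 1) * (z + 1) = 0 by linear_combination h) with h | h
  · exact Or.inl (sub_eq_zero.1 h)
  · exact Or.inr (eq_neg_of_add_eq_zero_left h)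

lemma dim_Z0 (N : ℕ) : Module.finrank ℚ (Zs N 0) = 1 := by
  have h1 : {w : List (ℕ × ℂ) | Adm N w ∧ (w.map Prod.fst).sum = 0} = {[]} := by
    ext w
    rw [Set.mem_singleton_iff]
    constructor
    · rintro ⟨⟨h1, -⟩, h2⟩
      cases w with
      | nil => rfl
      | cons x u =>
        have := (h1 x List.mem_cons_self).1
        rw [List.map_cons, List.sum_cons] at h2
        omega
    · rintro rfl
      exact ⟨⟨fun x hx => absurd hx List.not_mem_nil, by simp⟩, by simp⟩
  have h2 : li [] = 1 := li_of tendsto_const_nhds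
  rw [Zs, h1, Set.image_singleton, h2]
  exact finrank_span_singleton one_ne_zero

lemma words_Z1 : {w : List (ℕ × ℂ) | Adm 2 w ∧ (w.map Prod.fst).sum = 1} = {[(1, -1)]} := by
  ext w
  rw [Set.mem_singleton_iff]
  constructor
  · rintro ⟨⟨h1, h2⟩, h3⟩
    cases w with
    | nil => simp at h3
    | cons x u =>
      obtain ⟨g1, g2⟩ := h1 x List.mem_cons_self
      rw [List.map_cons, List.sum_cons] at h3
      cases u with
      | cons y v =>
        have := (h1 y (by simp)).1
        rw [List.map_cons, List.sum_cons] at h3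
        omega
      | nil =>
        simp only [List.map_nil, List.sum_nil] at h3
        obtain ⟨a, z⟩ := x
        simp only at g1 g2 h3
        have ha : a = 1 := by omega
        subst ha
        rcases sq_one_cases g2 with rfl | rfl
        · exact absurd rfl h2
        · rfl
  · rintro rfl
    refine ⟨⟨fun x hx => ?_, fun h => ?_⟩, by simp⟩
    · rw [List.mem_singleton] at hx
      subst hx
      exact ⟨le_rfl, by norm_num⟩
    · rw [List.head?_cons, Option.some_inj, Prod.mk.injEq] at h
      exact am_m1.2 h.2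

lemma dim_Z1 : Module.finrank ℚ (Zs 2 1) = 1 := by
  rw [Zs, words_Z1, Set.image_singleton]
  refine finrank_span_singleton ?_
  rw [li_alt_one]
  exact_mod_cast (neg_ne_zero.2 (Real.log_pos (by norm_num : (1 : ℝ) < 2)).ne')

lemma words_Z2 : {w : List (ℕ × ℂ) | Adm 2 w ∧ (w.map Prod.fst).sum = 2} =
    {[(2, 1)], [(2, -1)], [(1, -1), (1, 1)], [(1, -1), (1, -1)]} := by
  ext w
  simp only [Set.mem_insert_iff, Set.mem_singleton_iff]
  constructor
  · rintro ⟨⟨h1, h2⟩, h3⟩
    cases w with
    | nil => simp at h3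
    | cons x u =>
      obtain ⟨g1, g2⟩ := h1 x List.mem_cons_self
      rw [List.map_cons, List.sum_cons] at h3
      obtain ⟨a, z⟩ := x
      simp only at g1 g2 h3
      cases u with
      | nil =>
        simp only [List.map_nil, List.sum_nil] at h3
        have ha : a = 2 := by omega
        subst ha
        rcases sq_one_cases g2 with rfl | rfl
        · exact Or.inl rfl
        · exact Or.inr (Or.inl rfl)
      | cons y v =>
        obtain ⟨g3, g4⟩ := h1 y (by simp)
        rw [List.map_cons, List.sum_cons] at h3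
        cases v with
        | cons t v =>
          have := (h1 t (by simp)).1
          rw [List.map_cons, List.sum_cons] at h3
          omega
        | nil =>
          simp only [List.map_nil, List.sum_nil] at h3
          obtain ⟨b, z'⟩ := y
          simp only at g3 g4 h3
          have ha : a = 1 := by omega
          have hb : b = 1 := by omega
          subst ha hb
          rcases sq_one_cases g2 with rfl | rfl
          · exact absurd rfl h2
          · rcases sq_one_cases g4 with rfl | rfl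
            · exact Or.inr (Or.inr (Or.inl rfl))
            · exact Or.inr (Or.inr (Or.inr rfl))
  · have hne : ((1 : ℕ), (-1 : ℂ)) ≠ (1, 1) := fun h => by
      rw [Prod.mk.injEq] at h
      exact am_m1.2 h.2
    rintro (rfl | rfl | rfl | rfl)
    · exact ⟨⟨by simp, by simp⟩, by simp⟩
    · exact ⟨⟨by simp, by simp⟩, by simp⟩
    · exact ⟨⟨by simp, by rw [List.head?_cons, Ne, Option.some_inj]; exact hne⟩, by simp⟩
    · exact ⟨⟨by simp, by rw [List.head?_cons, Ne, Option.some_inj]; exact hne⟩, by simp⟩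

lemma dim_Z2 : Module.finrank ℚ (Zs 2 2) = 2 := by
  have h1 : Zs 2 2 = Submodule.span ℚ ({((Real.pi ^ 2 : ℝ) : ℂ), ((Real.log 2 ^ 2 : ℝ) : ℂ)} : Set ℂ) := by
    rw [Zs, words_Z2]
    apply le_antisymm
    · rw [Submodule.span_le]
      have k1 : ((Real.pi ^ 2 : ℝ) : ℂ) ∈ Submodule.span ℚ
          ({((Real.pi ^ 2 : ℝ) : ℂ), ((Real.log 2 ^ 2 : ℝ) : ℂ)} : Set ℂ) := Submodule.subset_span (by simp)
      have k2 : ((Real.log 2 ^ 2 : ℝ) : ℂ) ∈ Submodule.span ℚ
          ({((Real.pi ^ 2 : ℝ) : ℂ), ((Real.log 2 ^ 2 : ℝ) : ℂ)} : Set ℂ) := Submodule.subset_span (by simp)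
      rintro _ ⟨w, hw, rfl⟩
      simp only [Set.mem_insert_iff, Set.mem_singleton_iff] at hw
      rw [SetLike.mem_coe]
      rcases hw with rfl | rfl | rfl | rfl
      · rw [li_zeta]
        have := Submodule.smul_mem _ (1 / 6 : ℚ) k1
        rw [Rat.smul_def] at this
        convert this using 1
        push_cast
        ring
      · rw [li_alt_dilog]
        have := Submodule.smul_mem _ (-1 / 12 : ℚ) k1
        rw [Rat.smul_def] at this
        convert this using 1
        push_cast
        ring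
      · rw [li_alt_two]
        have := Submodule.smul_mem _ (1 / 2 : ℚ) k2
        rw [Rat.smul_def] at this
        convert this using 1
        push_cast
        ring
      · rw [li_alt_pair]
        have := Submodule.add_mem _ (Submodule.smul_mem _ (1 / 2 : ℚ) k2) (Submodule.smul_mem _ (-1 / 12 : ℚ) k1)
        rw [Rat.smul_def, Rat.smul_def] at this
        convert this using 1
        push_cast
        ring
    · rw [Submodule.span_le]
      rintro _ hz
      simp only [Set.mem_insert_iff, Set.mem_singleton_iff] at hz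
      rw [SetLike.mem_coe]
      rcases hz with rfl | rfl
      · have k1 : li [(2, 1)] ∈ Submodule.span ℚ (li '' {[(2, 1)], [(2, -1)], [(1, -1), (1, 1)], [(1, -1), (1, -1)]}) :=
          Submodule.subset_span ⟨_, by simp, rfl⟩
        have := Submodule.smul_mem _ (6 : ℚ) k1
        rw [li_zeta, Rat.smul_def] at this
        convert this using 1
        push_cast
        ring
      · have k1 : li [(1, -1), (1, 1)] ∈ Submodule.span ℚ (li '' {[(2, 1)], [(2, -1)], [(1, -1), (1, 1)], [(1, -1), (1, -1)]}) :=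
          Submodule.subset_span ⟨_, by simp, rfl⟩
        have := Submodule.smul_mem _ (2 : ℚ) k1
        rw [li_alt_two, Rat.smul_def] at this
        convert this using 1
        push_cast
        ring
  rw [h1]
  refine finrank_pair fun a b h => ?_
  refine pi_log ?_
  have h2 : (((a : ℝ) * Real.pi ^ 2 + b * Real.log 2 ^ 2 : ℝ) : ℂ) = 0 := by
    rw [← h]
    push_cast
    ring
  exact_mod_cast h2

end Pool.Agent.H43L
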