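import Pool.Agent.X90.DM.Wrd

/-!
# Products of twisted nested sums and the tails of the sums
-/

set_option autoImplicit false

namespace Pool.Agent.H43L

open Finset Filter
open Pool.Agent.X90.DM (trunc R R_snoc R_zero)

/-! ### words -/

/-- words with exponents in `G` -/
abbrev Wd (G : Type) : Type := List (ℕ × G)

section
variable {G : Type}

/-- the weight -/
def wt (w : Wd G) : ℕ := (w.map Prod.fst).sum

/-- the degree -/
def dg [AddCommMonoid G] (w : Wd G) : G := (w.map Prod.snd).sum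

/-- positive arguments -/
def PW (w : Wd G) : Prop := ∀ a ∈ w, 1 ≤ a.1

lemma wt_nil : wt ([] : Wd G) = 0 := rfl
lemma dg_nil [AddCommMonoid G] : dg ([] : Wd G) = 0 := rfl
lemma wt_cons (x : ℕ × G) (w : Wd G) : wt (x :: w) = x.1 + wt w := by rw [wt, wt, List.map_cons, List.sum_cons]
lemma dg_cons [AddCommMonoid G] (x : ℕ × G) (w : Wd G) : dg (x :: w) = x.2 + dg w := by rw [dg, dg, List.map_cons, List.sum_cons]
lemma wt_append (v w : Wd G) : wt (v ++ w) = wt v + wt w := by rw [wt, wt, wt, List.map_append, List.sum_append]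
lemma dg_append [AddCommMonoid G] (v w : Wd G) : dg (v ++ w) = dg v + dg w := by rw [dg, dg, dg, List.map_append, List.sum_append]

lemma PW.cons {x : ℕ × G} {w : Wd G} (hx : 1 ≤ x.1) (hw : PW w) : PW (x :: w) := by
  intro a ha
  rcases List.mem_cons.1 ha with rfl | ha
  · exact hx
  · exact hw a ha

lemma PW.tail {x : ℕ × G} {w : Wd G} (h : PW (x :: w)) : PW w := fun a ha => h a (List.mem_cons_of_mem _ ha)

lemma PW.head {x : ℕ × G} {w : Wd G} (h : PW (x :: w)) : 1 ≤ x.1 := h x List.mem_cons_self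

end

/-- a character -/
structure Chr (G : Type) [AddCommMonoid G] where
  toFun : G → ℂ
  zero : toFun 0 = 1
  add : ∀ a b, toFun (a + b) = toFun a * toFun b

variable {G : Type} [AddCommMonoid G] (χ : Chr G)

/-- the list of complex numbers -/
def mp (w : Wd G) : List (ℕ × ℂ) := w.map fun a => (a.1, χ.toFun a.2)

lemma mp_nil : mp χ [] = [] := rfl
lemma mp_cons (x : ℕ × G) (w : Wd G) : mp χ (x :: w) = (x.1, χ.toFun x.2) :: mp χ w := rfl
lemma mp_append (v w : Wd G) : mp χ (v ++ w) = mp χ v ++ mp χ w := List.map_append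

/-- the summation operator -/
noncomputable def Lam (a : ℕ) (z : ℂ) : (ℕ → ℂ) →ₗ[ℚ] (ℕ → ℂ) where
  toFun f m := ∑ i ∈ range m, z ^ (i + 1) / ((i + 1 : ℕ) : ℂ) ^ a * f i
  map_add' f g := by
    funext m
    simp only [Pi.add_apply, mul_add, sum_add_distrib]
  map_smul' c f := by
    funext m
    simp only [Pi.smul_apply, RingHom.id_apply, Algebra.smul_def, mul_sum]
    exact sum_congr rfl fun i _ => by ring

lemma Lam_apply (a : ℕ) (z : ℂ) (f : ℕ → ℂ) (m : ℕ) :
    Lam a z f m = ∑ i ∈ range m, z ^ (i + 1) / ((i + 1 : ℕ) : ℂ) ^ a * f i := rfl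

lemma Lam_mul (a b : ℕ) (z z' : ℂ) (f g : ℕ → ℂ) :
    Lam a z f * Lam b z' g = Lam a z (f * Lam b z' g) + Lam b z' (g * Lam a z f) +
      Lam (a + b) (z * z') (f * g) := by
  funext m
  simp only [Pi.mul_apply, Pi.add_apply]
  induction m with
  | zero => simp [Lam_apply]
  | succ m ih =>
    have hs : ∀ (a : ℕ) (z : ℂ) (f : ℕ → ℂ), Lam a z f (m + 1) = Lam a z f m +
        z ^ (m + 1) / ((m + 1 : ℕ) : ℂ) ^ a * f m := fun a z f => by
      rw [Lam_apply, Lam_apply, sum_range_succ]
    rw [hs a z f, hs b z' g, hs a z, hs b z', hs (a + b)]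
    simp only [Pi.mul_apply]
    have hk : (z * z') ^ (m + 1) / ((m + 1 : ℕ) : ℂ) ^ (a + b) =
        z ^ (m + 1) / ((m + 1 : ℕ) : ℂ) ^ a * (z' ^ (m + 1) / ((m + 1 : ℕ) : ℂ) ^ b) := by
      rw [mul_pow, pow_add ((m + 1 : ℕ) : ℂ), mul_div_mul_comm]
    rw [hk]
    linear_combination ih

/-- the truncated sum of a word at `m + 1` -/
noncomputable def tf (w : Wd G) (m : ℕ) : ℂ := trunc (mp χ w) (m + 1)

lemma tf_nil : tf χ [] = 1 := rfl

lemma tf_cons (x : ℕ × G) (u : Wd G) : tf χ (x :: u) = Lam x.1 (χ.toFun x.2) (tf χ u) := by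
  funext m
  rw [tf, mp_cons, trunc, Lam_apply, sum_Ico_eq_sum_range, Nat.add_sub_cancel]
  refine sum_congr rfl fun i _ => ?_
  rw [add_comm 1 i]
  rfl

/-- the span of the truncated sums of given weight and degree -/
noncomputable def Hs (n : ℕ) (K : G) : Submodule ℚ (ℕ → ℂ) :=
  Submodule.span ℚ (tf χ '' {w | PW w ∧ wt w = n ∧ dg w = K})

lemma tf_mem {w : Wd G} (hw : PW w) {n : ℕ} {K : G} (hn : wt w = n) (hK : dg w = K) : tf χ w ∈ Hs χ n K :=
  Submodule.subset_span ⟨w, ⟨hw, hn, hK⟩, rfl⟩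

lemma Lam_mem {f : ℕ → ℂ} {n : ℕ} {K : G} (hf : f ∈ Hs χ n K) (x : ℕ × G) (hx : 1 ≤ x.1) {n' : ℕ} {K' : G}
    (hn : x.1 + n = n') (hK : x.2 + K = K') : Lam x.1 (χ.toFun x.2) f ∈ Hs χ n' K' := by
  subst hn hK
  have h : (Hs χ n K).map (Lam x.1 (χ.toFun x.2)) ≤ Hs χ (x.1 + n) (x.2 + K) := by
    rw [Hs, Submodule.map_span, Submodule.span_le]
    rintro _ ⟨_, ⟨w, ⟨h1, h2, h3⟩, rfl⟩, rfl⟩
    rw [SetLike.mem_coe, ← tf_cons]
    exact tf_mem χ (h1.cons hx) (by rw [wt_cons, h2]) (by rw [dg_cons, h3])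
  exact h ⟨f, hf, rfl⟩

lemma tf_mul_aux (n : ℕ) : ∀ u v : Wd G, u.length + v.length ≤ n → PW u → PW v →
    tf χ u * tf χ v ∈ Hs χ (wt u + wt v) (dg u + dg v) := by
  induction n with
  | zero =>
    intro u v h _ _
    have h1 : u = [] := List.eq_nil_of_length_eq_zero (by omega)
    have h2 : v = [] := List.eq_nil_of_length_eq_zero (by omega)
    subst h1 h2
    rw [tf_nil, one_mul]
    exact tf_mem χ (w := []) (fun a ha => absurd ha List.not_mem_nil) (by simp [wt_nil]) (by simp [dg_nil])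
  | succ n ih =>
    intro u v h hu hv
    cases u with
    | nil =>
      rw [tf_nil, one_mul, wt_nil, dg_nil, zero_add, zero_add]
      exact tf_mem χ hv rfl rfl
    | cons x u =>
      cases v with
      | nil =>
        rw [tf_nil, mul_one, wt_nil, dg_nil, add_zero, add_zero]
        exact tf_mem χ hu rfl rfl
      | cons y v =>
        rw [List.length_cons, List.length_cons] at h
        rw [tf_cons, tf_cons, Lam_mul, ← tf_cons, ← tf_cons]
        have h1 := ih u (y :: v) (by rw [List.length_cons]; omega) hu.tail hv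
        have h2 := ih v (x :: u) (by rw [List.length_cons]; omega) hv.tail hu
        have h3 := ih u v (by omega) hu.tail hv.tail
        rw [← χ.add]
        refine Submodule.add_mem _ (Submodule.add_mem _ ?_ ?_) ?_
        · refine Lam_mem χ h1 x hu.head ?_ ?_
          · simp only [wt_cons]
            omega
          · simp only [dg_cons]
            abel
        · refine Lam_mem χ h2 y hv.head ?_ ?_
          · simp only [wt_cons]
            omega
          · simp only [dg_cons]
            abel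
        · refine Lam_mem χ h3 (x.1 + y.1, x.2 + y.2) ?_ ?_ ?_
          · have := hu.head
            show 1 ≤ x.1 + y.1
            omega
          · simp only [wt_cons]
            omega
          · simp only [dg_cons]
            abel

lemma tf_mul {u v : Wd G} (hu : PW u) (hv : PW v) : ∃ l : Wd G →₀ ℚ,
    (∀ w ∈ l.support, PW w ∧ wt w = wt u + wt v ∧ dg w = dg u + dg v) ∧
    ∀ m, 1 ≤ m → trunc (mp χ u) m * trunc (mp χ v) m = l.sum fun w c => (c : ℂ) * trunc (mp χ w) m := by
  have h := tf_mul_aux χ _ u v le_rfl hu hv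
  rw [Hs, Finsupp.mem_span_image_iff_linearCombination] at h
  obtain ⟨l, hl1, hl2⟩ := h
  refine ⟨l, fun w hw => (Finsupp.mem_supported ℚ _).1 hl1 hw, fun m hm => ?_⟩
  have h1 := congrFun hl2 (m - 1)
  rw [Finsupp.linearCombination_apply, Finsupp.sum, Finset.sum_apply] at h1
  simp only [Pi.smul_apply, Pi.mul_apply, tf, Nat.sub_add_cancel hm, Algebra.smul_def] at h1
  rw [← h1, Finsupp.sum]
  exact sum_congr rfl fun w _ => by rw [eq_ratCast]

/-! ### the functions with one more factor -/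

/-- the indices of the functions `χ(k)^m / m^b * trunc w m` -/
abbrev Xx (G : Type) : Type := G × ℕ × Wd G

/-- weight, degree, positivity -/
def wx (x : Xx G) : ℕ := x.2.1 + wt x.2.2
def dx (x : Xx G) : G := x.1 + dg x.2.2
def PX (x : Xx G) : Prop := PW x.2.2

/-- the functions -/
noncomputable def ex (x : Xx G) (m : ℕ) : ℂ := χ.toFun x.1 ^ m / (m : ℂ) ^ x.2.1 * trunc (mp χ x.2.2) m

lemma ex_mul {x y : Xx G} (hx : PX x) (hy : PX y) : ∃ l : Xx G →₀ ℚ,
    (∀ w ∈ l.support, PX w ∧ wx w = wx x + wx y ∧ dx w = dx x + dx y) ∧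
    ∀ m, 1 ≤ m → ex χ x m * ex χ y m = l.sum fun w c => (c : ℂ) * ex χ w m := by
  classical
  obtain ⟨l, h1, h2⟩ := tf_mul χ hx hy
  have hinj : Function.Injective fun w : Wd G => ((x.1 + y.1, x.2.1 + y.2.1, w) : Xx G) := by
    intro w w' h
    exact congrArg (fun x : Xx G => x.2.2) h
  refine ⟨l.mapDomain fun w => (x.1 + y.1, x.2.1 + y.2.1, w), fun w hw => ?_, fun m hm => ?_⟩
  · have h3 := Finsupp.mapDomain_support hw
    rw [mem_image] at h3
    obtain ⟨v, hv, rfl⟩ := h3
    obtain ⟨g1, g2, g3⟩ := h1 v hv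
    refine ⟨g1, ?_, ?_⟩
    · simp only [wx]
      omega
    · simp only [dx, g3]
      abel
  · rw [Finsupp.sum_mapDomain_index_inj hinj]
    rw [ex, ex]
    have h4 := h2 m hm
    rw [Finsupp.sum] at h4 ⊢
    calc _ = (χ.toFun x.1 ^ m / (m : ℂ) ^ x.2.1 * (χ.toFun y.1 ^ m / (m : ℂ) ^ y.2.1)) *
          (trunc (mp χ x.2.2) m * trunc (mp χ y.2.2) m) := by ring
      _ = _ := by
        rw [h4, mul_sum]
        refine sum_congr rfl fun w _ => ?_
        rw [ex]
        simp only [χ.add, mul_pow, pow_add]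
        rw [div_mul_div_comm]
        ring

/-! ### the tails -/

/-- the formal expansion of the tails -/
theorem tails (p : Wd G) (hp : PW p) : ∃ θ : (Wd G × Xx G) →₀ ℚ,
    (∀ i ∈ θ.support, (∃ r, r ≠ [] ∧ i.1 ++ r = p) ∧ wt i.1 + wx i.2 = wt p ∧ dg i.1 + dx i.2 = dg p ∧
      PX i.2) ∧
    ∀ m L, 1 ≤ m → m + 1 ≤ L → R (mp χ p) m L = trunc (mp χ p) L +
      θ.sum fun i c => (c : ℂ) * (trunc (mp χ i.1) L * ex χ i.2 m) := by
  classical
  induction p using List.reverseRecOn with
  | nil =>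
    refine ⟨0, fun i hi => absurd hi (by simp), fun m L _ _ => ?_⟩
    rw [Finsupp.sum_zero_index, add_zero]
    rfl
  | append_singleton p y ih =>
    obtain ⟨θ, h1, h2⟩ := ih fun a ha => hp a (List.mem_append_left _ ha)
    have hy : 1 ≤ y.1 := hp y (by simp)
    -- the full expansion of `p`
    set θ1 : (Wd G × Xx G) →₀ ℚ := Finsupp.single (p, (0, 0, [])) 1 + θ with hθ1
    have k1 : ∀ i ∈ θ1.support, (∃ r, i.1 ++ r = p) ∧ wt i.1 + wx i.2 = wt p ∧ dg i.1 + dx i.2 = dg p ∧
        PX i.2 := by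
      intro i hi
      rcases mem_union.1 (Finsupp.support_add hi) with h | h
      · have h3 : i = (p, (0, 0, [])) := by
          have := Finsupp.support_single_subset h
          exact mem_singleton.1 this
        subst h3
        refine ⟨⟨[], List.append_nil _⟩, ?_, ?_, fun a ha => absurd ha List.not_mem_nil⟩
        · simp [wx, wt_nil]
        · simp [dx, dg_nil]
      · obtain ⟨⟨r, _, hr⟩, g⟩ := h1 i h
        exact ⟨⟨r, hr⟩, g⟩
    have k2 : ∀ m L, 1 ≤ m → m + 1 ≤ L → R (mp χ p) m L =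
        θ1.sum fun i c => (c : ℂ) * (trunc (mp χ i.1) L * ex χ i.2 m) := by
      intro m L hm hL
      rw [h2 m L hm hL, hθ1, Finsupp.sum_add_index']
      · rw [Finsupp.sum_single_index]
        · simp [ex, χ.zero, trunc, mp_nil]
        · simp
      · intro i
        simp
      · intro i b c
        push_cast
        ring
    -- the two new indices
    set Aa : (Wd G × Xx G) → (Wd G × Xx G) := fun i => (i.1, (0, 0, (y.1 + i.2.2.1, y.2 + i.2.1) :: i.2.2.2)) with hA
    set Bb : (Wd G × Xx G) → (Wd G × Xx G) := fun i => (i.1, (y.2 + i.2.1, y.1 + i.2.2.1, i.2.2.2)) with hB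
    have hstep : ∀ (i : Wd G × Xx G) (m : ℕ), 1 ≤ m →
        ∑ j ∈ Ico 1 (m + 1), χ.toFun y.2 ^ j / (j : ℂ) ^ y.1 * ex χ i.2 j =
          ex χ (Aa i).2 m + ex χ (Bb i).2 m := by
      intro i m hm
      rw [sum_Ico_succ_top hm]
      congr 1
      · rw [ex, hA]
        simp only [χ.zero, one_pow, pow_zero, div_one, one_mul, mp_cons, trunc]
        refine sum_congr rfl fun j _ => ?_
        rw [ex, χ.add, mul_pow, pow_add]
        rw [← mul_assoc, div_mul_div_comm]
      · rw [ex, ex, hB]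
        simp only [χ.add, mul_pow, pow_add]
        rw [← mul_assoc, div_mul_div_comm]
    set θ2 : (Wd G × Xx G) →₀ ℚ := -(θ1.mapDomain Aa + θ1.mapDomain Bb) with hθ2
    refine ⟨θ2, fun i hi => ?_, fun m L hm hL => ?_⟩
    · rw [hθ2, Finsupp.support_neg] at hi
      rcases mem_union.1 (Finsupp.support_add hi) with h | h
      · obtain ⟨j, hj, rfl⟩ := mem_image.1 (Finsupp.mapDomain_support h)
        obtain ⟨⟨r, hr⟩, g1, g2, g3⟩ := k1 j hj
        refine ⟨⟨r ++ [y], by simp, ?_⟩, ?_, ?_, ?_⟩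
        · show j.1 ++ (r ++ [y]) = p ++ [y]
          rw [← List.append_assoc, hr]
        · rw [wt_append, wt_cons, wt_nil, ← g1]
          simp only [hA, wx, wt_cons]
          omega
        · rw [dg_append, dg_cons, dg_nil, ← g2]
          simp only [hA, dx, dg_cons]
          abel
        · exact PW.cons (by show 1 ≤ y.1 + _; omega) g3
      · obtain ⟨j, hj, rfl⟩ := mem_image.1 (Finsupp.mapDomain_support h)
        obtain ⟨⟨r, hr⟩, g1, g2, g3⟩ := k1 j hj
        refine ⟨⟨r ++ [y], by simp, ?_⟩, ?_, ?_, g3⟩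
        · show j.1 ++ (r ++ [y]) = p ++ [y]
          rw [← List.append_assoc, hr]
        · rw [wt_append, wt_cons, wt_nil, ← g1]
          simp only [hB, wx]
          omega
        · rw [dg_append, dg_cons, dg_nil, ← g2]
          simp only [hB, dx]
          abel
    · have hsplit : ∀ (a : (Wd G × Xx G) → ℂ), (θ2.sum fun i c => (c : ℂ) * a i) =
          -(θ1.sum fun i c => (c : ℂ) * (a (Aa i) + a (Bb i))) := by
        intro a
        rw [hθ2, Finsupp.sum_neg_index (by simp), Finsupp.sum_add_index' (by simp) (by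
          intro i b c
          push_cast
          ring), Finsupp.sum_mapDomain_index (by simp) (by
          intro i b c
          push_cast
          ring), Finsupp.sum_mapDomain_index (by simp) (by
          intro i b c
          push_cast
          ring)]
        simp only [Finsupp.sum]
        rw [← sum_add_distrib, ← sum_neg_distrib]
        refine sum_congr rfl fun i _ => ?_
        push_cast
        ring
      rw [hsplit fun i => trunc (mp χ i.1) L * ex χ i.2 m]
      have e0 : mp χ (p ++ [y]) = mp χ p ++ [(y.1, χ.toFun y.2)] := by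
        rw [mp_append]
        rfl
      have e1 : ∑ j ∈ Ico 1 L, χ.toFun y.2 ^ j / (j : ℂ) ^ y.1 * R (mp χ p) j L =
          trunc (mp χ (p ++ [y])) L := by
        rw [e0, ← R_zero, R_snoc]
      have e2 : R (mp χ (p ++ [y])) m L = ∑ j ∈ Ico (m + 1) L, χ.toFun y.2 ^ j / (j : ℂ) ^ y.1 *
          R (mp χ p) j L := by
        rw [e0, R_snoc]
      have e3 : ∑ j ∈ Ico 1 (m + 1), χ.toFun y.2 ^ j / (j : ℂ) ^ y.1 * R (mp χ p) j L =
          θ1.sum fun i c => (c : ℂ) * (trunc (mp χ i.1) L * ex χ (Aa i).2 m +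
            trunc (mp χ i.1) L * ex χ (Bb i).2 m) := by
        have e4 : ∀ j ∈ Ico 1 (m + 1), χ.toFun y.2 ^ j / (j : ℂ) ^ y.1 * R (mp χ p) j L =
            ∑ i ∈ θ1.support, (θ1 i : ℂ) * (trunc (mp χ i.1) L *
              (χ.toFun y.2 ^ j / (j : ℂ) ^ y.1 * ex χ i.2 j)) := by
          intro j hj
          rw [mem_Ico] at hj
          rw [k2 j L hj.1 (by omega), Finsupp.sum, mul_sum]
          exact sum_congr rfl fun i _ => by ring
        rw [sum_congr rfl e4, sum_comm, Finsupp.sum]
        refine sum_congr rfl fun i _ => ?_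
        rw [← mul_sum, ← mul_sum, hstep i m hm, mul_add]
      rw [e2, ← e1, ← e3, ← sum_Ico_consecutive _ (show 1 ≤ m + 1 by omega) hL]
      ring

end Pool.Agent.H43L
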