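import Pool.Agent.X90.DM.Hs
import Pool.Agent.X90.DM.Wrd

/-!
# Linear independence of the twisted nested harmonic sums over the rational functions
-/

set_option autoImplicit false

namespace Pool.Agent.H43L

open Finset Filter Polynomial
open Pool.Agent.X90.DM (Reg taylor_ne exists_nonroot periodic trunc)

/-! ### the pole lemma -/

lemma reg_down {T Q S : ℂ[X]} {A : ℕ} {z : ℂ} (hQ : Q ≠ 0)
    (h : X ^ A * (C z * Q * taylor 1 T - taylor 1 Q * T) + Q * taylor 1 Q * S = 0) {T' Q' : ℂ[X]}
    (h1 : T * Q' = T' * Q) :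
    T * (X ^ A * taylor 1 Q') = (C z * X ^ A * taylor 1 T' + S * taylor 1 Q') * Q := by
  have h2 : taylor 1 T * taylor 1 Q' = taylor 1 T' * taylor 1 Q := by
    rw [← taylor_mul, ← taylor_mul, h1]
  have h3 : taylor 1 Q * (T * (X ^ A * taylor 1 Q')) =
      taylor 1 Q * ((C z * X ^ A * taylor 1 T' + S * taylor 1 Q') * Q) := by
    linear_combination (-taylor 1 Q') * h + C z * X ^ A * Q * h2
  exact mul_left_cancel₀ (taylor_ne hQ 1) h3

lemma reg_step_down {T Q S : ℂ[X]} {A : ℕ} {z : ℂ} (hQ : Q ≠ 0)
    (h : X ^ A * (C z * Q * taylor 1 T - taylor 1 Q * T) + Q * taylor 1 Q * S = 0) {j : ℂ} (hj : j ≠ 0)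
    (hr : Reg T Q (j + 1)) : Reg T Q j := by
  obtain ⟨T', Q', h0, h1⟩ := hr
  refine ⟨_, _, ?_, reg_down hQ h h1⟩
  rw [eval_mul, eval_pow, eval_X, taylor_eval]
  exact mul_ne_zero (pow_ne_zero _ hj) h0

lemma reg_step_up {T Q S : ℂ[X]} {A : ℕ} {z : ℂ} (hz : z ≠ 0) (hQ : Q ≠ 0)
    (h : X ^ A * (C z * Q * taylor 1 T - taylor 1 Q * T) + Q * taylor 1 Q * S = 0) {j : ℂ} (hj : j ≠ 0)
    (hr : Reg T Q j) : Reg T Q (j + 1) := by
  obtain ⟨T', Q', h0, h1⟩ := hr
  have h2 : taylor 1 T * (C z * X ^ A * Q') = (X ^ A * T' - S * Q') * taylor 1 Q := by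
    have h3 : Q * (taylor 1 T * (C z * X ^ A * Q')) = Q * ((X ^ A * T' - S * Q') * taylor 1 Q) := by
      linear_combination Q' * h + X ^ A * taylor 1 Q * h1
    exact mul_left_cancel₀ hQ h3
  have h4 : ∀ P : ℂ[X], taylor (-1) (taylor 1 P) = P := by
    intro P
    rw [taylor_taylor, neg_add_cancel, taylor_zero]
  refine ⟨taylor (-1) (X ^ A * T' - S * Q'), taylor (-1) (C z * X ^ A * Q'), ?_, ?_⟩
  · rw [taylor_eval, eval_mul, eval_mul, eval_pow, eval_X, eval_C]
    rw [add_neg_cancel_right]
    exact mul_ne_zero (mul_ne_zero hz (pow_ne_zero _ hj)) h0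
  · have h5 := congrArg (taylor (-1)) h2
    simp only [taylor_mul, h4] at h5 ⊢
    exact h5

lemma pole {T Q S : ℂ[X]} {A : ℕ} {z : ℂ} (hz : z ≠ 0) (hQ : Q ≠ 0) (hS : S ≠ 0) (hd : S.natDegree < A)
    (h : X ^ A * (C z * Q * taylor 1 T - taylor 1 Q * T) + Q * taylor 1 Q * S = 0) : False := by
  have hreg : ∀ j : ℂ, Q.eval j ≠ 0 → Reg T Q j := fun j hj => ⟨T, Q, hj, rfl⟩
  have h1 : Reg T Q 1 := by
    obtain ⟨J, hJ⟩ := exists_nonroot hQ (fun J : ℕ => (J : ℂ) + 1) (fun a b hab => by simpa using hab)
    have h2 : ∀ i : ℕ, Reg T Q ((i : ℂ) + 1) → Reg T Q 1 := by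
      intro i
      induction i with
      | zero => intro hi; simpa using hi
      | succ i ih =>
        intro hi
        refine ih (reg_step_down hQ h ?_ ?_)
        · exact_mod_cast Nat.succ_ne_zero i
        · push_cast at hi
          exact hi
    exact h2 J (hreg _ hJ)
  have h0 : Reg T Q 0 := by
    obtain ⟨J, hJ⟩ := exists_nonroot hQ (fun J : ℕ => -(J : ℂ)) (fun a b hab => by simpa using hab)
    have h2 : ∀ i : ℕ, Reg T Q (-(i : ℂ)) → Reg T Q 0 := by
      intro i
      induction i with
      | zero => intro hi; simpa using hi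
      | succ i ih =>
        intro hi
        refine ih ?_
        have h3 := reg_step_up hz hQ h (j := -((i + 1 : ℕ) : ℂ))
          (neg_ne_zero.2 (by exact_mod_cast Nat.succ_ne_zero i)) hi
        have h4 : -((i + 1 : ℕ) : ℂ) + 1 = -(i : ℂ) := by push_cast; ring
        rwa [h4] at h3
    exact h2 J (hreg _ hJ)
  obtain ⟨T1, Q1, hq1, e1⟩ := h1
  obtain ⟨T0, Q0, hq0, e0⟩ := h0
  have e2 := reg_down hQ h e1
  have e3 : T0 * (X ^ A * taylor 1 Q1) = Q0 * (C z * X ^ A * taylor 1 T1 + S * taylor 1 Q1) := by
    have e4 : Q * (T0 * (X ^ A * taylor 1 Q1)) =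
        Q * (Q0 * (C z * X ^ A * taylor 1 T1 + S * taylor 1 Q1)) := by
      linear_combination Q0 * e2 - (X ^ A * taylor 1 Q1) * e0
    exact mul_left_cancel₀ hQ e4
  have hdiv : (X : ℂ[X]) ^ A ∣ (Q0 * taylor 1 Q1) * S :=
    ⟨T0 * taylor 1 Q1 - C z * Q0 * taylor 1 T1, by linear_combination -e3⟩
  have hnd : ¬ (X : ℂ[X]) ∣ Q0 * taylor 1 Q1 := by
    rw [X_dvd_iff, coeff_zero_eq_eval_zero, eval_mul, taylor_eval, zero_add]
    exact mul_ne_zero hq0 hq1
  have h5 := Polynomial.prime_X.pow_dvd_of_dvd_mul_left A hnd hdiv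
  have h6 := natDegree_le_of_dvd h5 hS
  rw [natDegree_X_pow] at h6
  omega

lemma ratio_zero {P Q : ℂ[X]} (hQ : Q ≠ 0) {ζ ζ0 : ℂ} (hne : ζ ≠ ζ0)
    (h : C ζ * Q * taylor 1 P = C ζ0 * taylor 1 Q * P) : P = 0 := by
  by_contra hP
  have h1 := congrArg leadingCoeff h
  simp only [leadingCoeff_mul, leadingCoeff_C, leadingCoeff_taylor] at h1
  have hp : P.leadingCoeff ≠ 0 := leadingCoeff_ne_zero.2 hP
  have hq : Q.leadingCoeff ≠ 0 := leadingCoeff_ne_zero.2 hQ
  apply hne
  have h2 : (ζ - ζ0) * (Q.leadingCoeff * P.leadingCoeff) = 0 := by linear_combination h1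
  exact sub_eq_zero.1 ((mul_eq_zero.1 h2).resolve_right (mul_ne_zero hq hp))

lemma ratio_const {P Q : ℂ[X]} (hQ : Q ≠ 0) {ζ : ℂ} (hζ : ζ ≠ 0)
    (h : C ζ * Q * taylor 1 P = C ζ * taylor 1 Q * P) : ∃ c : ℂ, P = C c * Q := by
  refine periodic hQ ?_
  have h1 : C ζ * (Q * taylor 1 P) = C ζ * (taylor 1 Q * P) := by linear_combination h
  exact mul_left_cancel₀ (C_ne_zero.2 hζ) h1

/-! ### the sums -/

lemma headI_tail {l : List (ℕ × ℂ)} (h : l ≠ []) : l.headI :: l.tail = l := by
  cases l with
  | nil => exact absurd rfl h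
  | cons a u => rfl

/-- the indices of the functions -/
abbrev Jx : Type := ℂ × List (ℕ × ℂ)

/-- the functions -/
noncomputable def ef (v : Jx) (m : ℕ) : ℂ := v.1 ^ m * trunc v.2 m

/-- the next index -/
noncomputable def nx (v : Jx) : Jx := (v.1 * v.2.headI.2, v.2.tail)

lemma trunc_succ (x : ℕ × ℂ) (u : List (ℕ × ℂ)) {m : ℕ} (hm : 1 ≤ m) :
    trunc (x :: u) (m + 1) = trunc (x :: u) m + x.2 ^ m / (m : ℂ) ^ x.1 * trunc u m := by
  rw [trunc, trunc, sum_Ico_succ_top hm]

lemma ef_step (v : Jx) {m : ℕ} (hm : 1 ≤ m) :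
    ef v (m + 1) = v.1 * (ef v m + if v.2 ≠ [] then 1 / (m : ℂ) ^ v.2.headI.1 * ef (nx v) m else 0) := by
  obtain ⟨ζ, w⟩ := v
  cases w with
  | nil =>
    simp [ef, trunc, pow_succ]
    ring
  | cons a u =>
    rw [ef, ef, ef, trunc_succ a u hm, if_pos (List.cons_ne_nil _ _)]
    simp only [nx, List.headI_cons, List.tail_cons, mul_pow, pow_succ]
    ring

/-- the value -/
noncomputable def Ev (x : Jx →₀ ℂ[X]) (m : ℕ) : ℂ := ∑ w ∈ x.support, (x w).eval (m : ℂ) * ef w m

lemma Ev_eq (x : Jx →₀ ℂ[X]) (U : Finset Jx) (hU : x.support ⊆ U) (m : ℕ) :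
    Ev x m = ∑ w ∈ U, (x w).eval (m : ℂ) * ef w m := by
  rw [Ev]
  refine sum_subset hU fun w _ hw => ?_
  rw [Finsupp.notMem_support_iff.1 hw, eval_zero, zero_mul]

open Classical in
/-- the coefficients of the new relation -/
noncomputable def yf (x : Jx →₀ ℂ[X]) (A : ℕ) (Q : ℂ[X]) (ζ0 : ℂ) (w : Jx) : ℂ[X] :=
  X ^ A * (C w.1 * Q * taylor 1 (x w) - C ζ0 * taylor 1 Q * x w) +
    ∑ v ∈ x.support, if v.2 ≠ [] ∧ nx v = w then
      C v.1 * X ^ (A - v.2.headI.1) * Q * taylor 1 (x v) else 0

lemma yf_out (x : Jx →₀ ℂ[X]) (A : ℕ) (Q : ℂ[X]) (ζ0 : ℂ) (w : Jx) (hw : w ∉ x.support)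
    (hw' : ∀ v ∈ x.support, v.2 ≠ [] → nx v ≠ w) : yf x A Q ζ0 w = 0 := by
  classical
  rw [yf, Finsupp.notMem_support_iff.1 hw, map_zero, mul_zero, mul_zero, sub_zero, mul_zero, zero_add]
  exact sum_eq_zero fun v hv => if_neg fun h => hw' v hv h.1 h.2

open Classical in
lemma sum_yf (x : Jx →₀ ℂ[X]) (A : ℕ) (hA : ∀ v ∈ x.support, v.2.headI.1 ≤ A) (Q : ℂ[X]) (ζ0 : ℂ)
    {m : ℕ} (hm : 1 ≤ m) :
    ∑ w ∈ x.support ∪ x.support.image nx, (yf x A Q ζ0 w).eval (m : ℂ) * ef w m =
      (m : ℂ) ^ A * (Q.eval (m : ℂ) * Ev x (m + 1) - ζ0 * Q.eval ((m : ℂ) + 1) * Ev x m) := by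
  have hm0 : (m : ℂ) ≠ 0 := by exact_mod_cast (by omega : m ≠ 0)
  set U := x.support ∪ x.support.image nx with hU
  simp only [yf, eval_add, add_mul, sum_add_distrib]
  have h1 : ∑ w ∈ U, (X ^ A * (C w.1 * Q * taylor 1 (x w) - C ζ0 * taylor 1 Q * x w)).eval (m : ℂ) *
      ef w m = ∑ w ∈ x.support, (m : ℂ) ^ A * (w.1 * Q.eval (m : ℂ) * (x w).eval ((m : ℂ) + 1) -
        ζ0 * Q.eval ((m : ℂ) + 1) * (x w).eval (m : ℂ)) * ef w m := by
    symm
    refine (sum_congr rfl fun w _ => ?_).trans (sum_subset subset_union_left fun w _ hw => ?_)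
    · simp only [eval_mul, eval_pow, eval_X, eval_sub, eval_C, taylor_eval]
    · rw [Finsupp.notMem_support_iff.1 hw]
      simp
  have h2 : ∑ w ∈ U, (∑ v ∈ x.support, if v.2 ≠ [] ∧ nx v = w then
      C v.1 * X ^ (A - v.2.headI.1) * Q * taylor 1 (x v) else 0 : ℂ[X]).eval (m : ℂ) * ef w m =
      ∑ v ∈ x.support, v.1 * (x v).eval ((m : ℂ) + 1) * ((m : ℂ) ^ A * Q.eval (m : ℂ) *
        if v.2 ≠ [] then 1 / (m : ℂ) ^ v.2.headI.1 * ef (nx v) m else 0) := by
    simp only [eval_finsetSum, sum_mul]
    rw [sum_comm]
    refine sum_congr rfl fun v hv => ?_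
    rw [sum_eq_single (nx v)]
    · by_cases h : v.2 = []
      · simp [h]
      · rw [if_pos ⟨h, rfl⟩, if_pos h]
        simp only [eval_mul, eval_pow, eval_X, eval_C, taylor_eval]
        have h3 : (m : ℂ) ^ A = (m : ℂ) ^ (A - v.2.headI.1) * (m : ℂ) ^ v.2.headI.1 := by
          rw [← pow_add, Nat.sub_add_cancel (hA v hv)]
        rw [h3]
        field_simp
    · intro w _ hw
      rw [if_neg fun h => hw h.2.symm]
      simp
    · intro h
      exact absurd (mem_union_right _ (mem_image_of_mem _ hv)) h
  rw [h1, h2, Ev, Ev]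
  have h3 : ∀ w ∈ x.support, (x w).eval (((m + 1 : ℕ) : ℂ)) * ef w (m + 1) =
      (x w).eval ((m : ℂ) + 1) * (w.1 * ef w m) + (x w).eval ((m : ℂ) + 1) * (w.1 *
        (if w.2 ≠ [] then 1 / (m : ℂ) ^ w.2.headI.1 * ef (nx w) m else 0)) := by
    intro w _
    rw [ef_step w hm]
    push_cast
    ring
  rw [sum_congr rfl h3, sum_add_distrib, mul_sub, mul_add, mul_add, mul_sum, mul_sum, mul_sum, mul_sum,
    mul_sum, mul_sum, ← sum_add_distrib, ← sum_add_distrib, ← sum_sub_distrib]
  exact sum_congr rfl fun w _ => by ring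

/-- good indices -/
def Pos (v : Jx) : Prop := v.1 ≠ 0 ∧ ∀ a ∈ v.2, 1 ≤ a.1 ∧ a.2 ≠ 0

lemma Pos.nx {v : Jx} (h : Pos v) (hv : v.2 ≠ []) : Pos (nx v) := by
  obtain ⟨ζ, w⟩ := v
  cases w with
  | nil => exact absurd rfl hv
  | cons a u =>
    exact ⟨mul_ne_zero h.1 (h.2 a List.mem_cons_self).2, fun b hb => h.2 b (List.mem_cons_of_mem _ hb)⟩

theorem tw_indep (n : ℕ) : ∀ x : Jx →₀ ℂ[X], (∀ w ∈ x.support, w.2.length < n) →
    (∀ w ∈ x.support, Pos w) → (∀ᶠ m : ℕ in atTop, Ev x m = 0) → x = 0 := by
  classical
  induction n with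
  | zero =>
    intro x hx _ _
    rw [← Finsupp.support_eq_empty]
    refine eq_empty_of_forall_notMem fun w hw => ?_
    have := hx w hw
    omega
  | succ n ih =>
    have hk : ∀ k : ℕ, ∀ x : Jx →₀ ℂ[X], (∀ w ∈ x.support, w.2.length < n + 1) →
        (∀ w ∈ x.support, Pos w) → (∀ᶠ m : ℕ in atTop, Ev x m = 0) →
        (x.support.filter fun w => w.2.length = n).card ≤ k → x = 0 := by
      intro k
      induction k with
      | zero =>
        intro x hx hpos hev hc
        refine ih x (fun w hw => ?_) hpos hev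
        have h1 := hx w hw
        have h2 : w.2.length ≠ n := fun h => by
          have h3 : w ∈ x.support.filter fun w => w.2.length = n := mem_filter.2 ⟨hw, h⟩
          have := card_pos.2 ⟨w, h3⟩
          omega
        omega
      | succ k ihk =>
        intro x hx hpos hev hc
        by_cases htop : ∃ v ∈ x.support, v.2.length = n
        swap
        · push Not at htop
          exact ih x (fun w hw => by have := hx w hw; have := htop w hw; omega) hpos hev
        exfalso
        obtain ⟨v0, hv0, hv0n⟩ := htop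
        set Q := x v0 with hQ
        have hQ0 : Q ≠ 0 := Finsupp.mem_support_iff.1 hv0
        have hζ0 : v0.1 ≠ 0 := (hpos v0 hv0).1
        set A : ℕ := 1 + ∑ v ∈ x.support, v.2.headI.1 with hA
        have hAv : ∀ v ∈ x.support, v.2.headI.1 < A := by
          intro v hv
          have := single_le_sum (f := fun v : Jx => v.2.headI.1) (fun _ _ => Nat.zero_le _) hv
          omega
        set U := x.support ∪ (x.support.filter fun v => v.2 ≠ []).image nx with hU
        set U' := x.support ∪ x.support.image nx with hU'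
        have hUU : U ⊆ U' := union_subset_union_right (image_subset_image (filter_subset _ _))
        have hout : ∀ w, yf x A Q v0.1 w ≠ 0 → w ∈ U := by
          intro w hw
          by_contra hcon
          rw [hU, mem_union, not_or] at hcon
          exact hw (yf_out x A Q v0.1 w hcon.1 fun v hv hv' h =>
            hcon.2 (mem_image.2 ⟨v, mem_filter.2 ⟨hv, hv'⟩, h⟩))
        set y : Jx →₀ ℂ[X] := Finsupp.onFinset U (yf x A Q v0.1) hout with hy
        have hyw : ∀ w, y w = yf x A Q v0.1 w := fun w => Finsupp.onFinset_apply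
        have hysup : y.support ⊆ U := Finsupp.support_onFinset_subset
        have hyev : ∀ᶠ m : ℕ in atTop, Ev y m = 0 := by
          have h1 : ∀ᶠ m : ℕ in atTop, Ev x (m + 1) = 0 := (tendsto_add_atTop_nat 1).eventually hev
          filter_upwards [hev, h1, eventually_ge_atTop 1] with m h2 h3 h4
          rw [Ev_eq y U' (hysup.trans hUU)]
          simp only [hyw]
          rw [sum_yf x A (fun v hv => (hAv v hv).le) Q v0.1 h4, h2, h3]
          ring
        -- the top words
        have htopw : ∀ w : Jx, w.2.length = n → yf x A Q v0.1 w =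
            X ^ A * (C w.1 * Q * taylor 1 (x w) - C v0.1 * taylor 1 Q * x w) := by
          intro w hw
          rw [yf, add_eq_left]
          refine sum_eq_zero fun v hv => if_neg fun h => ?_
          have h1 := hx v hv
          have h2 := List.length_tail (l := v.2)
          have h3 : v.2.tail = w.2 := congrArg Prod.snd h.2
          have h4 := List.length_pos_iff.2 h.1
          rw [h3, hw] at h2
          omega
        have hy0 : y = 0 := by
          refine ihk y (fun w hw => ?_) (fun w hw => ?_) hyev ?_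
          · rcases mem_union.1 (hysup hw) with h | h
            · exact hx w h
            · obtain ⟨v, hv, rfl⟩ := mem_image.1 h
              have := hx v (mem_filter.1 hv).1
              show v.2.tail.length < n + 1
              rw [List.length_tail]
              omega
          · rcases mem_union.1 (hysup hw) with h | h
            · exact hpos w h
            · obtain ⟨v, hv, rfl⟩ := mem_image.1 h
              exact (hpos v (mem_filter.1 hv).1).nx (mem_filter.1 hv).2
          · have hsub : (y.support.filter fun w => w.2.length = n) ⊆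
                (x.support.filter fun w => w.2.length = n).erase v0 := by
              intro w hw
              rw [mem_filter] at hw
              obtain ⟨h1, h2⟩ := hw
              rw [Finsupp.mem_support_iff, hyw, htopw w h2] at h1
              rw [mem_erase, mem_filter, Finsupp.mem_support_iff]
              refine ⟨?_, ?_, h2⟩
              · rintro rfl
                apply h1
                rw [← hQ]
                ring
              · intro h3
                apply h1
                rw [h3, map_zero, mul_zero, mul_zero, sub_zero, mul_zero]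
            have h3 := card_le_card hsub
            rw [card_erase_of_mem (mem_filter.2 ⟨hv0, hv0n⟩)] at h3
            omega
        have hyz : ∀ w, yf x A Q v0.1 w = 0 := fun w => by rw [← hyw, hy0]; rfl
        have hX : (X : ℂ[X]) ^ A ≠ 0 := pow_ne_zero _ X_ne_zero
        have hratio : ∀ v : Jx, v.2.length = n →
            C v.1 * Q * taylor 1 (x v) = C v0.1 * taylor 1 Q * x v := by
          intro v hv
          have h1 := hyz v
          rw [htopw v hv] at h1
          exact sub_eq_zero.1 ((mul_eq_zero.1 h1).resolve_left hX)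
        have hper : ∀ v : Jx, v.2.length = n → ∃ c : ℂ, x v = C c * Q ∧ (v.1 ≠ v0.1 → c = 0) := by
          intro v hv
          by_cases hvv : v.1 = v0.1
          · have h1 := hratio v hv
            rw [hvv] at h1
            obtain ⟨c, hc⟩ := ratio_const hQ0 hζ0 h1
            exact ⟨c, hc, fun h => absurd hvv h⟩
          · have h1 := ratio_zero hQ0 hvv (hratio v hv)
            exact ⟨0, by rw [h1, C_0, zero_mul], fun _ => rfl⟩
        rcases Nat.eq_zero_or_pos n with hn | hn
        · -- no words
          subst hn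
          have hsup : x.support ⊆ {v0} := by
            intro w hw
            rw [mem_singleton]
            have h1 : w.2 = [] := List.eq_nil_of_length_eq_zero (by have := hx w hw; omega)
            have h2 : v0.2 = [] := List.eq_nil_of_length_eq_zero hv0n
            by_contra hne
            have h3 : w.1 ≠ v0.1 := fun h => hne (Prod.ext h (by rw [h1, h2]))
            have h4 := ratio_zero hQ0 h3 (hratio w (by rw [h1]; rfl))
            exact (Finsupp.mem_support_iff.1 hw) h4
          obtain ⟨m0, hm0⟩ := eventually_atTop.1 hev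
          apply hQ0
          refine Polynomial.eq_zero_of_infinite_isRoot _ ?_
          have hinj : Function.Injective fun i : ℕ => ((m0 + i : ℕ) : ℂ) := by
            intro a b hab
            have h4 : ((m0 + a : ℕ) : ℂ) = ((m0 + b : ℕ) : ℂ) := hab
            have : m0 + a = m0 + b := by exact_mod_cast h4
            omega
          refine (Set.infinite_range_of_injective hinj).mono ?_
          rintro _ ⟨i, rfl⟩
          show IsRoot _ _
          have h2 := hm0 (m0 + i) (by omega)
          rw [Ev_eq x _ hsup, sum_singleton, ef, List.eq_nil_of_length_eq_zero hv0n, trunc, mul_one] at h2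
          exact (mul_eq_zero.1 h2).resolve_right (pow_ne_zero _ hζ0)
        · choose! c hc' hcz using hper
          have hv0ne : v0.2 ≠ [] := by
            intro h
            rw [h, List.length_nil] at hv0n
            omega
          set t0 := nx v0 with ht0
          set z0 := v0.2.headI.2 with hz0
          have hz0' : z0 ≠ 0 := by
            obtain ⟨ζ, w⟩ := v0
            cases w with
            | nil => exact absurd rfl hv0ne
            | cons a u => exact ((hpos _ hv0).2 a List.mem_cons_self).2
          set V := x.support.filter fun v => v.2 ≠ [] ∧ nx v = t0 with hV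
          have hVlen : ∀ v ∈ V, v.2.length = n := by
            intro v hv
            rw [hV, mem_filter] at hv
            obtain ⟨_, h1, h2⟩ := hv
            have h3 := List.length_tail (l := v.2)
            have h4 := List.length_tail (l := v0.2)
            have h7 : v.2.tail = v0.2.tail := congrArg Prod.snd h2
            rw [h7, h4] at h3
            have h5 := List.length_pos_iff.2 h1
            have h6 := List.length_pos_iff.2 hv0ne
            omega
          set S : ℂ[X] := ∑ v ∈ V, C (c v) * X ^ (A - v.2.headI.1) with hS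
          have hv0V : v0 ∈ V := mem_filter.2 ⟨hv0, hv0ne, rfl⟩
          have hhead : ∀ v ∈ V, 1 ≤ v.2.headI.1 := by
            intro v hv
            rw [hV, mem_filter] at hv
            obtain ⟨h1, h2, _⟩ := hv
            obtain ⟨ζ, w⟩ := v
            cases w with
            | nil => exact absurd rfl h2
            | cons a u => exact ((hpos _ h1).2 a List.mem_cons_self).1
          have hc0 : c v0 = 1 := by
            have h1 := hc' v0 hv0n
            rw [← hQ] at h1
            have h2 : (C (c v0) - 1) * Q = 0 := by linear_combination -h1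
            have h3 := (mul_eq_zero.1 h2).resolve_right hQ0
            have h4 : C (c v0) = C 1 := by rw [C_1]; exact sub_eq_zero.1 h3
            exact C_injective h4
          have hS0 : S ≠ 0 := by
            intro h1
            have h2 := congrArg (fun P : ℂ[X] => P.coeff (A - v0.2.headI.1)) h1
            simp only [hS, finsetSum_coeff, coeff_C_mul, coeff_X_pow, coeff_zero] at h2
            rw [sum_eq_single v0] at h2
            · simp [hc0] at h2
            · intro v hv hne
              by_cases hvv : v.1 = v0.1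
              · rw [if_neg, mul_zero]
                intro h3
                apply hne
                have h4 := hAv v (mem_filter.1 hv).1
                have h5 := hAv v0 hv0
                have h6 : v.2.headI.1 = v0.2.headI.1 := by omega
                have h7 := (mem_filter.1 hv).2
                have h8 : v.2.tail = v0.2.tail := congrArg Prod.snd h7.2
                have h9 : v.1 * v.2.headI.2 = v0.1 * v0.2.headI.2 := congrArg Prod.fst h7.2
                have h10 : v.2.headI.2 = v0.2.headI.2 := by
                  rw [hvv] at h9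
                  exact mul_left_cancel₀ hζ0 h9
                have h11 : v.2.headI = v0.2.headI := Prod.ext h6 h10
                refine Prod.ext hvv ?_
                rw [← headI_tail h7.1, ← headI_tail hv0ne, h8, h11]
              · rw [hcz v (hVlen v hv) hvv, zero_mul]
            · intro h
              exact absurd hv0V h
          have hSd : S.natDegree < A := by
            have h1 : S.natDegree ≤ A - 1 := by
              refine natDegree_sum_le_of_forall_le _ _ fun v hv => ?_
              refine (natDegree_C_mul_X_pow_le _ _).trans ?_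
              have := hhead v hv
              omega
            omega
          refine pole (T := x t0) hz0' hQ0 hS0 hSd ?_
          have h1 := hyz t0
          rw [yf] at h1
          have h2 : (∑ v ∈ x.support, if v.2 ≠ [] ∧ nx v = t0 then
              C v.1 * X ^ (A - v.2.headI.1) * Q * taylor 1 (x v) else 0 : ℂ[X]) =
              C v0.1 * (Q * taylor 1 Q * S) := by
            rw [← sum_filter, ← hV, hS, mul_sum, mul_sum]
            refine sum_congr rfl fun v hv => ?_
            by_cases hvv : v.1 = v0.1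
            · rw [hc' v (hVlen v hv), taylor_mul, taylor_C, hvv]
              ring
            · rw [hc' v (hVlen v hv), hcz v (hVlen v hv) hvv, C_0]
              simp
          rw [h2] at h1
          have h3 : C t0.1 = C v0.1 * C z0 := by
            rw [← C_mul]
            rfl
          rw [h3] at h1
          refine mul_left_cancel₀ (C_ne_zero.2 hζ0) ?_
          rw [mul_zero]
          linear_combination h1
    intro x hx hpos hev
    exact hk _ x hx hpos hev le_rfl

end Pool.Agent.H43L
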