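import Pool.Agent.H43L.Th
import Pool.Agent.H43L.Tw

/-!
# The values with one large argument
-/

set_option autoImplicit false

namespace Pool.Agent.H43L

open Finset Filter Topology
open Pool.Agent.X90.DM (trunc R trunc_app li Cv Ru Cl Cl_li gen)

variable {G : Type} [AddCommMonoid G] (χ : Chr G)

/-! ### independence of the functions -/

theorem ex_indep (X : Finset (Xx G)) (hpos : ∀ x ∈ X, PX x) (hχ : ∀ k, χ.toFun k ≠ 0)
    (hinj : Set.InjOn (fun x : Xx G => (χ.toFun x.1, x.2.1, mp χ x.2.2)) X) (a : Xx G → ℂ)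
    (h : ∀ m, 1 ≤ m → ∑ x ∈ X, a x * ex χ x m = 0) : ∀ x ∈ X, a x = 0 := by
  classical
  set B : ℕ := ∑ x ∈ X, x.2.1 with hB
  have hBx : ∀ x ∈ X, x.2.1 ≤ B := fun x hx =>
    single_le_sum (f := fun x : Xx G => x.2.1) (fun _ _ => Nat.zero_le _) hx
  let κ : Xx G → Jx := fun x => (χ.toFun x.1, mp χ x.2.2)
  let y : Jx → Polynomial ℂ := fun v => ∑ x ∈ X with κ x = v, Polynomial.C (a x) * Polynomial.X ^ (B - x.2.1)
  have hout : ∀ v, y v ≠ 0 → v ∈ X.image κ := by
    intro v hv
    by_contra hcon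
    apply hv
    refine sum_eq_zero fun x hx => ?_
    rw [mem_filter] at hx
    exact absurd (mem_image.2 ⟨x, hx.1, hx.2⟩) hcon
  set Y : Jx →₀ Polynomial ℂ := Finsupp.onFinset (X.image κ) y hout with hY
  have hYy : ∀ v, Y v = y v := fun v => Finsupp.onFinset_apply
  have hYs : Y.support ⊆ X.image κ := Finsupp.support_onFinset_subset
  have hev : ∀ m, 1 ≤ m → Ev Y m = 0 := by
    intro m hm
    have hm0 : (m : ℂ) ≠ 0 := by exact_mod_cast (by omega : m ≠ 0)
    rw [Ev_eq Y _ hYs]
    have h1 : ∀ v ∈ X.image κ, (Y v).eval (m : ℂ) * ef v m =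
        ∑ x ∈ X with κ x = v, (m : ℂ) ^ B * (a x * ex χ x m) := by
      intro v _
      rw [hYy, Polynomial.eval_finsetSum, sum_mul]
      refine sum_congr rfl fun x hx => ?_
      rw [mem_filter] at hx
      rw [← hx.2, Polynomial.eval_mul, Polynomial.eval_C, Polynomial.eval_pow, Polynomial.eval_X, ef, ex]
      have h3 : (m : ℂ) ^ B = (m : ℂ) ^ (B - x.2.1) * (m : ℂ) ^ x.2.1 := by
        rw [← pow_add, Nat.sub_add_cancel (hBx x hx.1)]
      rw [h3]
      have h4 : (m : ℂ) ^ x.2.1 ≠ 0 := pow_ne_zero _ hm0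
      field_simp
      rfl
    rw [sum_congr rfl h1, sum_fiberwise_of_maps_to (fun x hx => mem_image_of_mem _ hx), ← mul_sum, h m hm,
      mul_zero]
  have hpos' : ∀ w ∈ Y.support, Pos w := by
    intro w hw
    obtain ⟨x, hx, rfl⟩ := mem_image.1 (hYs hw)
    refine ⟨hχ _, fun b hb => ?_⟩
    obtain ⟨c, hc, rfl⟩ := List.mem_map.1 hb
    exact ⟨hpos x hx c hc, hχ _⟩
  obtain ⟨n, hn⟩ : ∃ n : ℕ, ∀ w ∈ Y.support, w.2.length < n := by
    refine ⟨∑ w ∈ Y.support, w.2.length + 1, fun w hw => ?_⟩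
    have := single_le_sum (f := fun w : Jx => w.2.length) (fun _ _ => Nat.zero_le _) hw
    exact Nat.lt_succ_of_le this
  have hY0 := tw_indep n Y hn hpos' (by
    filter_upwards [eventually_ge_atTop 1] with m hm
    exact hev m hm)
  intro x0 hx0
  have h1 : y (κ x0) = 0 := by rw [← hYy, hY0]; rfl
  have h2 := congrArg (fun P : Polynomial ℂ => P.coeff (B - x0.2.1)) h1
  simp only [y, Polynomial.finsetSum_coeff, Polynomial.coeff_C_mul, Polynomial.coeff_X_pow,
    Polynomial.coeff_zero] at h2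
  rw [sum_eq_single x0] at h2
  · simpa using h2
  · intro x hx hne
    rw [mem_filter] at hx
    rw [if_neg, mul_zero]
    intro h3
    apply hne
    have h4 := hBx x hx.1
    have h5 := hBx x0 hx0
    refine hinj hx.1 hx0 ?_
    have h6 : x.2.1 = x0.2.1 := by omega
    have h7 : χ.toFun x.1 = χ.toFun x0.1 := congrArg Prod.fst hx.2
    have h8 : mp χ x.2.2 = mp χ x0.2.2 := congrArg Prod.snd hx.2
    simp only [h6, h7, h8]
  · intro h3
    exact absurd (show x0 ∈ X.filter fun x => κ x = κ x0 from mem_filter.2 ⟨hx0, rfl⟩) h3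

/-! ### Dirichlet series -/

/-- a Dirichlet series that vanishes at all large natural numbers -/
theorem dir_unique (F : ℕ → ℂ) (σ : ℕ) (hF : Summable fun l : ℕ => ‖F (l + 1)‖ / ((l : ℝ) + 1) ^ σ)
    (h : ∀ s, σ ≤ s → ∑' l : ℕ, F (l + 1) / ((l : ℂ) + 1) ^ s = 0) : ∀ l, 1 ≤ l → F l = 0 := by
  have key : ∀ l : ℕ, F (l + 1) = 0 := by
    intro l
    induction l using Nat.strong_induction_on with
    | _ l ih =>
      set b : ℕ → ℝ := fun j => ‖F (j + 1)‖ / ((j : ℝ) + 1) ^ σ with hb
      have hb0 : ∀ j, 0 ≤ b j := fun j => by positivity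
      have hl : (0 : ℝ) < (l : ℝ) + 1 := by positivity
      set q : ℝ := ((l : ℝ) + 1) / ((l : ℝ) + 2) with hq
      have hq0 : 0 ≤ q := by positivity
      have hq1 : q < 1 := by rw [hq, div_lt_one (by positivity)]; linarith
      have hbound : ∀ n : ℕ, ‖F (l + 1)‖ ≤ ((l : ℝ) + 1) ^ σ * (∑' j, b j) * q ^ n := by
        intro n
        set s := σ + n with hs
        have hsum : Summable fun j : ℕ => F (j + 1) / ((j : ℂ) + 1) ^ s := by
          refine Summable.of_norm_bounded hF fun j => ?_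
          rw [norm_div, norm_pow]
          have h1 : ‖(j : ℂ) + 1‖ = (j : ℝ) + 1 := by
            rw [← Nat.cast_one, ← Nat.cast_add, Complex.norm_natCast]
            push_cast
            rfl
          rw [h1]
          refine div_le_div_of_nonneg_left (norm_nonneg _) (by positivity) ?_
          exact pow_le_pow_right₀ (by linarith [(Nat.cast_nonneg j : (0 : ℝ) ≤ j)]) (by omega)
        have h0 := h s (by omega)
        rw [← hsum.sum_add_tsum_nat_add (l + 1), sum_range_succ, sum_eq_zero, zero_add] at h0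
        swap
        · intro j hj
          rw [ih j (mem_range.1 hj), zero_div]
        have h2 : F (l + 1) / ((l : ℂ) + 1) ^ s =
            -∑' j : ℕ, F (j + (l + 1) + 1) / (((j + (l + 1) : ℕ) : ℂ) + 1) ^ s := by
          linear_combination h0
        have hnorm : ∀ j : ℕ, ‖(j : ℂ) + 1‖ = (j : ℝ) + 1 := fun j => by
          rw [← Nat.cast_one, ← Nat.cast_add, Complex.norm_natCast]
          push_cast
          rfl
        have h3 : ‖F (l + 1)‖ / ((l : ℝ) + 1) ^ s ≤ ((1 / ((l : ℝ) + 2)) ^ n) * ∑' j, b j := by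
          have h4 := congrArg norm h2
          rw [norm_div, norm_pow, hnorm, norm_neg] at h4
          rw [h4]
          have hsb : Summable fun j => b (j + (l + 1)) := (summable_nat_add_iff (l + 1)).2 hF
          have h5 : ∀ j : ℕ, ‖F (j + (l + 1) + 1) / (((j + (l + 1) : ℕ) : ℂ) + 1) ^ s‖ ≤
              (1 / ((l : ℝ) + 2)) ^ n * b (j + (l + 1)) := by
            intro j
            rw [norm_div, norm_pow, hnorm, hb]
            simp only
            rw [hs, pow_add, one_div, inv_pow]
            have h6 : (0 : ℝ) < ((j + (l + 1) : ℕ) : ℝ) + 1 := by positivity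
            have h7 : ((l : ℝ) + 2) ^ n ≤ (((j + (l + 1) : ℕ) : ℝ) + 1) ^ n := by
              refine pow_le_pow_left₀ (by positivity) ?_ n
              push_cast
              linarith [(Nat.cast_nonneg j : (0 : ℝ) ≤ j)]
            rw [← div_div, div_eq_mul_inv _ ((((j + (l + 1) : ℕ) : ℝ) + 1) ^ n), mul_comm]
            refine mul_le_mul_of_nonneg_right ?_ (by positivity)
            exact inv_anti₀ (by positivity) h7
          refine (tsum_of_norm_bounded ((hsb.mul_left _).hasSum) h5).trans ?_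
          rw [tsum_mul_left]
          refine mul_le_mul_of_nonneg_left ?_ (by positivity)
          rw [← hF.sum_add_tsum_nat_add (l + 1)]
          have : 0 ≤ ∑ i ∈ range (l + 1), b i := sum_nonneg fun i _ => hb0 i
          linarith
        rw [div_le_iff₀ (by positivity)] at h3
        refine h3.trans (le_of_eq ?_)
        rw [hs, pow_add, hq, div_pow, div_pow, one_pow]
        field_simp
      have hlim : Tendsto (fun n : ℕ => ((l : ℝ) + 1) ^ σ * (∑' j, b j) * q ^ n) atTop (𝓝 0) := by
        have := (tendsto_pow_atTop_nhds_zero_of_lt_one hq0 hq1).const_mul (((l : ℝ) + 1) ^ σ * (∑' j, b j))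
        rwa [mul_zero] at this
      have h5 : ‖F (l + 1)‖ ≤ 0 := ge_of_tendsto' hlim hbound
      exact norm_le_zero_iff.1 h5
  intro l hl
  obtain ⟨j, rfl⟩ : ∃ j, l = j + 1 := ⟨l - 1, by omega⟩
  exact key j

end Pool.Agent.H43L
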