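import Pool.Agent.X90.DM.Wrd

/-!
# Convergence of the nested sums with roots of unity
-/

set_option autoImplicit false

namespace Pool.Agent.H43L

open Finset Filter Topology
open Pool.Agent.X90.DM (trunc Cv)

lemma sum_inv_sqrt (m : ℕ) : ∑ j ∈ Ico 1 (m + 1), 1 / √(j : ℝ) ≤ 2 * √(m : ℝ) := by
  induction m with
  | zero => simp
  | succ m ih =>
    rw [sum_Ico_succ_top (by omega)]
    have h1 : (0 : ℝ) < √((m + 1 : ℕ) : ℝ) := Real.sqrt_pos.2 (by positivity)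
    have h3 : √(m : ℝ) ^ 2 = m := Real.sq_sqrt (by positivity)
    have h4 : √((m + 1 : ℕ) : ℝ) ^ 2 = m + 1 := by
      rw [Real.sq_sqrt (by positivity)]
      push_cast
      rfl
    have h5 : 1 / √((m + 1 : ℕ) : ℝ) ≤ 2 * √((m + 1 : ℕ) : ℝ) - 2 * √(m : ℝ) := by
      rw [div_le_iff₀ h1]
      nlinarith [sq_nonneg (√((m + 1 : ℕ) : ℝ) - √(m : ℝ))]
    linarith

/-- all arguments positive, all numbers of absolute value one -/
def Pn (u : List (ℕ × ℂ)) : Prop := ∀ x ∈ u, 1 ≤ x.1 ∧ ‖x.2‖ = 1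

lemma letter_bd {x : ℕ × ℂ} (hx : 1 ≤ x.1 ∧ ‖x.2‖ = 1) {u : List (ℕ × ℂ)} {j : ℕ} (hj : 1 ≤ j) {C : ℝ}
    (h : ‖trunc u j‖ ≤ C * √(j : ℝ)) : ‖x.2 ^ j / (j : ℂ) ^ x.1 * trunc u j‖ ≤ C * (1 / √(j : ℝ)) := by
  have hj0 : (0 : ℝ) < j := by exact_mod_cast hj
  have hj1 : (1 : ℝ) ≤ j := by exact_mod_cast hj
  rw [norm_mul, norm_div, norm_pow, hx.2, one_pow, norm_pow, Complex.norm_natCast]
  have h1 : (1 : ℝ) / (j : ℝ) ^ x.1 ≤ 1 / j := by
    refine one_div_le_one_div_of_le hj0 ?_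
    calc (j : ℝ) = (j : ℝ) ^ 1 := (pow_one _).symm
      _ ≤ (j : ℝ) ^ x.1 := pow_le_pow_right₀ hj1 hx.1
  calc _ ≤ 1 / (j : ℝ) * (C * √(j : ℝ)) := mul_le_mul h1 h (norm_nonneg _) (by positivity)
    _ = C * (√(j : ℝ) / j) := by ring
    _ = _ := by rw [Real.sqrt_div_self']

lemma trunc_bd (u : List (ℕ × ℂ)) (hu : Pn u) : ∀ m, 1 ≤ m → ‖trunc u m‖ ≤ 2 ^ u.length * √(m : ℝ) := by
  induction u with
  | nil =>
    intro m hm
    rw [trunc, norm_one, List.length_nil, pow_zero, one_mul]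
    exact Real.one_le_sqrt.2 (by exact_mod_cast hm)
  | cons x u ih =>
    intro m hm
    have ih' := ih fun y hy => hu y (List.mem_cons_of_mem _ hy)
    have hx := hu x List.mem_cons_self
    rw [trunc]
    refine (norm_sum_le_of_le _ fun j hj => letter_bd hx (mem_Ico.1 hj).1 (ih' j (mem_Ico.1 hj).1)).trans ?_
    rw [← mul_sum]
    obtain ⟨k, rfl⟩ : ∃ k, m = k + 1 := ⟨m - 1, by omega⟩
    have h1 := sum_inv_sqrt k
    have h2 : √(k : ℝ) ≤ √((k + 1 : ℕ) : ℝ) := Real.sqrt_le_sqrt (by push_cast; linarith)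
    rw [List.length_cons, pow_succ]
    have h3 : (0 : ℝ) ≤ 2 ^ u.length := by positivity
    calc _ ≤ 2 ^ u.length * (2 * √(k : ℝ)) := mul_le_mul_of_nonneg_left h1 h3
      _ ≤ 2 ^ u.length * (2 * √((k + 1 : ℕ) : ℝ)) := by gcongr
      _ = _ := by ring

lemma trunc_diff (u : List (ℕ × ℂ)) (hu : Pn u) {j : ℕ} (hj : 1 ≤ j) :
    ‖trunc u (j + 1) - trunc u j‖ ≤ 2 ^ u.length * (1 / √(j : ℝ)) := by
  cases u with
  | nil =>
    rw [trunc, trunc, sub_self, norm_zero]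
    positivity
  | cons x u =>
    have hx := hu x List.mem_cons_self
    have hu' : Pn u := fun y hy => hu y (List.mem_cons_of_mem _ hy)
    rw [trunc, trunc, sum_Ico_succ_top hj, add_sub_cancel_left]
    refine (letter_bd hx hj (trunc_bd u hu' j hj)).trans ?_
    refine mul_le_mul_of_nonneg_right ?_ (by positivity)
    rw [List.length_cons]
    exact pow_le_pow_right₀ (by norm_num) (by omega)

lemma summ32 : Summable fun j : ℕ => √(j : ℝ) / (j : ℝ) ^ 2 := by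
  refine (Real.summable_one_div_nat_rpow.2 (by norm_num : (1 : ℝ) < 3 / 2)).congr fun j => ?_
  rcases Nat.eq_zero_or_pos j with rfl | hj
  · simp
  · have hj0 : (0 : ℝ) < j := by exact_mod_cast hj
    rw [Real.sqrt_eq_rpow, ← Real.rpow_natCast, ← Real.rpow_sub hj0, one_div, ← Real.rpow_neg hj0.le]
    norm_num

/-- partial sums from one of a summable sequence -/
lemma tendsto_Ico {f : ℕ → ℂ} (hf : Summable f) : Tendsto (fun m => ∑ j ∈ Ico 1 m, f j) atTop (𝓝 (∑' j, f j - f 0)) := by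
  have h1 := hf.hasSum.tendsto_sum_nat.sub_const (f 0)
  refine h1.congr' ?_
  filter_upwards [eventually_ge_atTop 1] with m hm
  rw [range_eq_Ico, sum_eq_sum_Ico_succ_bot (by omega : 0 < m)]
  ring

lemma cv_two {a : ℕ} (ha : 2 ≤ a) {z : ℂ} (hz : ‖z‖ = 1) {u : List (ℕ × ℂ)} (hu : Pn u) :
    ∃ c : ℂ, Tendsto (trunc ((a, z) :: u)) atTop (𝓝 c) := by
  refine ⟨_, tendsto_Ico (f := fun j => z ^ j / (j : ℂ) ^ a * trunc u j) ?_⟩
  refine Summable.of_norm_bounded_eventually_nat (summ32.mul_left ((2 : ℝ) ^ u.length)) ?_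
  filter_upwards [eventually_ge_atTop 1] with j hj
  have hj0 : (0 : ℝ) < j := by exact_mod_cast hj
  have hj1 : (1 : ℝ) ≤ j := by exact_mod_cast hj
  rw [norm_mul, norm_div, norm_pow, hz, one_pow, norm_pow, Complex.norm_natCast]
  have h1 : (1 : ℝ) / (j : ℝ) ^ a ≤ 1 / (j : ℝ) ^ 2 := by
    refine one_div_le_one_div_of_le (by positivity) ?_
    exact pow_le_pow_right₀ hj1 ha
  calc _ ≤ 1 / (j : ℝ) ^ 2 * (2 ^ u.length * √(j : ℝ)) :=
        mul_le_mul h1 (trunc_bd u hu j hj) (norm_nonneg _) (by positivity)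
    _ = _ := by ring

lemma abel_id (z : ℂ) (b : ℕ → ℂ) (m : ℕ) : ∑ j ∈ Ico 1 (m + 1), z ^ j * b j =
    (∑ i ∈ Ico 1 (m + 1), z ^ i) * b (m + 1) -
      ∑ j ∈ Ico 1 (m + 1), (∑ i ∈ Ico 1 (j + 1), z ^ i) * (b (j + 1) - b j) := by
  induction m with
  | zero => simp
  | succ m ih =>
    rw [sum_Ico_succ_top (by omega : 1 ≤ m + 1), ih, sum_Ico_succ_top (by omega : 1 ≤ m + 1) (fun i => z ^ i),
      sum_Ico_succ_top (by omega : 1 ≤ m + 1) (fun j => (∑ i ∈ Ico 1 (j + 1), z ^ i) * (b (j + 1) - b j)),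
      sum_Ico_succ_top (by omega : 1 ≤ m + 1) (fun i => z ^ i)]
    ring

lemma geom_bd {z : ℂ} (hz : ‖z‖ = 1) (hz1 : z ≠ 1) (m : ℕ) : ‖∑ i ∈ Ico 1 (m + 1), z ^ i‖ ≤ 2 / ‖z - 1‖ := by
  have h0 : z - 1 ≠ 0 := sub_ne_zero.2 hz1
  have h1 : ∑ i ∈ Ico 1 (m + 1), z ^ i = z * (z ^ m - 1) / (z - 1) := by
    rw [sum_Ico_eq_sum_range, Nat.add_sub_cancel]
    simp only [pow_add, pow_one]
    rw [← mul_sum, geom_sum_eq hz1, mul_div_assoc]
  rw [h1, norm_div, norm_mul, hz, one_mul]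
  refine div_le_div_of_nonneg_right ?_ (norm_nonneg _)
  refine (norm_sub_le _ _).trans ?_
  rw [norm_pow, hz, one_pow, norm_one]
  norm_num

lemma cv_one {z : ℂ} (hz : ‖z‖ = 1) (hz1 : z ≠ 1) {u : List (ℕ × ℂ)} (hu : Pn u) :
    ∃ c : ℂ, Tendsto (trunc ((1, z) :: u)) atTop (𝓝 c) := by
  set b : ℕ → ℂ := fun j => trunc u j / (j : ℂ) with hb
  set B : ℝ := 2 / ‖z - 1‖ with hB
  have hB0 : 0 ≤ B := by positivity
  set f : ℕ → ℂ := fun j => (∑ i ∈ Ico 1 (j + 1), z ^ i) * (b (j + 1) - b j) with hf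
  have hsum : Summable f := by
    refine Summable.of_norm_bounded_eventually_nat (summ32.mul_left (B * ((2 : ℝ) ^ u.length * 2))) ?_
    filter_upwards [eventually_ge_atTop 1] with j hj
    have hj0 : (0 : ℝ) < j := by exact_mod_cast hj
    have hjc : (j : ℂ) ≠ 0 := by exact_mod_cast (by omega : j ≠ 0)
    have hjc1 : (j : ℂ) + 1 ≠ 0 := by exact_mod_cast (by omega : j + 1 ≠ 0)
    have e1 : b (j + 1) - b j = (trunc u (j + 1) - trunc u j) / ((j + 1 : ℕ) : ℂ) -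
        trunc u j / ((j : ℂ) * ((j + 1 : ℕ) : ℂ)) := by
      rw [hb]
      simp only
      push_cast
      field_simp
      ring
    have e2 : ‖b (j + 1) - b j‖ ≤ 2 ^ u.length * 2 * (√(j : ℝ) / (j : ℝ) ^ 2) := by
      rw [e1]
      refine (norm_sub_le _ _).trans ?_
      rw [norm_div, norm_div, norm_mul, Complex.norm_natCast, Complex.norm_natCast]
      have g1 := trunc_diff u hu hj
      have g2 := trunc_bd u hu j hj
      have g3 : (j : ℝ) ≤ ((j + 1 : ℕ) : ℝ) := by push_cast; linarith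
      have g4 : ‖trunc u (j + 1) - trunc u j‖ / ((j + 1 : ℕ) : ℝ) ≤ 2 ^ u.length * (1 / √(j : ℝ)) / j :=
        div_le_div₀ (by positivity) g1 hj0 g3
      have g5 : ‖trunc u j‖ / ((j : ℝ) * ((j + 1 : ℕ) : ℝ)) ≤ 2 ^ u.length * √(j : ℝ) / ((j : ℝ) * j) :=
        div_le_div₀ (by positivity) g2 (by positivity) (mul_le_mul_of_nonneg_left g3 hj0.le)
      refine (add_le_add g4 g5).trans (le_of_eq ?_)
      rw [← Real.sqrt_div_self']
      field_simp
      ring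
    rw [hf, norm_mul]
    calc _ ≤ B * (2 ^ u.length * 2 * (√(j : ℝ) / (j : ℝ) ^ 2)) :=
          mul_le_mul (geom_bd hz hz1 j) e2 (norm_nonneg _) hB0
      _ = _ := by ring
  have hb0 : Tendsto (fun m : ℕ => (∑ i ∈ Ico 1 (m + 1), z ^ i) * b (m + 1)) atTop (𝓝 0) := by
    have h1 : Tendsto (fun m : ℕ => B * (2 ^ u.length * (1 / √((m + 1 : ℕ) : ℝ)))) atTop (𝓝 0) := by
      have h2 : Tendsto (fun m : ℕ => √((m + 1 : ℕ) : ℝ)) atTop atTop := by
        refine Real.tendsto_sqrt_atTop.comp ?_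
        exact (tendsto_natCast_atTop_atTop (R := ℝ)).comp (tendsto_add_atTop_nat 1)
      have h3 := ((tendsto_const_nhds (x := (1 : ℝ))).div_atTop h2).const_mul ((2 : ℝ) ^ u.length)
      have h4 := h3.const_mul B
      simpa using h4
    refine squeeze_zero_norm (fun m => ?_) h1
    rw [norm_mul, hb]
    simp only
    rw [norm_div, Complex.norm_natCast]
    refine mul_le_mul (geom_bd hz hz1 m) ?_ (by positivity) hB0
    have hj0 : (0 : ℝ) < ((m + 1 : ℕ) : ℝ) := by positivity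
    rw [← Real.sqrt_div_self', ← mul_div_assoc]
    exact div_le_div_of_nonneg_right (trunc_bd u hu (m + 1) (by omega)) hj0.le
  have h6 : ∀ m, trunc ((1, z) :: u) (m + 1) = (∑ i ∈ Ico 1 (m + 1), z ^ i) * b (m + 1) -
      ∑ j ∈ Ico 1 (m + 1), f j := by
    intro m
    rw [trunc, hf, ← abel_id z b m]
    refine sum_congr rfl fun j _ => ?_
    rw [hb]
    simp only [pow_one]
    ring
  refine ⟨0 - (∑' j, f j - f 0), ?_⟩
  rw [← tendsto_add_atTop_iff_nat 1]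
  simp only [h6]
  exact hb0.sub ((tendsto_Ico hsum).comp (tendsto_add_atTop_nat 1))

/-- admissible words -/
def Am : List (ℕ × ℂ) → Prop
  | [] => True
  | x :: u => (x.1 = 1 → x.2 ≠ 1) ∧ Pn (x :: u)

lemma Am.cv {w : List (ℕ × ℂ)} (h : Am w) : ∃ c : ℂ, Tendsto (trunc w) atTop (𝓝 c) := by
  cases w with
  | nil => exact ⟨1, tendsto_const_nhds⟩
  | cons x u =>
    obtain ⟨a, z⟩ := x
    obtain ⟨h1, h2⟩ := h
    obtain ⟨h3, h4⟩ := h2 (a, z) List.mem_cons_self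
    have hu : Pn u := fun y hy => h2 y (List.mem_cons_of_mem _ hy)
    rcases Nat.lt_or_ge a 2 with h5 | h5
    · have h6 : a = 1 := by
        simp only at h3
        omega
      subst h6
      exact cv_one h4 (h1 rfl) hu
    · exact cv_two h5 h4 hu

lemma Am.Cv {w : List (ℕ × ℂ)} (h : Am w) : Cv w := by
  intro q hq
  refine Am.cv ?_
  obtain ⟨r, rfl⟩ := hq
  cases q with
  | nil => trivial
  | cons x u =>
    rw [List.cons_append] at h
    exact ⟨h.1, fun y hy => h.2 y (by rw [← List.cons_append]; exact List.mem_append_left _ hy)⟩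

end Pool.Agent.H43L
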