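import Pool.Agent.H43L.An
import Pool.Agent.H43L.Cv
import Pool.Agent.X90.DM.Gen

/-!
# The relations between the values with one large argument
-/

set_option autoImplicit false

namespace Pool.Agent.H43L

open Finset Filter Topology
open Pool.Agent.X90.DM (trunc R trunc_app li Cv Ru Cl Cl_li gen)

variable {G : Type} [AddCommMonoid G] (χ : Chr G)

/-- the word with one large letter -/
def wd (s : ℕ) (i : Px G) : List (ℕ × ℂ) := mp χ i.1 ++ (s + i.2.2.1, χ.toFun i.2.1) :: mp χ i.2.2.2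

lemma trunc_wd (s : ℕ) (i : Px G) (L : ℕ) : trunc (wd χ s i) L =
    ∑ l ∈ Ico 1 L, R (mp χ i.1) l L * ex χ i.2 l / (l : ℂ) ^ s := by
  rw [wd, trunc_app]
  refine sum_congr rfl fun l _ => ?_
  rw [ex]
  simp only [pow_add]
  ring

lemma pn_mp (hχ : ∀ k, ‖χ.toFun k‖ = 1) {u : Wd G} (hu : PW u) : Pn (mp χ u) := by
  intro x hx
  obtain ⟨y, hy, rfl⟩ := List.mem_map.1 hx
  exact ⟨hu y hy, hχ _⟩

lemma ex_bd (hχ : ∀ k, ‖χ.toFun k‖ = 1) {x : Xx G} (hx : PX x) {l : ℕ} (hl : 1 ≤ l) :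
    ‖ex χ x l‖ ≤ 2 ^ (mp χ x.2.2).length * √(l : ℝ) := by
  have h1 := trunc_bd (mp χ x.2.2) (pn_mp χ hχ hx) l hl
  have hl1 : (1 : ℝ) ≤ l := by exact_mod_cast hl
  rw [ex, norm_mul, norm_div, norm_pow, hχ, one_pow, norm_pow, Complex.norm_natCast]
  have h2 : (1 : ℝ) / (l : ℝ) ^ x.2.1 ≤ 1 := by
    rw [div_le_one (by positivity)]
    exact one_le_pow₀ hl1
  calc _ ≤ 1 * ‖trunc (mp χ x.2.2) l‖ := mul_le_mul_of_nonneg_right h2 (norm_nonneg _)
    _ ≤ _ := by rwa [one_mul]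

lemma nrm (l : ℕ) : ‖(l : ℂ) + 1‖ = (l : ℝ) + 1 := by
  rw [← Nat.cast_one, ← Nat.cast_add, Complex.norm_natCast]
  push_cast
  rfl

lemma ex_summ (hχ : ∀ k, ‖χ.toFun k‖ = 1) {x : Xx G} (hx : PX x) {s : ℕ} (hs : 2 ≤ s) :
    Summable fun l : ℕ => ‖ex χ x (l + 1)‖ / ((l : ℝ) + 1) ^ s := by
  have h1 := ((summable_nat_add_iff 1).2 summ32).mul_left ((2 : ℝ) ^ (mp χ x.2.2).length)
  refine Summable.of_nonneg_of_le (fun l => by positivity) (fun l => ?_) h1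
  have h2 := ex_bd χ hχ hx (show 1 ≤ l + 1 by omega)
  push_cast at h2 ⊢
  have h3 : ((l : ℝ) + 1) ^ 2 ≤ ((l : ℝ) + 1) ^ s :=
    pow_le_pow_right₀ (by linarith [(Nat.cast_nonneg l : (0 : ℝ) ≤ l)]) hs
  calc _ ≤ 2 ^ (mp χ x.2.2).length * √((l : ℝ) + 1) / ((l : ℝ) + 1) ^ 2 :=
        div_le_div₀ (by positivity) h2 (by positivity) h3
    _ = _ := by ring

/-- the Dirichlet series of the functions -/
noncomputable def DD (x : Xx G) (s : ℕ) : ℂ := ∑' l : ℕ, ex χ x (l + 1) / ((l : ℂ) + 1) ^ s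

lemma DD_summ (hχ : ∀ k, ‖χ.toFun k‖ = 1) {x : Xx G} (hx : PX x) {s : ℕ} (hs : 2 ≤ s) :
    Summable fun l : ℕ => ex χ x (l + 1) / ((l : ℂ) + 1) ^ s := by
  refine Summable.of_norm_bounded (ex_summ χ hχ hx hs) fun l => ?_
  rw [norm_div, norm_pow, nrm]

lemma DD_tendsto (hχ : ∀ k, ‖χ.toFun k‖ = 1) {x : Xx G} (hx : PX x) {s : ℕ} (hs : 2 ≤ s) :
    Tendsto (fun L => ∑ l ∈ Ico 1 L, ex χ x l / (l : ℂ) ^ s) atTop (𝓝 (DD χ x s)) := by
  rw [← tendsto_add_atTop_iff_nat 1]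
  refine (DD_summ χ hχ hx hs).hasSum.tendsto_sum_nat.congr fun L => ?_
  rw [sum_Ico_eq_sum_range, Nat.add_sub_cancel]
  refine sum_congr rfl fun l _ => ?_
  rw [add_comm 1 l]
  push_cast
  rfl

section
variable (hχ : ∀ k, ‖χ.toFun k‖ = 1) (I : Finset (Px G)) (hI : Closed I)
  (P : (↥I → ℚ) →ₗ[ℚ] (↥I → ℚ)) (hP : ∀ (c : ↥I → ℚ) (m L : ℕ), 1 ≤ m → m + 1 ≤ L →
      ∑ i : ↥I, (c i : ℂ) * (R (mp χ i.1.1) m L * ex χ i.1.2 m) =
        ∑ i : ↥I, (P c i : ℂ) * (trunc (mp χ i.1.1) L * ex χ i.1.2 m))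
  (Z : Wd G → ℂ) (hZ : ∀ i ∈ I, Tendsto (trunc (mp χ i.1)) atTop (𝓝 (Z i.1)))
include hχ hI hP hZ

lemma val_tendsto (c : ↥I → ℚ) {s : ℕ} (hs : 2 ≤ s) :
    Tendsto (fun L => ∑ i : ↥I, (c i : ℂ) * trunc (wd χ s i.1) L) atTop
      (𝓝 (∑ i : ↥I, (P c i : ℂ) * (Z i.1.1 * DD χ i.1.2 s))) := by
  have h1 : ∀ L : ℕ, ∑ i : ↥I, (c i : ℂ) * trunc (wd χ s i.1) L =
      ∑ i : ↥I, (P c i : ℂ) * (trunc (mp χ i.1.1) L * ∑ l ∈ Ico 1 L, ex χ i.1.2 l / (l : ℂ) ^ s) := by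
    intro L
    simp only [trunc_wd, mul_sum]
    rw [sum_comm, sum_comm (s := univ)]
    refine sum_congr rfl fun l hl => ?_
    rw [mem_Ico] at hl
    have h2 := hP c l L hl.1 (by omega)
    calc _ = (∑ i : ↥I, (c i : ℂ) * (R (mp χ i.1.1) l L * ex χ i.1.2 l)) / (l : ℂ) ^ s := by
          rw [sum_div]
          exact sum_congr rfl fun i _ => by ring
      _ = _ := by
          rw [h2, sum_div]
          exact sum_congr rfl fun i _ => by ring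
  simp only [h1]
  refine tendsto_finsetSum _ fun i _ => Tendsto.const_mul _ ?_
  exact (hZ i.1 i.2).mul (DD_tendsto χ hχ (hI.pos i.1 i.2).2 hs)

lemma wd_tendsto (i : ↥I) {s : ℕ} (hs : 2 ≤ s) : Tendsto (trunc (wd χ s i.1)) atTop (𝓝 (li (wd χ s i.1))) := by
  classical
  have h1 := val_tendsto χ hχ I hI P hP Z hZ (Pi.single i 1) hs
  have h2 : ∀ L, ∑ j : ↥I, ((Pi.single i (1 : ℚ) : ↥I → ℚ) j : ℂ) * trunc (wd χ s j.1) L =
      trunc (wd χ s i.1) L := by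
    intro L
    rw [sum_eq_single i]
    · simp
    · intro j _ hj
      rw [Pi.single_eq_of_ne hj]
      simp
    · intro h
      exact absurd (mem_univ _) h
  simp only [h2] at h1
  rw [li]
  exact tendsto_nhds_limUnder ⟨_, h1⟩

/-- **the values** -/
lemma val_eq (c : ↥I → ℚ) {s : ℕ} (hs : 2 ≤ s) : ∑ i : ↥I, (c i : ℂ) * li (wd χ s i.1) =
    ∑ i : ↥I, (P c i : ℂ) * (Z i.1.1 * DD χ i.1.2 s) := by
  have h1 := val_tendsto χ hχ I hI P hP Z hZ c hs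
  have h2 : Tendsto (fun L => ∑ i : ↥I, (c i : ℂ) * trunc (wd χ s i.1) L) atTop
      (𝓝 (∑ i : ↥I, (c i : ℂ) * li (wd χ s i.1))) :=
    tendsto_finsetSum _ fun i _ => (wd_tendsto χ hχ I hI P hP Z hZ i hs).const_mul _
  exact tendsto_nhds_unique h2 h1

/-- **the identities** -/
lemma formal_iff (hinj : Set.InjOn (fun x : Xx G => (χ.toFun x.1, x.2.1, mp χ x.2.2)) (XI I : Set (Xx G)))
    (c : ↥I → ℚ) {σ : ℕ} (hσ : 2 ≤ σ) :
    (∀ s, σ ≤ s → ∑ i : ↥I, (c i : ℂ) * li (wd χ s i.1) = 0) ↔ evz I Z (P c) = 0 := by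
  classical
  have hX : ∀ i : ↥I, i.1.2 ∈ XI I := fun i => mem_image.2 ⟨i.1, i.2, rfl⟩
  have hev : ∀ x : ↥(XI I), ((evz I Z (P c) x : ↥(SZ I Z x.1)) : ℂ) =
      ∑ i : ↥I with i.1.2 = x.1, (P c i : ℂ) * Z i.1.1 := by
    intro x
    show ∑ i : ↥I with i.1.2 = x.1, P c i • Z i.1.1 = _
    exact sum_congr rfl fun i _ => by rw [Rat.smul_def]
  have hgrp : ∀ f : Xx G → ℂ, ∑ i : ↥I, (P c i : ℂ) * (Z i.1.1 * f i.1.2) =
      ∑ x ∈ XI I, (∑ i : ↥I with i.1.2 = x, (P c i : ℂ) * Z i.1.1) * f x := by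
    intro f
    rw [← sum_fiberwise_of_maps_to (s := (univ : Finset ↥I)) (t := XI I) (g := fun i => i.1.2)
      (fun i _ => hX i)]
    refine sum_congr rfl fun x _ => ?_
    rw [sum_mul]
    refine sum_congr rfl fun i hi => ?_
    rw [(mem_filter.1 hi).2]
    ring
  constructor
  · intro h
    set F : ℕ → ℂ := fun l => ∑ i : ↥I, (P c i : ℂ) * (Z i.1.1 * ex χ i.1.2 l) with hF
    have hFs : ∀ s, 2 ≤ s → HasSum (fun l : ℕ => F (l + 1) / ((l : ℂ) + 1) ^ s)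
        (∑ i : ↥I, (P c i : ℂ) * (Z i.1.1 * DD χ i.1.2 s)) := by
      intro s hs
      have h1 : ∀ l : ℕ, F (l + 1) / ((l : ℂ) + 1) ^ s =
          ∑ i : ↥I, (P c i : ℂ) * (Z i.1.1 * (ex χ i.1.2 (l + 1) / ((l : ℂ) + 1) ^ s)) := by
        intro l
        rw [hF]
        simp only
        rw [sum_div]
        exact sum_congr rfl fun i _ => by ring
      simp only [h1]
      refine hasSum_sum fun i _ => ?_
      exact ((DD_summ χ hχ (hI.pos i.1 i.2).2 hs).hasSum.mul_left _).mul_left _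
    have hsum : Summable fun l : ℕ => ‖F (l + 1)‖ / ((l : ℝ) + 1) ^ σ := by
      have h1 : Summable fun l : ℕ => ∑ i : ↥I, ‖(P c i : ℂ) * Z i.1.1‖ *
          (‖ex χ i.1.2 (l + 1)‖ / ((l : ℝ) + 1) ^ σ) :=
        summable_sum fun i _ => (ex_summ χ hχ (hI.pos i.1 i.2).2 hσ).mul_left _
      refine Summable.of_nonneg_of_le (fun l => by positivity) (fun l => ?_) h1
      rw [hF]
      simp only
      have h2 : ‖∑ i : ↥I, (P c i : ℂ) * (Z i.1.1 * ex χ i.1.2 (l + 1))‖ ≤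
          ∑ i : ↥I, ‖(P c i : ℂ) * Z i.1.1‖ * ‖ex χ i.1.2 (l + 1)‖ := by
        refine (norm_sum_le _ _).trans (le_of_eq ?_)
        exact sum_congr rfl fun i _ => by rw [← norm_mul, mul_assoc]
      calc _ ≤ (∑ i : ↥I, ‖(P c i : ℂ) * Z i.1.1‖ * ‖ex χ i.1.2 (l + 1)‖) / ((l : ℝ) + 1) ^ σ :=
            div_le_div_of_nonneg_right h2 (by positivity)
        _ = _ := by
            rw [sum_div]
            exact sum_congr rfl fun i _ => by ring
    have h2 := dir_unique F σ hsum fun s hs => by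
      rw [(hFs s (hσ.trans hs)).tsum_eq, ← val_eq χ hχ I hI P hP Z hZ c (hσ.trans hs)]
      exact h s hs
    have h3 := ex_indep χ (XI I) (fun x hx => by
        obtain ⟨i, hi, rfl⟩ := mem_image.1 hx
        exact (hI.pos i hi).2) (fun k h0 => by
        have := hχ k
        rw [h0, norm_zero] at this
        exact zero_ne_one this) hinj (fun x => ∑ i : ↥I with i.1.2 = x, (P c i : ℂ) * Z i.1.1) (fun m hm => by
        rw [← hgrp fun x => ex χ x m]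
        exact h2 m hm)
    funext x
    ext
    rw [hev x]
    exact h3 x.1 x.2
  · intro h s hs
    rw [val_eq χ hχ I hI P hP Z hZ c (hσ.trans hs), hgrp fun x => DD χ x s]
    refine sum_eq_zero fun x hx => ?_
    rw [← hev ⟨x, hx⟩, h]
    simp

end

lemma common_den {κ : Type} [Fintype κ] (a : κ → ℚ) : ∃ Δ : ℕ, Δ ≠ 0 ∧ ∃ z : κ → ℤ,
    ∀ k, (Δ : ℚ) * a k = z k := by
  classical
  refine ⟨∏ k, (a k).den, prod_ne_zero_iff.2 fun k _ => (a k).den_ne_zero,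
    fun k => (∏ i ∈ univ.erase k, ((a i).den : ℤ)) * (a k).num, fun k => ?_⟩
  rw [← prod_erase_mul univ _ (mem_univ k)]
  push_cast
  rw [mul_assoc, Rat.den_mul_eq_num]

/-- a subspace is spanned by integer vectors of bounded height -/
lemma span_int {σ : Type} [Fintype σ] (R : Submodule ℚ (σ → ℚ)) : ∃ H0 : ℝ, 0 ≤ H0 ∧
    R ≤ Submodule.span ℚ {c | c ∈ R ∧ ∀ i, ∃ z : ℤ, c i = z ∧ |(z : ℝ)| ≤ H0} := by
  classical
  obtain ⟨S, hS⟩ := IsNoetherian.noetherian R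
  have h1 : ∀ v : σ → ℚ, ∃ (Δ : ℕ) (a : σ → ℤ), Δ ≠ 0 ∧ ∀ i, (Δ : ℚ) * v i = a i := by
    intro v
    obtain ⟨Δ, hΔ, a, ha⟩ := common_den v
    exact ⟨Δ, a, hΔ, ha⟩
  choose Δ a hΔ ha using h1
  refine ⟨∑ v ∈ S, ∑ i, |(a v i : ℝ)|, by positivity, ?_⟩
  conv_lhs => rw [← hS]
  rw [Submodule.span_le]
  intro v hv
  have hvR : v ∈ R := by
    rw [← hS]
    exact Submodule.subset_span hv
  have hΔ' : (Δ v : ℚ) ≠ 0 := by exact_mod_cast hΔ v
  have h2 : v = (Δ v : ℚ)⁻¹ • fun i => (a v i : ℚ) := by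
    funext i
    rw [Pi.smul_apply, smul_eq_mul, ← ha v i, inv_mul_cancel_left₀ hΔ']
  rw [SetLike.mem_coe]
  suffices hs : (fun i => (a v i : ℚ)) ∈
      Submodule.span ℚ {c | c ∈ R ∧ ∀ i, ∃ z : ℤ, c i = z ∧ |(z : ℝ)| ≤
        ∑ v ∈ S, ∑ i, |(a v i : ℝ)|} by
    have h5 := Submodule.smul_mem _ (Δ v : ℚ)⁻¹ hs
    rwa [← h2] at h5
  refine Submodule.subset_span ⟨?_, fun i => ⟨a v i, rfl, ?_⟩⟩
  · have h3 : (fun i => (a v i : ℚ)) = (Δ v : ℚ) • v := by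
      funext i
      rw [Pi.smul_apply, smul_eq_mul, ha v i]
    rw [h3]
    exact Submodule.smul_mem _ _ hvR
  · have h3 := single_le_sum (f := fun i => |(a v i : ℝ)|) (fun _ _ => abs_nonneg _) (mem_univ i)
    have h4 := single_le_sum (f := fun v => ∑ i, |(a v i : ℝ)|) (fun _ _ => by positivity)
      (mem_coe.1 hv)
    exact h3.trans h4

/-- the span of the relations of bounded height -/
noncomputable def relI (I : Finset (Px G)) (s : ℕ) (H : ℝ) : Submodule ℚ (↥I → ℚ) :=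
  Submodule.span ℚ {c | (∀ i, ∃ z : ℤ, c i = z ∧ |(z : ℝ)| ≤ H) ∧ ∑ i, (c i : ℂ) * li (wd χ s i.1) = 0}

/-- a linear form -/
noncomputable def lf {r : ℕ} (z : Fin r → ℤ) : MvPolynomial (Fin 0 ⊕ Fin r) ℤ :=
  ∑ j, MvPolynomial.C (z j) * MvPolynomial.X (Sum.inr j)

lemma lf_deg {r : ℕ} (z : Fin r → ℤ) : (lf z).totalDegree ≤ 1 := by
  refine MvPolynomial.totalDegree_finsetSum_le fun j _ => ?_
  refine (MvPolynomial.totalDegree_mul _ _).trans ?_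
  rw [MvPolynomial.totalDegree_C, MvPolynomial.totalDegree_X]

lemma lf_coeff {r : ℕ} (z : Fin r → ℤ) {H : ℝ} (hH : 0 ≤ H) (h : ∀ j, |(z j : ℝ)| ≤ H) (m : Fin 0 ⊕ Fin r →₀ ℕ) :
    |(((lf z).coeff m : ℤ) : ℝ)| ≤ H := by
  classical
  rw [lf, MvPolynomial.coeff_sum]
  simp only [MvPolynomial.coeff_C_mul, MvPolynomial.coeff_X]
  by_cases hm : ∃ j0 : Fin r, Finsupp.single (Sum.inr j0 : Fin 0 ⊕ Fin r) 1 = m
  · obtain ⟨j0, rfl⟩ := hm
    rw [sum_eq_single j0]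
    · rw [if_pos rfl, mul_one]
      exact h j0
    · intro j _ hj
      rw [if_neg, mul_zero]
      intro h1
      apply hj
      have h2 := Finsupp.single_left_injective (one_ne_zero (α := ℕ)) h1
      exact Sum.inr_injective h2
    · intro h1
      exact absurd (mem_univ _) h1
  · push Not at hm
    rw [sum_eq_zero, Int.cast_zero, abs_zero]
    · exact hH
    · intro j _
      rw [if_neg (hm j), mul_zero]

lemma lf_eval {r : ℕ} (z : Fin r → ℤ) (x : Fin 0 → ℂ) (y : Fin r → ℂ) :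
    MvPolynomial.aeval (Sum.elim x y) (lf z) = ∑ j, (z j : ℂ) * y j := by
  rw [lf, map_sum]
  refine sum_congr rfl fun j _ => ?_
  rw [map_mul, MvPolynomial.aeval_C, MvPolynomial.aeval_X, Sum.elim_inr]
  rfl

/-- **the space of relations, for almost all arguments** -/
theorem mainG (n : ℕ) (hn : 1 ≤ n) (hru : ∀ k, χ.toFun k ^ n = 1) (I : Finset (Px G)) (hI : Closed I)
    (hinj : Set.InjOn (fun x : Xx G => (χ.toFun x.1, x.2.1, mp χ x.2.2)) (XI I : Set (Xx G)))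
    (hA : ∀ i ∈ I, Am (mp χ i.1)) :
    ∃ Rs : Submodule ℚ (↥I → ℚ), Module.finrank ℚ Rs +
      ∑ x ∈ XI I, Module.finrank ℚ (SZ I (fun p => li (mp χ p)) x) = I.card ∧
      ∀ ε : ℝ, 0 < ε → ∃ δ0 : ℝ, 0 < δ0 ∧ ∀ δ : ℝ, 0 < δ → δ ≤ δ0 → ∃ M0 : ℕ, ∀ M : ℕ, M0 ≤ M →
        (({s : ℕ | s ≤ M ∧ relI χ I s (Real.exp (δ * M)) ≠ Rs}.ncard : ℕ) : ℝ) ≤ ε * M := by
  classical
  have hχ : ∀ k, ‖χ.toFun k‖ = 1 := fun k => Complex.norm_eq_one_of_pow_eq_one (hru k) (by omega)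
  obtain ⟨P, hPinj, hP⟩ := expand χ I hI
  set Z : Wd G → ℂ := fun p => li (mp χ p) with hZdef
  have hZ : ∀ i ∈ I, Tendsto (trunc (mp χ i.1)) atTop (𝓝 (Z i.1)) := fun i hi => by
    simp only [hZdef, li]
    exact tendsto_nhds_limUnder (hA i hi).cv
  refine ⟨LinearMap.ker ((evz I Z).comp P), rank_rel I Z P hPinj, fun ε hε => ?_⟩
  obtain ⟨H0, hH0, hspan⟩ := span_int (LinearMap.ker ((evz I Z).comp P))
  set σ : ℕ := ∑ i : ↥I, ((mp χ i.1.1).length + (mp χ i.1.2.2.2).length) + 2 with hσ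
  set e := I.equivFin with he
  have hCl : ∀ i : ↥I, Cl σ fun s => li (wd χ s i.1) := by
    intro i
    have h1 := Cl_li hn (mp χ i.1.1) (mp χ i.1.2.2.2) i.1.2.2.1 (χ.toFun i.1.2.1) (hru _) (fun x hx => by
      obtain ⟨y, -, rfl⟩ := List.mem_map.1 hx
      exact hru _) (hA i.1 i.2).Cv (fun x hx => by
      obtain ⟨y, -, rfl⟩ := List.mem_map.1 hx
      exact hru _)
    refine Pool.Agent.X90.DM.Cl.mono ?_ h1
    have h2 := single_le_sum (f := fun i : ↥I => (mp χ i.1.1).length + (mp χ i.1.2.2.2).length)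
      (fun _ _ => Nat.zero_le _) (mem_univ i)
    rw [hσ]
    exact Nat.add_le_add_right h2 2
  obtain ⟨δ0, hδ0, N0, hgen⟩ := gen 0 1 I.card 1 le_rfl σ (fun i => i.elim0) (fun _ => 0)
    (fun j s => li (wd χ s (e.symm j).1)) (fun j => hCl _) (ε / 2) (by positivity)
  refine ⟨δ0, hδ0, fun δ hδ hδ' => ?_⟩
  obtain ⟨M1, hM1⟩ : ∃ M1 : ℕ, ∀ M : ℕ, M1 ≤ M → H0 ≤ Real.exp (δ * M) := by
    have h1 : Tendsto (fun M : ℕ => Real.exp (δ * M)) atTop atTop :=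
      Real.tendsto_exp_atTop.comp (tendsto_natCast_atTop_atTop.const_mul_atTop hδ)
    exact eventually_atTop.1 (h1.eventually_ge_atTop H0)
  obtain ⟨M2, hM2⟩ := exists_nat_ge ((σ + 1) / (ε / 2))
  refine ⟨N0 + M1 + M2, fun M hM => ?_⟩
  have hH : H0 ≤ Real.exp (δ * M) := hM1 M (by omega)
  have hδM : Real.exp (δ * M) ≤ Real.exp (δ0 * M) := by
    rw [Real.exp_le_exp]
    exact mul_le_mul_of_nonneg_right hδ' (Nat.cast_nonneg _)
  set Bad : Set (Fin 1 → ℕ) := {s : Fin 1 → ℕ | (∀ i, σ + 1 ≤ s i ∧ s i ≤ M) ∧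
    ∃ P : MvPolynomial (Fin 0 ⊕ Fin I.card) ℤ,
        P.totalDegree ≤ 1 ∧ (∀ m, |((P.coeff m : ℤ) : ℝ)| ≤ Real.exp (δ0 * M)) ∧
        MvPolynomial.aeval (Sum.elim (fun i : Fin 0 => (i.elim0 : ℂ))
          fun j => li (wd χ (s ((fun _ => 0 : Fin I.card → Fin 1) j)) (e.symm j).1)) P = 0 ∧
        ¬ ∀ s' : Fin 1 → ℕ, (∀ i, σ + 1 ≤ s' i) →
          MvPolynomial.aeval (Sum.elim (fun i : Fin 0 => (i.elim0 : ℂ))
            fun j => li (wd χ (s' ((fun _ => 0 : Fin I.card → Fin 1) j)) (e.symm j).1)) P = 0} with hBad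
  have hcard : ((Bad.ncard : ℕ) : ℝ) ≤ ε / 2 * (M : ℝ) ^ 1 := hgen M (by omega)
  have hBfin : Bad.Finite := by
    refine ((Fintype.piFinset fun _ : Fin 1 => Finset.Iic M).finite_toSet).subset fun s hs => ?_
    rw [mem_coe, Fintype.mem_piFinset]
    intro i
    rw [Finset.mem_Iic]
    exact (hs.1 i).2
  have hsub : {s : ℕ | s ≤ M ∧ relI χ I s (Real.exp (δ * M)) ≠ LinearMap.ker ((evz I Z).comp P)} ⊆
      ((range (σ + 1) : Finset ℕ) : Set ℕ) ∪ (fun s : Fin 1 → ℕ => s 0) '' Bad := by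
    rintro s ⟨hsM, hs⟩
    by_cases hsσ : s < σ + 1
    · left
      rw [mem_coe, mem_range]
      exact hsσ
    right
    by_contra hcon
    apply hs
    have hσ2 : 2 ≤ σ + 1 := by omega
    apply le_antisymm
    · rw [relI, Submodule.span_le]
      rintro c ⟨hc1, hc2⟩
      rw [SetLike.mem_coe, LinearMap.mem_ker, LinearMap.comp_apply,
        ← formal_iff χ hχ I hI P hP Z hZ hinj c hσ2]
      choose z hz1 hz2 using hc1
      by_contra hne
      apply hcon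
      refine ⟨fun _ => s, ⟨fun _ => ⟨not_lt.1 hsσ, hsM⟩, lf fun j => z (e.symm j), lf_deg _,
        lf_coeff _ (Real.exp_pos _).le fun j => (hz2 _).trans hδM, ?_, fun h => hne fun s' hs' => ?_⟩, rfl⟩
      · rw [lf_eval, ← hc2, ← e.symm.sum_comp]
        exact sum_congr rfl fun j _ => by rw [hz1]; push_cast; rfl
      · have h1 := h (fun _ => s') fun _ => hs'
        rw [lf_eval] at h1
        rw [← h1, ← e.symm.sum_comp]
        exact sum_congr rfl fun j _ => by rw [hz1]; push_cast; rfl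
    · refine hspan.trans ?_
      rw [Submodule.span_le]
      rintro c ⟨hcR, hcz⟩
      refine Submodule.subset_span ⟨fun i => ?_, ?_⟩
      · obtain ⟨z, hz1, hz2⟩ := hcz i
        exact ⟨z, hz1, hz2.trans hH⟩
      · rw [LinearMap.mem_ker, LinearMap.comp_apply] at hcR
        exact (formal_iff χ hχ I hI P hP Z hZ hinj c hσ2).2 hcR s (by omega)
  have h1 : {s : ℕ | s ≤ M ∧ relI χ I s (Real.exp (δ * M)) ≠ LinearMap.ker ((evz I Z).comp P)}.ncard ≤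
      (σ + 1) + Bad.ncard := by
    refine (Set.ncard_le_ncard hsub ((range (σ + 1)).finite_toSet.union (hBfin.image _))).trans ?_
    refine (Set.ncard_union_le _ _).trans ?_
    rw [Set.ncard_coe_finset, card_range]
    exact Nat.add_le_add_left (Set.ncard_image_le hBfin) _
  have h2 : ((σ : ℝ) + 1) ≤ ε / 2 * M := by
    have h3 : (M2 : ℝ) ≤ M := by exact_mod_cast (by omega : M2 ≤ M)
    have h4 := hM2.trans h3
    rw [div_le_iff₀ (by positivity)] at h4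
    linarith
  have h3 : (({s : ℕ | s ≤ M ∧ relI χ I s (Real.exp (δ * M)) ≠ LinearMap.ker ((evz I Z).comp P)}.ncard : ℕ) : ℝ) ≤
      ((σ + 1) + Bad.ncard : ℕ) := by exact_mod_cast h1
  push_cast at h3
  rw [pow_one] at hcard
  linarith

end Pool.Agent.H43L
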