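import Pool.Agent.H43L.Bn

/-!
# Finite sets of words and the bridge to formal sums of words
-/

set_option autoImplicit false

namespace Pool.Agent.H43L

open Finset Filter Topology
open Pool.Agent.X90.DM (trunc R li)

/-! ### the bridge -/

/-- the span of the relations of bounded height in a family of words -/
noncomputable def relF (F : Set (List (ℕ × ℂ))) (H : ℝ) : Submodule ℚ (List (ℕ × ℂ) →₀ ℚ) :=
  Submodule.span ℚ {c | (∀ w ∈ c.support, w ∈ F) ∧ (∀ w, ∃ z : ℤ, c w = z ∧ |(z : ℝ)| ≤ H) ∧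
    c.sum (fun w x => (x : ℂ) * li w) = 0}

lemma bridge {ι : Type} [Fintype ι] (w : ι → List (ℕ × ℂ)) (hw : Function.Injective w)
    (F : Set (List (ℕ × ℂ))) (hF : ∀ v, v ∈ F ↔ ∃ i, w i = v) {H : ℝ} (hH : 0 ≤ H) :
    Module.finrank ℚ (relF F H) = Module.finrank ℚ (Submodule.span ℚ
      {c : ι → ℚ | (∀ i, ∃ z : ℤ, c i = z ∧ |(z : ℝ)| ≤ H) ∧ ∑ i, (c i : ℂ) * li (w i) = 0}) := by
  classical
  set E : (ι → ℚ) →ₗ[ℚ] (List (ℕ × ℂ) →₀ ℚ) :=
    (Finsupp.lmapDomain ℚ ℚ w).comp (Finsupp.linearEquivFunOnFinite ℚ ℚ ι).symm.toLinearMap with hE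
  have hEa : ∀ c, E c = Finsupp.mapDomain w ((Finsupp.linearEquivFunOnFinite ℚ ℚ ι).symm c) := fun c => rfl
  have hEinj : Function.Injective E := by
    intro c d h
    rw [hEa, hEa] at h
    exact (Finsupp.linearEquivFunOnFinite ℚ ℚ ι).symm.injective (Finsupp.mapDomain_injective hw h)
  have hEw : ∀ c i, E c (w i) = c i := by
    intro c i
    rw [hEa, Finsupp.mapDomain_apply hw]
    rfl
  have hEo : ∀ c v, v ∉ Set.range w → E c v = 0 := by
    intro c v hv
    rw [hEa, Finsupp.mapDomain_of_notMem_range _ _ hv]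
  have hEs : ∀ c, (E c).sum (fun w x => (x : ℂ) * li w) = ∑ i, (c i : ℂ) * li (w i) := by
    intro c
    rw [hEa, Finsupp.sum_mapDomain_index (by simp) (by
      intro b m₁ m₂
      push_cast
      ring), Finsupp.sum_fintype _ _ (by simp)]
    rfl
  have hmap : relF F H = (Submodule.span ℚ
      {c : ι → ℚ | (∀ i, ∃ z : ℤ, c i = z ∧ |(z : ℝ)| ≤ H) ∧ ∑ i, (c i : ℂ) * li (w i) = 0}).map E := by
    rw [Submodule.map_span, relF]
    congr 1
    ext c'
    constructor
    · rintro ⟨h1, h2, h3⟩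
      refine ⟨fun i => c' (w i), ⟨fun i => h2 (w i), ?_⟩, ?_⟩
      · rw [← hEs, ← h3]
        congr 1
        ext v
        by_cases hv : v ∈ Set.range w
        · obtain ⟨i, rfl⟩ := hv
          rw [hEw]
        · rw [hEo _ _ hv]
          by_contra h0
          exact hv ((hF v).1 (h1 v (Finsupp.mem_support_iff.2 fun h => h0 h.symm)))
      · ext v
        by_cases hv : v ∈ Set.range w
        · obtain ⟨i, rfl⟩ := hv
          rw [hEw]
        · rw [hEo _ _ hv]
          by_contra h0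
          exact hv ((hF v).1 (h1 v (Finsupp.mem_support_iff.2 fun h => h0 h.symm)))
    · rintro ⟨c, ⟨h1, h2⟩, rfl⟩
      refine ⟨fun v hv => ?_, fun v => ?_, ?_⟩
      · rw [hF]
        by_contra h0
        rw [Finsupp.mem_support_iff] at hv
        exact hv (hEo c v h0)
      · by_cases hv : v ∈ Set.range w
        · obtain ⟨i, rfl⟩ := hv
          rw [hEw]
          exact h1 i
        · rw [hEo _ _ hv]
          exact ⟨0, by simp, by simpa using hH⟩
      · rw [hEs, h2]
  rw [hmap]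
  exact (LinearEquiv.finrank_eq (Submodule.equivMapOfInjective _ hEinj _)).symm

/-! ### unique decomposition -/

lemma split_inj (W : ℕ) (q : List (ℕ × ℂ)) : ∀ q' r r' : List (ℕ × ℂ), ∀ x x' : ℕ × ℂ,
    (∀ t ∈ q, t.1 ≤ W) → (∀ t ∈ q', t.1 ≤ W) → W < x.1 → W < x'.1 → q ++ x :: r = q' ++ x' :: r' →
    q = q' ∧ x = x' ∧ r = r' := by
  induction q with
  | nil =>
    intro q' r r' a a' _ hq' ha _ h
    cases q' with
    | nil =>
      rw [List.nil_append, List.nil_append, List.cons.injEq] at h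
      exact ⟨rfl, h⟩
    | cons b q' =>
      rw [List.nil_append, List.cons_append, List.cons.injEq] at h
      have := hq' b List.mem_cons_self
      rw [← h.1] at this
      omega
  | cons b q ih =>
    intro q' r r' a a' hq hq' ha ha' h
    cases q' with
    | nil =>
      rw [List.nil_append, List.cons_append, List.cons.injEq] at h
      have := hq b List.mem_cons_self
      rw [h.1] at this
      omega
    | cons b' q' =>
      rw [List.cons_append, List.cons_append, List.cons.injEq] at h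
      obtain ⟨h1, h2⟩ := ih q' r r' a a' (fun t ht => hq t (List.mem_cons_of_mem _ ht))
        (fun t ht => hq' t (List.mem_cons_of_mem _ ht)) ha ha' h.2
      exact ⟨by rw [h.1, h1], h2⟩

variable {G : Type} [AddCommMonoid G] (χ : Chr G)

/-- letters with exponents in a set -/
def LK (K : Finset G) (u : Wd G) : Prop := ∀ a ∈ u, a.2 ∈ K

lemma mp_inj {K : Finset G} (hK : Set.InjOn χ.toFun (K : Set G)) : ∀ u v : Wd G, LK K u → LK K v →
    mp χ u = mp χ v → u = v := by
  intro u
  induction u with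
  | nil =>
    intro v _ _ h
    cases v with
    | nil => rfl
    | cons y v =>
      rw [mp_nil, mp_cons] at h
      exact absurd h.symm (List.cons_ne_nil _ _)
  | cons x u ih =>
    intro v hu hv h
    cases v with
    | nil =>
      rw [mp_nil, mp_cons] at h
      exact absurd h (List.cons_ne_nil _ _)
    | cons y v =>
      rw [mp_cons, mp_cons, List.cons.injEq, Prod.mk.injEq] at h
      obtain ⟨⟨h1, h2⟩, h3⟩ := h
      have h4 := hK (hu x List.mem_cons_self) (hv y List.mem_cons_self) h2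
      rw [ih v (fun a ha => hu a (List.mem_cons_of_mem _ ha)) (fun a ha => hv a (List.mem_cons_of_mem _ ha)) h3]
      rw [show x = y from Prod.ext h1 h4]

lemma le_wt {u : Wd G} {a : ℕ × G} (ha : a ∈ u) : a.1 ≤ wt u :=
  List.single_le_sum (fun _ _ => Nat.zero_le _) _ (List.mem_map_of_mem ha)

/-- index sets of given weight -/
structure Fam (K : Finset G) (W : ℕ) (I : Finset (Px G)) : Prop where
  cl : Closed I
  le : ∀ i ∈ I, wt i.1 + wx i.2 = W
  front : ∀ i ∈ I, LK K i.1
  mid : ∀ i ∈ I, i.2.1 ∈ K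
  back : ∀ i ∈ I, LK K i.2.2.2

lemma Fam.hinj {K : Finset G} (hK : Set.InjOn χ.toFun (K : Set G)) {W : ℕ} {I : Finset (Px G)} (h : Fam K W I) :
    Set.InjOn (fun x : Xx G => (χ.toFun x.1, x.2.1, mp χ x.2.2)) (XI I : Set (Xx G)) := by
  classical
  intro x hx y hy hxy
  obtain ⟨i, hi, rfl⟩ := mem_image.1 (mem_coe.1 hx)
  obtain ⟨j, hj, rfl⟩ := mem_image.1 (mem_coe.1 hy)
  simp only [Prod.mk.injEq] at hxy
  obtain ⟨h1, h2, h3⟩ := hxy
  have h4 := hK (h.mid i hi) (h.mid j hj) h1
  have h5 := mp_inj χ hK _ _ (h.back i hi) (h.back j hj) h3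
  exact Prod.ext h4 (Prod.ext h2 h5)

lemma Fam.wd_inj {K : Finset G} (hK : Set.InjOn χ.toFun (K : Set G)) {W : ℕ} {I : Finset (Px G)} (h : Fam K W I)
    {s : ℕ} (hs : W < s) : Function.Injective fun i : ↥I => wd χ s i.1 := by
  intro i j hij
  have hle : ∀ i : ↥I, ∀ t ∈ mp χ i.1.1, t.1 ≤ W := by
    intro i t ht
    obtain ⟨a, ha, rfl⟩ := List.mem_map.1 ht
    have h1 := le_wt ha
    have h2 := h.le i.1 i.2
    show a.1 ≤ W
    omega
  obtain ⟨g1, g2, g3⟩ := split_inj W _ _ _ _ _ _ (hle i) (hle j) (by show W < s + _; omega)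
    (by show W < s + _; omega) hij
  rw [Prod.mk.injEq] at g2
  have e1 := mp_inj χ hK _ _ (h.front i.1 i.2) (h.front j.1 j.2) g1
  have e2 := hK (h.mid i.1 i.2) (h.mid j.1 j.2) g2.2
  have e3 := mp_inj χ hK _ _ (h.back i.1 i.2) (h.back j.1 j.2) g3
  have e4 : i.1.2.2.1 = j.1.2.2.1 := by omega
  exact Subtype.ext (Prod.ext e1 (Prod.ext e2 (Prod.ext e4 e3)))

/-- **the space of relations in a family of words, for almost all weights** -/
theorem mainF (n : ℕ) (hn : 1 ≤ n) (hru : ∀ k, χ.toFun k ^ n = 1) {K : Finset G}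
    (hK : Set.InjOn χ.toFun (K : Set G)) {W : ℕ} {I : Finset (Px G)} (hF : Fam K W I)
    (hA : ∀ i ∈ I, Am (mp χ i.1)) (F : ℕ → Set (List (ℕ × ℂ)))
    (hFF : ∀ s, 2 ≤ s → ∀ v, v ∈ F (s + W) ↔ ∃ i : ↥I, wd χ s i.1 = v) (ε : ℝ) (hε : 0 < ε) :
    ∃ δ0 : ℝ, 0 < δ0 ∧ ∀ δ : ℝ, 0 < δ → δ ≤ δ0 → ∃ M0 : ℕ, ∀ M : ℕ, M0 ≤ M →
      (({k : ℕ | k ≤ M ∧ ¬ (Module.finrank ℚ (relF (F k) (Real.exp (δ * M))) +
        ∑ x ∈ XI I, Module.finrank ℚ (SZ I (fun p => li (mp χ p)) x) = I.card)}.ncard : ℕ) : ℝ) ≤ ε * M := by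
  obtain ⟨Rs, hRs, hmain⟩ := mainG χ n hn hru I hF.cl (hF.hinj χ hK) hA
  obtain ⟨δ0, hδ0, h1⟩ := hmain (ε / 2) (by positivity)
  refine ⟨δ0, hδ0, fun δ hδ hδ' => ?_⟩
  obtain ⟨M0, hM0⟩ := h1 δ hδ hδ'
  obtain ⟨M2, hM2⟩ := exists_nat_ge ((2 * W + 2 : ℝ) / (ε / 2))
  refine ⟨M0 + M2, fun M hM => ?_⟩
  have h2 := hM0 M (by omega)
  set H : ℝ := Real.exp (δ * M) with hH
  have hH0 : 0 ≤ H := (Real.exp_pos _).le
  set Bad : Set ℕ := {s : ℕ | s ≤ M ∧ relI χ I s H ≠ Rs} with hBad
  have hBfin : Bad.Finite := (Finset.Iic M).finite_toSet.subset fun s hs => mem_coe.2 (Finset.mem_Iic.2 hs.1)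
  have hsub : {k : ℕ | k ≤ M ∧ ¬ (Module.finrank ℚ (relF (F k) H) +
        ∑ x ∈ XI I, Module.finrank ℚ (SZ I (fun p => li (mp χ p)) x) = I.card)} ⊆
      ((range (2 * W + 2) : Finset ℕ) : Set ℕ) ∪ (fun s => s + W) '' Bad := by
    rintro k ⟨hkM, hk⟩
    by_cases hkW : k < 2 * W + 2
    · left
      rw [mem_coe, mem_range]
      exact hkW
    right
    by_contra hcon
    apply hk
    obtain ⟨s, rfl⟩ : ∃ s, k = s + W := ⟨k - W, by omega⟩
    have h3 : relI χ I s H = Rs := by
      by_contra hne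
      exact hcon ⟨s, ⟨by omega, hne⟩, rfl⟩
    rw [bridge (fun i : ↥I => wd χ s i.1) (hF.wd_inj χ hK (by omega)) (F (s + W)) (hFF s (by omega)) hH0,
      ← hRs, ← h3]
    rfl
  have h3 : {k : ℕ | k ≤ M ∧ ¬ (Module.finrank ℚ (relF (F k) H) +
        ∑ x ∈ XI I, Module.finrank ℚ (SZ I (fun p => li (mp χ p)) x) = I.card)}.ncard ≤
      (2 * W + 2) + Bad.ncard := by
    refine (Set.ncard_le_ncard hsub ((range (2 * W + 2)).finite_toSet.union (hBfin.image _))).trans ?_
    refine (Set.ncard_union_le _ _).trans ?_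
    rw [Set.ncard_coe_finset, card_range]
    exact Nat.add_le_add_left (Set.ncard_image_le hBfin) _
  have h4 : (2 * W + 2 : ℝ) ≤ ε / 2 * M := by
    have h5 : (M2 : ℝ) ≤ M := by exact_mod_cast (by omega : M2 ≤ M)
    have h6 := hM2.trans h5
    rw [div_le_iff₀ (by positivity)] at h6
    linarith
  have h5 : (({k : ℕ | k ≤ M ∧ ¬ (Module.finrank ℚ (relF (F k) H) +
        ∑ x ∈ XI I, Module.finrank ℚ (SZ I (fun p => li (mp χ p)) x) = I.card)}.ncard : ℕ) : ℝ) ≤
      ((2 * W + 2) + Bad.ncard : ℕ) := by exact_mod_cast h3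
  push_cast at h5
  linarith

/-! ### the sums of the dimensions -/

section
variable (I : Finset (Px G)) (Z : Wd G → ℂ)

lemma mem_XI {x : Xx G} : x ∈ XI I ↔ ∃ i ∈ I, i.2 = x := by
  classical
  exact mem_image

lemma SZ_out {x : Xx G} (hx : x ∉ XI I) : Module.finrank ℚ (SZ I Z x) = 0 := by
  classical
  have h1 : {p : Wd G | (p, x) ∈ I} = ∅ := by
    ext p
    simp only [Set.mem_ofPred_eq, Set.mem_empty_iff_false, iff_false]
    intro h
    exact hx (mem_image.2 ⟨(p, x), h, rfl⟩)
  rw [SZ, h1, Set.image_empty, Submodule.span_empty]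
  exact finrank_bot ℚ ℂ

lemma sum_XI {X : Finset (Xx G)} (hX : XI I ⊆ X) : ∑ x ∈ XI I, Module.finrank ℚ (SZ I Z x) =
    ∑ x ∈ X, Module.finrank ℚ (SZ I Z x) :=
  sum_subset hX fun _ _ hx => SZ_out I Z hx

end

/-! ### counting -/

open Classical in
/-- the functions of given weight -/
noncomputable def XF (K : Finset G) : ℕ → Finset (Xx G)
  | 0 => K.image fun k => (k, 0, [])
  | n + 1 => (XF K n).image (fun x => (x.1, x.2.1 + 1, x.2.2)) ∪
      (K ×ˢ XF K n).image fun p => (p.1, 0, (p.2.2.1 + 1, p.2.1) :: p.2.2.2)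

lemma mem_XF (K : Finset G) : ∀ (n : ℕ) (x : Xx G), x ∈ XF K n ↔
    wx x = n ∧ PX x ∧ x.1 ∈ K ∧ LK K x.2.2 := by
  classical
  intro n
  induction n with
  | zero =>
    rintro ⟨k, b, u⟩
    rw [XF, mem_image]
    constructor
    · rintro ⟨k', hk', h⟩
      rw [Prod.mk.injEq, Prod.mk.injEq] at h
      obtain ⟨rfl, rfl, rfl⟩ := h
      exact ⟨rfl, fun a ha => absurd ha List.not_mem_nil, hk', fun a ha => absurd ha List.not_mem_nil⟩
    · rintro ⟨h1, h2, h3, h4⟩
      rw [wx] at h1
      simp only at h1 h3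
      have hb : b = 0 := by omega
      have hu : u = [] := by
        rcases u with _ | ⟨y, u⟩
        · rfl
        · have := h2 y List.mem_cons_self
          rw [wt_cons] at h1
          omega
      subst hb hu
      exact ⟨k, h3, rfl⟩
  | succ n ih =>
    rintro ⟨k, b, u⟩
    rw [XF, mem_union, mem_image, mem_image]
    constructor
    · rintro (⟨x, hx, h⟩ | ⟨p, hp, h⟩)
      · rw [Prod.mk.injEq, Prod.mk.injEq] at h
        obtain ⟨rfl, rfl, rfl⟩ := h
        obtain ⟨h1, h2, h3, h4⟩ := (ih x).1 hx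
        refine ⟨?_, h2, h3, h4⟩
        rw [wx] at h1 ⊢
        simp only
        omega
      · rw [Prod.mk.injEq, Prod.mk.injEq] at h
        obtain ⟨rfl, rfl, rfl⟩ := h
        rw [mem_product] at hp
        obtain ⟨h1, h2, h3, h4⟩ := (ih p.2).1 hp.2
        refine ⟨?_, ?_, hp.1, ?_⟩
        · rw [wx] at h1 ⊢
          simp only [wt_cons]
          omega
        · intro a ha
          rcases List.mem_cons.1 ha with rfl | ha
          · show 1 ≤ _ + 1
            omega
          · exact h2 a ha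
        · intro a ha
          rcases List.mem_cons.1 ha with rfl | ha
          · exact h3
          · exact h4 a ha
    · rintro ⟨h1, h2, h3, h4⟩
      rw [wx] at h1
      simp only at h1 h3 h4
      rcases b with _ | b
      · right
        rcases u with _ | ⟨⟨a, k'⟩, u⟩
        · rw [wt_nil] at h1
          omega
        · have ha : 1 ≤ a := h2 (a, k') List.mem_cons_self
          rw [wt_cons] at h1
          simp only at h1
          refine ⟨(k, (k', a - 1, u)), mem_product.2 ⟨h3, (ih _).2 ⟨?_, ?_, ?_, ?_⟩⟩, ?_⟩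
          · rw [wx]
            simp only
            omega
          · exact fun c hc => h2 c (List.mem_cons_of_mem _ hc)
          · exact h4 (a, k') List.mem_cons_self
          · exact fun c hc => h4 c (List.mem_cons_of_mem _ hc)
          · simp only
            rw [Nat.sub_add_cancel ha]
      · left
        refine ⟨(k, b, u), (ih _).2 ⟨?_, h2, h3, h4⟩, rfl⟩
        rw [wx]
        simp only
        omega

lemma card_XF (K : Finset G) (n : ℕ) : (XF K n).card = K.card * (K.card + 1) ^ n := by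
  classical
  induction n with
  | zero =>
    rw [XF, card_image_of_injective, pow_zero, mul_one]
    intro k k' h
    exact congrArg Prod.fst h
  | succ n ih =>
    rw [XF, card_union_of_disjoint, card_image_of_injective, card_image_of_injective, card_product, ih]
    · ring
    · rintro ⟨k, k1, b, u⟩ ⟨k', k1', b', u'⟩ h
      simp only [Prod.mk.injEq, List.cons.injEq, Nat.add_right_cancel_iff, true_and] at h
      obtain ⟨rfl, ⟨rfl, rfl⟩, rfl⟩ := h
      rfl
    · rintro ⟨k, b, u⟩ ⟨k', b', u'⟩ h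
      simp only [Prod.mk.injEq, Nat.add_right_cancel_iff] at h
      obtain ⟨rfl, rfl, rfl⟩ := h
      rfl
    · rw [disjoint_left]
      rintro x hx hx'
      obtain ⟨y, -, rfl⟩ := mem_image.1 hx
      obtain ⟨z, -, h⟩ := mem_image.1 hx'
      simp only [Prod.mk.injEq] at h
      omega

open Classical in
/-- the words of given weight -/
noncomputable def WF (K : Finset G) : ℕ → Finset (Wd G)
  | 0 => {[]}
  | n + 1 => (XF K n).image fun x => (x.2.1 + 1, x.1) :: x.2.2

lemma mem_WF (K : Finset G) (n : ℕ) (w : Wd G) : w ∈ WF K n ↔ wt w = n ∧ PW w ∧ LK K w := by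
  classical
  cases n with
  | zero =>
    rw [WF, mem_singleton]
    constructor
    · rintro rfl
      exact ⟨rfl, fun a ha => absurd ha List.not_mem_nil, fun a ha => absurd ha List.not_mem_nil⟩
    · rintro ⟨h1, h2, -⟩
      rcases w with _ | ⟨y, u⟩
      · rfl
      · have := h2 y List.mem_cons_self
        rw [wt_cons] at h1
        omega
  | succ n =>
    rw [WF, mem_image]
    constructor
    · rintro ⟨x, hx, rfl⟩
      obtain ⟨h1, h2, h3, h4⟩ := (mem_XF K n x).1 hx
      refine ⟨?_, ?_, ?_⟩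
      · rw [wx] at h1
        rw [wt_cons]
        simp only
        omega
      · intro a ha
        rcases List.mem_cons.1 ha with rfl | ha
        · show 1 ≤ _ + 1
          omega
        · exact h2 a ha
      · intro a ha
        rcases List.mem_cons.1 ha with rfl | ha
        · exact h3
        · exact h4 a ha
    · rintro ⟨h1, h2, h3⟩
      rcases w with _ | ⟨⟨a, k⟩, u⟩
      · rw [wt_nil] at h1
        omega
      · have ha : 1 ≤ a := h2 (a, k) List.mem_cons_self
        rw [wt_cons] at h1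
        simp only at h1
        refine ⟨(k, a - 1, u), (mem_XF K n _).2 ⟨?_, ?_, ?_, ?_⟩, ?_⟩
        · rw [wx]
          simp only
          omega
        · exact fun c hc => h2 c (List.mem_cons_of_mem _ hc)
        · exact h3 (a, k) List.mem_cons_self
        · exact fun c hc => h3 c (List.mem_cons_of_mem _ hc)
        · simp only
          rw [Nat.sub_add_cancel ha]

lemma cons_inj : Function.Injective fun x : Xx G => (((x.2.1 + 1, x.1) :: x.2.2 : Wd G)) := by
  rintro ⟨k, b, u⟩ ⟨k', b', u'⟩ h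
  simp only [List.cons.injEq, Prod.mk.injEq, Nat.add_right_cancel_iff] at h
  obtain ⟨⟨rfl, rfl⟩, rfl⟩ := h
  rfl

lemma card_WF (K : Finset G) (n : ℕ) : (WF K (n + 1)).card = K.card * (K.card + 1) ^ n := by
  classical
  rw [WF, card_image_of_injective _ cons_inj, card_XF]

end Pool.Agent.H43L
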