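import Pool.Agent.H43L.Al

/-!
# The formal expansion and the dimension of the space of formal relations
-/

set_option autoImplicit false

namespace Pool.Agent.H43L

open Finset Filter
open Pool.Agent.X90.DM (trunc R)

variable {G : Type} [AddCommMonoid G] (χ : Chr G)

/-- pairs of a front and a function -/
abbrev Px (G : Type) : Type := Wd G × Xx G

theorem tails_mul (i : Px G) (hi : PW i.1 ∧ PX i.2) : ∃ θ : Px G →₀ ℚ,
    (∀ j ∈ θ.support, (∃ r, r ≠ [] ∧ j.1 ++ r = i.1) ∧ wt j.1 + wx j.2 = wt i.1 + wx i.2 ∧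
      dg j.1 + dx j.2 = dg i.1 + dx i.2 ∧ PX j.2) ∧
    ∀ m L, 1 ≤ m → m + 1 ≤ L → R (mp χ i.1) m L * ex χ i.2 m = trunc (mp χ i.1) L * ex χ i.2 m +
      θ.sum fun j c => (c : ℂ) * (trunc (mp χ j.1) L * ex χ j.2 m) := by
  classical
  obtain ⟨p, x⟩ := i
  obtain ⟨hp, hx⟩ := hi
  obtain ⟨θ, h1, h2⟩ := tails χ p hp
  have h3 : ∀ y : Xx G, ∃ l : Xx G →₀ ℚ, PX y →
      (∀ w ∈ l.support, PX w ∧ wx w = wx y + wx x ∧ dx w = dx y + dx x) ∧
      ∀ m, 1 ≤ m → ex χ y m * ex χ x m = l.sum fun w c => (c : ℂ) * ex χ w m := by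
    intro y
    by_cases hy : PX y
    · obtain ⟨l, hl⟩ := ex_mul χ hy hx
      exact ⟨l, fun _ => hl⟩
    · exact ⟨0, fun h => absurd h hy⟩
  choose l hl using h3
  refine ⟨θ.sum fun j c => c • (l j.2).mapDomain fun w => (j.1, w), fun j hj => ?_, fun m L hm hL => ?_⟩
  · rw [Finsupp.sum] at hj
    obtain ⟨j', hj', h4⟩ := mem_biUnion.1 (Finsupp.support_finsetSum hj)
    have h5 := Finsupp.mapDomain_support (Finsupp.support_smul h4)
    obtain ⟨w, hw, rfl⟩ := mem_image.1 h5
    obtain ⟨⟨r, hr, hr'⟩, g1, g2, g3⟩ := h1 j' hj'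
    obtain ⟨k1, k2, k3⟩ := (hl j'.2 g3).1 w hw
    refine ⟨⟨r, hr, hr'⟩, ?_, ?_, k1⟩
    · simp only [k2]
      omega
    · simp only [k3]
      rw [← g2]
      abel
  · simp only
    rw [h2 m L hm hL, add_mul]
    congr 1
    have hadd : ∀ (a : Px G →₀ ℚ) (b : Px G → ℂ), Finsupp.sum a (fun j c => (c : ℂ) * b j) =
        Finsupp.linearCombination ℚ b a := by
      intro a b
      rw [Finsupp.linearCombination_apply]
      refine Finsupp.sum_congr fun j _ => ?_
      rw [Algebra.smul_def, eq_ratCast]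
    rw [hadd, hadd, Finsupp.sum, map_sum, Finsupp.linearCombination_apply, Finsupp.sum, sum_mul]
    refine sum_congr rfl fun j hj => ?_
    obtain ⟨g0, g1, g2, g3⟩ := h1 j hj
    rw [map_smul, Finsupp.linearCombination_mapDomain, smul_mul_assoc]
    congr 1
    rw [mul_assoc, (hl j.2 g3).2 m hm, Finsupp.linearCombination_apply, Finsupp.sum, Finsupp.sum, mul_sum]
    refine sum_congr rfl fun w _ => ?_
    rw [Algebra.smul_def, eq_ratCast, Function.comp_apply]
    ring

/-- the closure property of the index sets -/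
structure Closed (I : Finset (Px G)) : Prop where
  pos : ∀ i ∈ I, PW i.1 ∧ PX i.2
  cl : ∀ i ∈ I, ∀ j : Px G, (∃ r, r ≠ [] ∧ j.1 ++ r = i.1) → wt j.1 + wx j.2 = wt i.1 + wx i.2 →
    dg j.1 + dx j.2 = dg i.1 + dx i.2 → PX j.2 → j ∈ I

/-- **the formal expansion** -/
theorem expand (I : Finset (Px G)) (hI : Closed I) : ∃ P : (↥I → ℚ) →ₗ[ℚ] (↥I → ℚ), Function.Injective P ∧
    ∀ (c : ↥I → ℚ) (m L : ℕ), 1 ≤ m → m + 1 ≤ L →
      ∑ i : ↥I, (c i : ℂ) * (R (mp χ i.1.1) m L * ex χ i.1.2 m) =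
        ∑ i : ↥I, (P c i : ℂ) * (trunc (mp χ i.1.1) L * ex χ i.1.2 m) := by
  classical
  choose θ h1 h2 using fun i : ↥I => tails_mul χ i.1 (hI.pos i.1 i.2)
  let P : (↥I → ℚ) →ₗ[ℚ] (↥I → ℚ) :=
    { toFun := fun c i => c i + ∑ j : ↥I, c j * θ j i.1
      map_add' := fun c d => by
        funext i
        simp only [Pi.add_apply, add_mul, sum_add_distrib]
        ring
      map_smul' := fun a c => by
        funext i
        simp only [Pi.smul_apply, smul_eq_mul, RingHom.id_apply, mul_add, mul_sum, mul_assoc] }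
  refine ⟨P, ?_, fun c m L hm hL => ?_⟩
  · rw [← LinearMap.ker_eq_bot, LinearMap.ker_eq_bot']
    intro c hc
    by_contra hne
    obtain ⟨i0, hi0⟩ : ∃ i, c i ≠ 0 := by
      by_contra h
      push Not at h
      exact hne (funext h)
    obtain ⟨i, hi, hmax⟩ := exists_max_image (univ.filter fun i : ↥I => c i ≠ 0) (fun i => i.1.1.length)
      ⟨i0, mem_filter.2 ⟨mem_univ _, hi0⟩⟩
    have hi' := (mem_filter.1 hi).2
    have h3 : c i + ∑ j : ↥I, c j * θ j i.1 = 0 := congrFun hc i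
    rw [sum_eq_zero, add_zero] at h3
    · exact hi' h3
    · intro j _
      by_cases hcj : c j = 0
      · rw [hcj, zero_mul]
      by_cases hθ : θ j i.1 = 0
      · rw [hθ, mul_zero]
      exfalso
      obtain ⟨⟨r, hr, hr'⟩, -⟩ := h1 j i.1 (Finsupp.mem_support_iff.2 hθ)
      have h4 := hmax j (mem_filter.2 ⟨mem_univ _, hcj⟩)
      have h5 := congrArg List.length hr'
      rw [List.length_append] at h5
      have h6 := List.length_pos_iff.2 hr
      omega
  · have h3 : ∀ i : ↥I, R (mp χ i.1.1) m L * ex χ i.1.2 m = trunc (mp χ i.1.1) L * ex χ i.1.2 m +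
        ∑ j : ↥I, (θ i j.1 : ℂ) * (trunc (mp χ j.1.1) L * ex χ j.1.2 m) := by
      intro i
      rw [h2 i m L hm hL]
      congr 1
      rw [Finsupp.sum, sum_coe_sort I (fun j => (θ i j : ℂ) * (trunc (mp χ j.1) L * ex χ j.2 m))]
      refine sum_subset (fun j hj => ?_) (fun j _ hj => ?_)
      · obtain ⟨g0, g1, g2, g3⟩ := h1 i j hj
        exact hI.cl i.1 i.2 j g0 g1 g2 g3
      · rw [Finsupp.notMem_support_iff.1 hj]
        simp
    simp only [h3]
    show _ = ∑ i : ↥I, ((c i + ∑ j : ↥I, c j * θ j i.1 : ℚ) : ℂ) * _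
    push_cast
    simp only [mul_add, add_mul, sum_add_distrib]
    congr 1
    simp only [mul_sum, sum_mul]
    rw [sum_comm]
    exact sum_congr rfl fun i _ => sum_congr rfl fun j _ => by ring

section
variable (I : Finset (Px G)) (Z : Wd G → ℂ)

open Classical in
/-- the functions that occur -/
noncomputable def XI : Finset (Xx G) := I.image Prod.snd

/-- the values at the fronts of a function -/
noncomputable def SZ (x : Xx G) : Submodule ℚ ℂ := Submodule.span ℚ (Z '' {p | (p, x) ∈ I})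

open Classical in
lemma SZ_fin (x : Xx G) : Module.Finite ℚ (SZ I Z x) := by
  have h : {p | (p, x) ∈ I} ⊆ ((I.image Prod.fst : Finset (Wd G)) : Set (Wd G)) := by
    intro p hp
    exact mem_coe.2 (mem_image.2 ⟨(p, x), hp, rfl⟩)
  exact Module.Finite.span_of_finite ℚ (((Finset.finite_toSet _).subset h).image _)

open Classical in
/-- the values of the coefficients -/
noncomputable def evz : (↥I → ℚ) →ₗ[ℚ] ((x : ↥(XI I)) → ↥(SZ I Z x.1)) where
  toFun g x := ⟨∑ i : ↥I with i.1.2 = x.1, g i • Z i.1.1,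
    Submodule.sum_mem _ fun i hi => Submodule.smul_mem _ _
      (Submodule.subset_span ⟨i.1.1, by
        show (i.1.1, x.1) ∈ I
        rw [← (mem_filter.1 hi).2]
        exact i.2, rfl⟩)⟩
  map_add' c d := by
    funext x
    ext
    simp only [Pi.add_apply, add_smul, sum_add_distrib, Submodule.coe_add]
  map_smul' a c := by
    funext x
    ext
    simp only [Pi.smul_apply, smul_eq_mul, RingHom.id_apply, smul_sum, mul_smul,
      SetLike.val_smul]

lemma evz_surj : Function.Surjective (evz I Z) := by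
  classical
  intro z
  have h1 : ∀ x : ↥(XI I), ∃ l : Wd G →₀ ℚ, l ∈ Finsupp.supported ℚ ℚ {p | (p, x.1) ∈ I} ∧
      Finsupp.linearCombination ℚ Z l = z x := by
    intro x
    have h2 : (z x : ℂ) ∈ Submodule.span ℚ (Z '' {p | (p, x.1) ∈ I}) := (z x).2
    rw [Finsupp.mem_span_image_iff_linearCombination] at h2
    exact h2
  choose l hl1 hl2 using h1
  have hX : ∀ i : ↥I, i.1.2 ∈ XI I := fun i => mem_image.2 ⟨i.1, i.2, rfl⟩
  refine ⟨fun i => l ⟨i.1.2, hX i⟩ i.1.1, ?_⟩
  funext x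
  ext
  show ∑ i : ↥I with i.1.2 = x.1, l ⟨i.1.2, hX i⟩ i.1.1 • Z i.1.1 = z x
  rw [← hl2 x, Finsupp.linearCombination_apply, Finsupp.sum]
  symm
  refine sum_bij_ne_zero (fun p hp _ => ⟨(p, x.1), (Finsupp.mem_supported ℚ _).1 (hl1 x) hp⟩) ?_ ?_ ?_ ?_
  · intro p hp _
    exact mem_filter.2 ⟨mem_univ _, rfl⟩
  · intro p hp _ p' hp' _ h
    exact congrArg Prod.fst (congrArg Subtype.val h)
  · intro i hi hne
    rw [mem_filter] at hi
    have hx : (⟨i.1.2, hX i⟩ : ↥(XI I)) = x := Subtype.ext hi.2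
    rw [hx] at hne
    have hs : i.1.1 ∈ (l x).support := by
      rw [Finsupp.mem_support_iff]
      intro h0
      apply hne
      rw [h0, zero_smul]
    refine ⟨i.1.1, hs, hne, ?_⟩
    ext1
    exact Prod.ext rfl hi.2.symm
  · intro p hp _
    have hx : ∀ h, (⟨x.1, h⟩ : ↥(XI I)) = x := fun _ => rfl
    rfl

/-- **the dimension of the space of formal relations** -/
theorem rank_rel (P : (↥I → ℚ) →ₗ[ℚ] (↥I → ℚ)) (hP : Function.Injective P) :
    Module.finrank ℚ (LinearMap.ker ((evz I Z).comp P)) +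
      ∑ x ∈ XI I, Module.finrank ℚ (SZ I Z x) = I.card := by
  classical
  have : ∀ x, Module.Finite ℚ (SZ I Z x) := SZ_fin I Z
  have h1 : Function.Surjective ((evz I Z).comp P) := by
    rw [LinearMap.coe_comp]
    exact (evz_surj I Z).comp (LinearMap.surjective_of_injective hP)
  have h2 := LinearMap.finrank_range_add_finrank_ker ((evz I Z).comp P)
  rw [LinearMap.range_eq_top.2 h1, finrank_top, Module.finrank_pi_fintype,
    Module.finrank_fintype_fun_eq_card, Fintype.card_coe] at h2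
  rw [← h2, add_comm]
  congr 1
  rw [← sum_coe_sort (XI I)]

end

end Pool.Agent.H43L
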