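import Pool.Agent.H43L.Cv
import Pool.Agent.H583_Fol.GS
import Mathlib.Analysis.Complex.AbelLimit
import Mathlib.NumberTheory.ZetaValues

/-!
# Values of weight one and two
-/

set_option autoImplicit false

namespace Pool.Agent.H43L

open Finset Filter Topology
open Pool.Agent.X90.DM (trunc li)

lemma li_of {w : List (ℕ × ℂ)} {c : ℂ} (h : Tendsto (trunc w) atTop (𝓝 c)) : li w = c := h.limUnder_eq

lemma li_lim {w : List (ℕ × ℂ)} (h : Am w) : Tendsto (trunc w) atTop (𝓝 (li w)) := by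
  rw [li]
  exact tendsto_nhds_limUnder h.cv

/-- the theorem of Abel for the first letter -/
lemma li_abel {a : ℕ} (ha : 1 ≤ a) {z : ℂ} {u : List (ℕ × ℂ)} (hw : Am ((a, z) :: u)) :
    Tendsto (fun r : ℝ => ∑' n : ℕ, (z ^ n / (n : ℂ) ^ a * trunc u n) * (r : ℂ) ^ n) (𝓝[<] 1)
      (𝓝 (li ((a, z) :: u))) := by
  have h1 : Tendsto (fun n : ℕ => ∑ i ∈ range n, z ^ i / (i : ℂ) ^ a * trunc u i) atTop
      (𝓝 (li ((a, z) :: u))) := by
    refine (li_lim hw).congr' ?_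
    filter_upwards [eventually_ge_atTop 1] with m hm
    rw [trunc, range_eq_Ico, sum_eq_sum_Ico_succ_bot (by omega : 0 < m)]
    rw [Nat.cast_zero, zero_pow (by omega : a ≠ 0), div_zero, zero_mul, zero_add]
  have h2 := Complex.tendsto_tsum_powerSeries_nhdsWithin_lt h1
  rw [tendsto_map'_iff] at h2
  exact h2

lemma norm_lt {z : ℂ} (hz : ‖z‖ = 1) {r : ℝ} (h0 : 0 < r) (h1 : r < 1) : ‖z * (r : ℂ)‖ < 1 := by
  rw [norm_mul, hz, one_mul, Complex.norm_real, Real.norm_eq_abs, abs_of_pos h0]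
  exact h1

lemma ev_unit : ∀ᶠ r : ℝ in 𝓝[<] 1, 0 < r ∧ r < 1 := by
  have h1 : ∀ᶠ r : ℝ in 𝓝[<] 1, r < 1 := eventually_mem_nhdsWithin
  have h2 : ∀ᶠ r : ℝ in 𝓝[<] 1, 0 < r := nhdsWithin_le_nhds (lt_mem_nhds one_pos)
  filter_upwards [h1, h2] with r h3 h4
  exact ⟨h4, h3⟩

lemma log_lim {z : ℂ} (hz : ‖z‖ = 1) (hz1 : z ≠ 1) :
    Tendsto (fun r : ℝ => -Complex.log (1 - z * (r : ℂ))) (𝓝[<] 1) (𝓝 (-Complex.log (1 - z))) := by
  have h1 : Tendsto (fun r : ℝ => 1 - z * (r : ℂ)) (𝓝[<] 1) (𝓝 (1 - z)) := by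
    have h2 : Continuous fun r : ℝ => 1 - z * (r : ℂ) := by fun_prop
    have h3 := h2.tendsto 1
    simp only [Complex.ofReal_one, mul_one] at h3
    exact h3.mono_left nhdsWithin_le_nhds
  refine (h1.clog ?_).neg
  rw [Complex.mem_slitPlane_iff]
  by_cases h4 : z.im = 0
  · left
    have h5 : z.re ^ 2 = 1 := by
      have := Complex.sq_norm z
      rw [hz, Complex.normSq_apply, h4] at this
      nlinarith
    rw [Complex.sub_re, Complex.one_re]
    have h6 : z.re ≠ 1 := fun h => hz1 (Complex.ext h h4)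
    have h7 : z.re = -1 := by
      rcases mul_eq_zero.1 (show (z.re - 1) * (z.re + 1) = 0 by linear_combination h5) with h | h
      · exact absurd (by linarith) h6
      · linarith
    rw [h7]
    norm_num
  · right
    rw [Complex.sub_im, Complex.one_im, zero_sub]
    exact neg_ne_zero.2 h4

lemma am_one {z : ℂ} (hz : ‖z‖ = 1) (hz1 : z ≠ 1) {u : List (ℕ × ℂ)} (hu : Pn u) : Am ((1, z) :: u) := by
  refine ⟨fun _ => hz1, fun x hx => ?_⟩
  rcases List.mem_cons.1 hx with rfl | hx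
  · exact ⟨le_rfl, hz⟩
  · exact hu x hx

/-- the value of weight one -/
lemma li_one {z : ℂ} (hz : ‖z‖ = 1) (hz1 : z ≠ 1) : li [(1, z)] = -Complex.log (1 - z) := by
  have h1 := li_abel le_rfl (am_one hz hz1 (u := []) (fun x hx => absurd hx List.not_mem_nil))
  refine tendsto_nhds_unique h1 ((log_lim hz hz1).congr' ?_)
  filter_upwards [ev_unit] with r ⟨h0, h2⟩
  have h3 := Complex.hasSum_taylorSeries_neg_log (norm_lt hz h0 h2)
  rw [← h3.tsum_eq]
  refine tsum_congr fun n => ?_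
  rw [trunc, pow_one, mul_one, mul_pow]
  ring

lemma harm_refl (n : ℕ) (g : ℕ → ℂ) : ∑ k ∈ Ico 1 n, g (n - k) = ∑ k ∈ Ico 1 n, g k := by
  refine sum_nbij' (fun k => n - k) (fun k => n - k) ?_ ?_ ?_ ?_ ?_
  · intro k hk
    rw [mem_Ico] at hk ⊢
    omega
  · intro k hk
    rw [mem_Ico] at hk ⊢
    omega
  · intro k hk
    rw [mem_Ico] at hk
    omega
  · intro k hk
    rw [mem_Ico] at hk
    omega
  · intro k _
    rfl

/-- the Cauchy product -/
lemma conv_log (x : ℂ) (n : ℕ) : ∑ kl ∈ antidiagonal n, x ^ kl.1 / (kl.1 : ℂ) * (x ^ kl.2 / (kl.2 : ℂ)) =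
    2 * (x ^ n / (n : ℂ) * ∑ j ∈ Ico 1 n, 1 / (j : ℂ)) := by
  rw [Nat.sum_antidiagonal_eq_sum_range_succ (fun k l => x ^ k / (k : ℂ) * (x ^ l / (l : ℂ)))]
  rcases Nat.eq_zero_or_pos n with rfl | hn
  · simp
  rw [sum_range_succ, Nat.sub_self, Nat.cast_zero, div_zero, mul_zero, add_zero, range_eq_Ico,
    sum_eq_sum_Ico_succ_bot hn, Nat.cast_zero, div_zero, zero_mul, zero_add]
  have h1 : ∀ k ∈ Ico (0 + 1) n, x ^ k / (k : ℂ) * (x ^ (n - k) / ((n - k : ℕ) : ℂ)) =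
      x ^ n / (n : ℂ) * (1 / (k : ℂ) + 1 / ((n - k : ℕ) : ℂ)) := by
    intro k hk
    rw [mem_Ico] at hk
    have h2 : (k : ℂ) ≠ 0 := by exact_mod_cast (by omega : k ≠ 0)
    have h3 : ((n - k : ℕ) : ℂ) ≠ 0 := by exact_mod_cast (by omega : n - k ≠ 0)
    have h4 : (n : ℂ) = (k : ℂ) + ((n - k : ℕ) : ℂ) := by
      rw [← Nat.cast_add]
      congr 1
      omega
    have h5 : (k : ℂ) + ((n - k : ℕ) : ℂ) ≠ 0 := by
      rw [← h4]
      exact_mod_cast (by omega : n ≠ 0)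
    have h6 : x ^ n = x ^ k * x ^ (n - k) := by
      rw [← pow_add]
      congr 1
      omega
    rw [h6, h4]
    field_simp
    ring
  rw [sum_congr rfl h1, ← mul_sum, sum_add_distrib, zero_add, harm_refl n fun k => 1 / (k : ℂ)]
  ring

/-- the value of depth two -/
lemma li_two {z : ℂ} (hz : ‖z‖ = 1) (hz1 : z ≠ 1) :
    li [(1, z), (1, 1)] = (Complex.log (1 - z)) ^ 2 / 2 := by
  have hu : Pn [((1 : ℕ), (1 : ℂ))] := by
    intro x hx
    rw [List.mem_singleton] at hx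
    subst hx
    exact ⟨le_rfl, norm_one⟩
  have h1 := li_abel le_rfl (am_one hz hz1 hu)
  have h2 : Tendsto (fun r : ℝ => (-Complex.log (1 - z * (r : ℂ))) ^ 2 / 2) (𝓝[<] 1)
      (𝓝 ((-Complex.log (1 - z)) ^ 2 / 2)) := ((log_lim hz hz1).pow 2).div_const 2
  rw [neg_sq] at h2
  refine tendsto_nhds_unique h1 (h2.congr' ?_)
  filter_upwards [ev_unit] with r ⟨h0, h3⟩
  have h4 := Complex.hasSum_taylorSeries_neg_log (norm_lt hz h0 h3)
  have h5 : Summable fun n : ℕ => ‖(z * (r : ℂ)) ^ n / (n : ℂ)‖ := h4.summable.norm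
  rw [sq, ← h4.tsum_eq, tsum_mul_tsum_eq_tsum_sum_antidiagonal_of_summable_norm h5 h5]
  simp only [conv_log]
  rw [tsum_mul_left, mul_div_cancel_left₀ _ two_ne_zero]
  refine tsum_congr fun n => ?_
  rw [trunc]
  simp only [trunc, pow_one, one_pow, mul_one, mul_pow]
  ring

/-! ### the sixth root of unity -/

/-- the number `e^{π i / 3}` -/
noncomputable def om : ℂ := Complex.exp (Real.pi * Complex.I / 3)

lemma om_pow (j : ℕ) : om ^ j = Complex.exp ((j * (Real.pi / 3) : ℝ) * Complex.I) := by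
  rw [om, ← Complex.exp_nat_mul]
  congr 1
  push_cast
  ring

lemma om_six : om ^ 6 = 1 := by
  rw [om_pow]
  have : (((6 : ℕ) : ℝ) * (Real.pi / 3) : ℝ) = 2 * Real.pi := by
    push_cast
    ring
  rw [this]
  push_cast
  exact Complex.exp_two_pi_mul_I

lemma om_norm : ‖om‖ = 1 := Complex.norm_eq_one_of_pow_eq_one om_six (by norm_num)

lemma om_im (j : ℕ) : (om ^ j).im = Real.sin (j * (Real.pi / 3)) := by
  rw [om_pow, Complex.exp_ofReal_mul_I_im]

lemma om_re (j : ℕ) : (om ^ j).re = Real.cos (j * (Real.pi / 3)) := by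
  rw [om_pow, Complex.exp_ofReal_mul_I_re]

lemma om_im1 : om.im = √3 / 2 := by
  have := om_im 1
  rw [pow_one] at this
  rw [this, Nat.cast_one, one_mul, Real.sin_pi_div_three]

lemma om_re1 : om.re = 1 / 2 := by
  have := om_re 1
  rw [pow_one] at this
  rw [this, Nat.cast_one, one_mul, Real.cos_pi_div_three]

lemma om_ne : om ≠ 1 := by
  intro h
  have := om_re1
  rw [h, Complex.one_re] at this
  norm_num at this

lemma log_om : Complex.log (1 - om) = -(Real.pi / 3 : ℝ) * Complex.I := by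
  have h1 : 1 - om = Complex.exp (-(Real.pi / 3 : ℝ) * Complex.I) := by
    have h2 : (-((Real.pi / 3 : ℝ) : ℂ)) = ((-(Real.pi / 3) : ℝ) : ℂ) := by push_cast; rfl
    rw [h2]
    apply Complex.ext
    · rw [Complex.sub_re, Complex.one_re, om_re1, Complex.exp_ofReal_mul_I_re, Real.cos_neg,
        Real.cos_pi_div_three]
      norm_num
    · rw [Complex.sub_im, Complex.one_im, om_im1, Complex.exp_ofReal_mul_I_im, Real.sin_neg,
        Real.sin_pi_div_three]
      norm_num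
  rw [h1]
  have hpi := Real.pi_pos
  refine Complex.log_exp ?_ ?_
  · simp
    linarith
  · simp
    linarith

lemma li_om_one : li [(1, om)] = ((Real.pi / 3 : ℝ) : ℂ) * Complex.I := by
  rw [li_one om_norm om_ne, log_om]
  ring

lemma li_om_two : li [(1, om), (1, 1)] = ((-(Real.pi ^ 2 / 18) : ℝ) : ℂ) := by
  rw [li_two om_norm om_ne, log_om, mul_pow, Complex.I_sq]
  push_cast
  ring

lemma li_om_dilog : 0 < (li [(2, om)]).im := by
  have hA : Am [(2, om)] := by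
    refine ⟨fun h => absurd h (by norm_num), fun x hx => ?_⟩
    rw [List.mem_singleton] at hx
    subst hx
    exact ⟨by norm_num, om_norm⟩
  have h1 : Tendsto (fun m => (trunc [(2, om)] m).im) atTop (𝓝 (li [(2, om)]).im) :=
    (Complex.continuous_im.tendsto _).comp (li_lim hA)
  have h2 : ∀ m, (trunc [(2, om)] m).im = ∑ j ∈ Ico 1 m, Real.sin (j * (Real.pi / 3)) / (j : ℝ) ^ 2 := by
    intro m
    rw [trunc, Complex.im_sum]
    refine sum_congr rfl fun j _ => ?_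
    rw [trunc, mul_one, ← om_im]
    have : ((j : ℂ) ^ (2 : ℕ)) = (((j : ℝ) ^ 2 : ℝ) : ℂ) := by push_cast; rfl
    show (om ^ j / (j : ℂ) ^ 2).im = _
    rw [this, Complex.div_ofReal_im]
  have h3 : ∀ k : ℕ, (5 * √3 / 8 - 1 / 3 : ℝ) + 1 / ((k : ℝ) + 3) ≤
      ∑ j ∈ Ico 1 (k + 4), Real.sin (j * (Real.pi / 3)) / (j : ℝ) ^ 2 := by
    intro k
    induction k with
    | zero =>
      have e1 : Real.sin ((2 : ℕ) * (Real.pi / 3)) = √3 / 2 := by
        rw [show (((2 : ℕ) : ℝ) * (Real.pi / 3) : ℝ) = Real.pi - Real.pi / 3 by push_cast; ring, Real.sin_pi_sub,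
          Real.sin_pi_div_three]
      have e2 : Real.sin ((3 : ℕ) * (Real.pi / 3)) = 0 := by
        rw [show (((3 : ℕ) : ℝ) * (Real.pi / 3) : ℝ) = Real.pi by push_cast; ring, Real.sin_pi]
      have e3 : Real.sin ((1 : ℕ) * (Real.pi / 3)) = √3 / 2 := by
        rw [Nat.cast_one, one_mul, Real.sin_pi_div_three]
      rw [sum_Ico_succ_top (by norm_num), sum_Ico_succ_top (by norm_num), sum_Ico_succ_top (by norm_num),
        Ico_self, sum_empty, e1, e2, e3]
      push_cast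
      nlinarith [Real.sqrt_nonneg 3]
    | succ k ih =>
      rw [sum_Ico_succ_top (by omega)]
      have h4 : -(1 / ((k + 4 : ℕ) : ℝ) ^ 2) ≤ Real.sin ((k + 4 : ℕ) * (Real.pi / 3)) / ((k + 4 : ℕ) : ℝ) ^ 2 := by
        rw [← neg_div]
        exact div_le_div_of_nonneg_right (Real.neg_one_le_sin _) (by positivity)
      have h5 : 1 / ((k + 1 : ℕ) + 3 : ℝ) + 1 / ((k + 4 : ℕ) : ℝ) ^ 2 ≤ 1 / ((k : ℝ) + 3) := by
        push_cast
        have h6 : (0 : ℝ) ≤ k := Nat.cast_nonneg k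
        rw [div_add_div _ _ (by positivity) (by positivity), div_le_div_iff₀ (by positivity) (by positivity)]
        nlinarith [mul_nonneg h6 h6]
      linarith
  have h4 : (5 * √3 / 8 - 1 / 3 : ℝ) ≤ (li [(2, om)]).im := by
    refine ge_of_tendsto h1 ?_
    filter_upwards [eventually_ge_atTop 4] with m hm
    obtain ⟨k, rfl⟩ : ∃ k, m = k + 4 := ⟨m - 4, by omega⟩
    rw [h2]
    refine le_trans ?_ (h3 k)
    have : (0 : ℝ) ≤ 1 / ((k : ℝ) + 3) := by positivity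
    linarith
  have h5 : (1 : ℝ) < √3 := by
    rw [Real.lt_sqrt (by norm_num)]
    norm_num
  linarith

/-! ### alternating values -/

lemma am_m1 : ‖(-1 : ℂ)‖ = 1 ∧ (-1 : ℂ) ≠ 1 := by
  refine ⟨by rw [norm_neg, norm_one], fun h => ?_⟩
  have := congrArg Complex.re h
  norm_num at this

lemma li_alt_one : li [(1, -1)] = ((-Real.log 2 : ℝ) : ℂ) := by
  rw [li_one am_m1.1 am_m1.2]
  have : (1 : ℂ) - -1 = ((2 : ℝ) : ℂ) := by push_cast; norm_num
  rw [this, ← Complex.ofReal_log (by norm_num)]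
  push_cast
  rfl

lemma li_alt_two : li [(1, -1), (1, 1)] = ((Real.log 2 ^ 2 / 2 : ℝ) : ℂ) := by
  rw [li_two am_m1.1 am_m1.2]
  have : (1 : ℂ) - -1 = ((2 : ℝ) : ℂ) := by push_cast; norm_num
  rw [this, ← Complex.ofReal_log (by norm_num)]
  push_cast
  rfl

lemma am_two {z : ℂ} (hz : ‖z‖ = 1) : Am [(2, z)] := by
  refine ⟨fun h => absurd h (by norm_num), fun x hx => ?_⟩
  rw [List.mem_singleton] at hx
  subst hx
  exact ⟨by norm_num, hz⟩

lemma li_zeta : li [(2, 1)] = ((Real.pi ^ 2 / 6 : ℝ) : ℂ) := by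
  refine li_of ?_
  have h1 := hasSum_zeta_two.tendsto_sum_nat
  have h2 : Tendsto (fun n : ℕ => ((∑ i ∈ range n, 1 / (i : ℝ) ^ 2 : ℝ) : ℂ)) atTop (𝓝 ((Real.pi ^ 2 / 6 : ℝ) : ℂ)) :=
    (Complex.continuous_ofReal.tendsto _).comp h1
  refine h2.congr' ?_
  filter_upwards [eventually_ge_atTop 1] with m hm
  rw [trunc, range_eq_Ico, sum_eq_sum_Ico_succ_bot (by omega : 0 < m)]
  push_cast
  rw [zero_pow two_ne_zero, div_zero, zero_add]
  refine sum_congr rfl fun j _ => ?_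
  rw [trunc, mul_one, one_pow]

lemma li_alt_dilog : li [(2, -1)] = ((-(Real.pi ^ 2 / 12) : ℝ) : ℂ) := by
  have h0 : ∀ m : ℕ, trunc [(2, -1)] (2 * m + 1) + trunc [(2, 1)] (2 * m + 1) = trunc [(2, 1)] (m + 1) / 2 := by
    intro m
    induction m with
    | zero => simp [trunc]
    | succ m ih =>
      have e1 : ∀ (z : ℂ) (k : ℕ), trunc [(2, z)] (k + 1 + 1) = trunc [(2, z)] (k + 1) +
          z ^ (k + 1) / ((k + 1 : ℕ) : ℂ) ^ 2 := by
        intro z k
        rw [trunc, trunc, sum_Ico_succ_top (by omega)]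
        simp only [trunc, mul_one]
      have e2 : 2 * (m + 1) + 1 = (2 * m + 1) + 1 + 1 := by ring
      rw [e2, e1, e1, e1 1 m, show 2 * m + 1 + 1 = (2 * m) + 1 + 1 by ring, e1, e1]
      have e3 : (-1 : ℂ) ^ (2 * m + 1) = -1 := by rw [pow_succ, pow_mul]; norm_num
      have e4 : (-1 : ℂ) ^ (2 * m + 1 + 1) = 1 := by rw [pow_succ, e3]; norm_num
      rw [e3, e4, one_pow, one_pow, one_pow]
      have e5 : ((2 * m + 1 + 1 : ℕ) : ℂ) = 2 * ((m + 1 : ℕ) : ℂ) := by push_cast; ring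
      have e6 : ((m + 1 : ℕ) : ℂ) ≠ 0 := by exact_mod_cast (Nat.succ_ne_zero m)
      rw [e5]
      have e7 : (1 : ℂ) / (2 * ((m + 1 : ℕ) : ℂ)) ^ 2 = 1 / ((m + 1 : ℕ) : ℂ) ^ 2 / 4 := by
        rw [mul_pow]
        field_simp
        norm_num
      rw [e7]
      linear_combination ih
  have hA := li_lim (am_two am_m1.1)
  have hB := li_lim (am_two norm_one)
  have hm : Tendsto (fun m : ℕ => 2 * m + 1) atTop atTop :=
    tendsto_atTop_mono (fun m => show m ≤ 2 * m + 1 by omega) tendsto_id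
  have h1 : Tendsto (fun m : ℕ => trunc [(2, -1)] (2 * m + 1) + trunc [(2, 1)] (2 * m + 1)) atTop
      (𝓝 (li [(2, -1)] + li [(2, 1)])) := (hA.comp hm).add (hB.comp hm)
  have h2 : Tendsto (fun m : ℕ => trunc [(2, 1)] (m + 1) / 2) atTop (𝓝 (li [(2, 1)] / 2)) :=
    (hB.comp (tendsto_add_atTop_nat 1)).div_const 2
  simp only [h0] at h1
  have h3 := tendsto_nhds_unique h1 h2
  rw [li_zeta] at h3
  have h4 : li [(2, -1)] = -(((Real.pi ^ 2 / 6 : ℝ) : ℂ) / 2) := by linear_combination h3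
  rw [h4]
  push_cast
  ring

lemma li_alt_pair : li [(1, -1), (1, -1)] = (((Real.log 2 ^ 2 - Real.pi ^ 2 / 6) / 2 : ℝ) : ℂ) := by
  have h0 : ∀ m : ℕ, trunc [(1, -1)] (m + 1) * trunc [(1, -1)] (m + 1) =
      2 * trunc [(1, -1), (1, -1)] (m + 1) + trunc [(2, 1)] (m + 1) := by
    intro m
    induction m with
    | zero => simp [trunc]
    | succ m ih =>
      have e1 : trunc [(1, -1)] (m + 1 + 1) = trunc [(1, -1)] (m + 1) + (-1 : ℂ) ^ (m + 1) / ((m + 1 : ℕ) : ℂ) := by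
        rw [trunc, trunc, sum_Ico_succ_top (by omega)]
        simp only [trunc, mul_one, pow_one]
      have e2 : trunc [(1, -1), (1, -1)] (m + 1 + 1) = trunc [(1, -1), (1, -1)] (m + 1) +
          (-1 : ℂ) ^ (m + 1) / ((m + 1 : ℕ) : ℂ) * trunc [(1, -1)] (m + 1) := by
        show ∑ j ∈ Ico 1 (m + 1 + 1), (-1 : ℂ) ^ j / (j : ℂ) ^ 1 * trunc [(1, -1)] j =
          (∑ j ∈ Ico 1 (m + 1), (-1 : ℂ) ^ j / (j : ℂ) ^ 1 * trunc [(1, -1)] j) + _
        rw [sum_Ico_succ_top (by omega), pow_one ((m + 1 : ℕ) : ℂ)]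
      have e3 : trunc [(2, 1)] (m + 1 + 1) = trunc [(2, 1)] (m + 1) + 1 / ((m + 1 : ℕ) : ℂ) ^ 2 := by
        rw [trunc, trunc, sum_Ico_succ_top (by omega)]
        simp only [trunc, mul_one, one_pow]
      have e4 : ((-1 : ℂ) ^ (m + 1) / ((m + 1 : ℕ) : ℂ)) ^ 2 = 1 / ((m + 1 : ℕ) : ℂ) ^ 2 := by
        rw [div_pow, ← pow_mul, mul_comm (m + 1) 2, pow_mul]
        norm_num
      rw [e1, e2, e3]
      linear_combination ih + e4
  have hp : Pn [((1 : ℕ), (-1 : ℂ))] := by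
    intro x hx
    rw [List.mem_singleton] at hx
    subst hx
    exact ⟨le_rfl, am_m1.1⟩
  have hA := (li_lim (am_one am_m1.1 am_m1.2 (u := []) (fun x hx => absurd hx List.not_mem_nil))).comp
    (tendsto_add_atTop_nat 1)
  have hB := (li_lim (am_one am_m1.1 am_m1.2 hp)).comp (tendsto_add_atTop_nat 1)
  have hC := (li_lim (am_two norm_one)).comp (tendsto_add_atTop_nat 1)
  have h1 := hA.mul hA
  have h2 := (hB.const_mul 2).add hC
  have h3 := tendsto_nhds_unique (h1.congr fun m => h0 m) h2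
  rw [li_alt_one, li_zeta] at h3
  have h4 : li [(1, -1), (1, -1)] = (((-Real.log 2 : ℝ) : ℂ) * ((-Real.log 2 : ℝ) : ℂ) -
      ((Real.pi ^ 2 / 6 : ℝ) : ℂ)) / 2 := by linear_combination -h3 / 2
  rw [h4]
  push_cast
  ring

/-- the squares of `π` and `log 2` -/
lemma pi_log {a b : ℚ} (h : (a : ℝ) * Real.pi ^ 2 + b * Real.log 2 ^ 2 = 0) : a = 0 ∧ b = 0 := by
  have hl : Real.log 2 ≠ 0 := (Real.log_pos (by norm_num)).ne'
  have hp := Real.pi_ne_zero
  by_cases ha : a = 0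
  · subst ha
    rw [Rat.cast_zero, zero_mul, zero_add] at h
    refine ⟨rfl, ?_⟩
    have := (mul_eq_zero.1 h).resolve_right (pow_ne_zero 2 hl)
    exact_mod_cast this
  exfalso
  have haR : (a : ℝ) ≠ 0 := by exact_mod_cast ha
  -- the number ν
  set ν : ℂ := ((-(Real.log 2 / (2 * Real.pi)) : ℝ) : ℂ) * Complex.I with hν
  have hb : b ≠ 0 := by
    intro hb
    rw [hb, Rat.cast_zero, zero_mul, add_zero] at h
    exact haR ((mul_eq_zero.1 h).resolve_right (pow_ne_zero 2 hp))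
  have hbR : (b : ℝ) ≠ 0 := by exact_mod_cast hb
  have h1 : ν ^ 2 = ((a / (4 * b) : ℚ) : ℂ) := by
    have h2 : (Real.log 2 / (2 * Real.pi)) ^ 2 = -(a / (4 * b) : ℝ) := by
      rw [div_pow, mul_pow]
      field_simp
      linarith
    have h3 : ν ^ 2 = -(((Real.log 2 / (2 * Real.pi)) ^ 2 : ℝ) : ℂ) := by
      rw [hν, mul_pow, Complex.I_sq]
      push_cast
      ring
    rw [h3, h2]
    push_cast
    ring
  have h2 : IsAlgebraic ℚ ν := by
    refine IsAlgebraic.of_pow (n := 2) (by norm_num) ?_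
    rw [h1]
    exact isAlgebraic_algebraMap (a / (4 * b) : ℚ)
  have h3 : ν.im ≠ 0 := by
    rw [hν, Complex.im_ofReal_mul, Complex.I_im, mul_one, neg_ne_zero]
    exact div_ne_zero hl (mul_ne_zero two_ne_zero hp)
  refine Pool.Agent.H583_Fol.gelfond h2 h3 ?_
  have h4 : 2 * (Real.pi : ℂ) * Complex.I * ν = ((Real.log 2 : ℝ) : ℂ) := by
    have hpc : (Real.pi : ℂ) ≠ 0 := by exact_mod_cast hp
    rw [hν]
    push_cast
    field_simp
    rw [Complex.I_sq]
    ring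
  rw [h4, ← Complex.ofReal_exp, Real.exp_log (by norm_num)]
  exact isAlgebraic_algebraMap (2 : ℚ)

end Pool.Agent.H43L
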